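import Pool.Agent.Lib.SVX.ChkF

/-!
# SVW.ChkN: ring checks in parts, the left strip cut into residue classes (MP_0229a2_co)

`ringPM l n r nodes km j os`: as `ringP l n r nodes os`, but only for the results of the left strip
whose position is `j` modulo `km + 1`; `ringDM`: the same for `ringD`.
-/

set_option autoImplicit false
set_option maxRecDepth 100000
set_option exponentiation.threshold 500

namespace Pool.Agent.Lib.SVX.Chk

open Finset

/-- the elements with position `j` modulo `km + 1` -/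
noncomputable def selM (km : ℕ) (l : List (ℕ × List (ℕ × ℕ))) : ℕ → List (ℕ × List (ℕ × ℕ)) :=
  List.rec (motive := fun _ => ℕ → List (ℕ × List (ℕ × ℕ))) (fun _ => [])
    (fun a _ ih i => bite (Nat.beq i 0) (a :: ih km) (fN (Nat.sub i 1) (fun i' => ih i'))) l

theorem selM_cons (km : ℕ) (a : ℕ × List (ℕ × ℕ)) (l : List (ℕ × List (ℕ × ℕ))) (i : ℕ) :
    selM km (a :: l) i = if i = 0 then a :: selM km l km else selM km l (i - 1) := by
  show bite (Nat.beq i 0) (a :: selM km l km) (fN (Nat.sub i 1) (fun i' => selM km l i')) = _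
  rw [fN_eq]
  by_cases hi : i = 0
  · subst hi
    rw [if_pos rfl]
    rfl
  · have h1 : Nat.beq i 0 = false := by
      cases i with
      | zero => exact absurd rfl hi
      | succ i => rfl
    rw [h1, bite_false, if_neg hi]
    rfl

theorem selM_mem (km : ℕ) : ∀ (l : List (ℕ × List (ℕ × ℕ))) (x : ℕ × List (ℕ × ℕ)), x ∈ l →
    ∃ j ≤ km, x ∈ selM km l j := by
  intro l
  induction l with
  | nil => intro x hx; simp at hx
  | cons a l ih =>
    intro x hx
    rw [List.mem_cons] at hx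
    rcases hx with rfl | hx
    · exact ⟨0, Nat.zero_le _, by rw [selM_cons, if_pos rfl]; exact List.mem_cons_self⟩
    · obtain ⟨j, hj, hm⟩ := ih x hx
      rcases Nat.lt_or_ge j km with h | h
      · refine ⟨j + 1, h, ?_⟩
        rw [selM_cons, if_neg (Nat.succ_ne_zero j)]
        exact hm
      · have e : j = km := le_antisymm hj h
        refine ⟨0, Nat.zero_le _, ?_⟩
        rw [selM_cons, if_pos rfl]
        rw [e] at hm
        exact List.mem_cons_of_mem _ hm

/-- the list of the left strip, cut, checked and packed -/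
noncomputable def withBM (l : List St) (nms : List ℕ) (WE km j : ℕ)
    (K : List (ℕ × ℕ × ℕ × ℕ × ℕ) → Bool) : Bool :=
  fLL (runL l 2097151 ID [] []) (fun L0 => fLL (selM km L0 j) (fun LL =>
    band (allLL (fun RL envL => band (Nat.ble RL C1) (eqE nms envL)) LL)
      (fCL (chunk LL 64 [] []) (fun CL => fBL WE CL K))))

theorem withBM_sound {l : List St} {nodes : List (ℕ × ℕ × List ℕ)} {nms : List ℕ} {km j : ℕ}
    {K : List (ℕ × ℕ × ℕ × ℕ × ℕ) → Bool}
    (h : withBM l nms (2 ^ (7 * nms.length)) km j K = true) :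
    ∃ BL, K BL = true ∧ ∀ (R : ℕ) (env : List (ℕ × ℕ)),
      kB nodes nms (lvl (7 * nms.length) 6) BL R env = true →
      ∀ x ∈ selM km (runL l 2097151 ID [] []) j,
        Nat.land R x.1 ≠ 0 ∨ gsat (app env x.2) nodes [] = false := by
  unfold withBM at h
  rw [fLL_eq, fLL_eq] at h
  generalize selM km (runL l 2097151 ID [] []) j = LL at h ⊢
  rw [band_eq, fCL_eq, fBL_eq] at h
  obtain ⟨h1, h2⟩ := h
  refine ⟨_, h2, ?_⟩
  intro R env hk x hx
  obtain ⟨ys, hys, hxy⟩ := chunk_mem LL 64 [] [] x (Or.inl hx)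
  unfold kB at hk
  rw [fN_eq] at hk
  have h3 := allB_mem hk (List.mem_map_of_mem hys)
  have hR : Nat.land R C1 < 2 ^ 441 := by
    show R &&& C1 < 2 ^ 441
    refine Nat.and_lt_two_pow _ ?_
    have : C1 = 2 ^ 441 - 1 := rfl
    have hpos : (0 : ℕ) < 2 ^ 441 := by positivity
    omega
  have h4 : ∀ y ∈ ys, y.1 < 2 ^ 441 ∧ y.2.map Prod.fst = nms ∧ ∀ e ∈ y.2, e.2 < 128 := by
    intro y hy
    have h5 : y ∈ LL := by
      rcases chunk_sub _ _ _ _ y ⟨ys, hys, hy⟩ with h6 | h6 | ⟨_, h6, _⟩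
      · exact h6
      · simp at h6
      · simp at h6
    have h6 := allLL_mem h1 h5
    rw [band_eq] at h6
    refine ⟨?_, eqE_iff _ _ h6.2⟩
    have h7 := Nat.le_of_ble_eq_true h6.1
    have : C1 = 2 ^ 441 - 1 := rfl
    have hpos : (0 : ℕ) < 2 ^ 441 := by positivity
    omega
  have hlen : ys.length ≤ 2 ^ 6 := chunk_len _ _ _ _ (by simp) (fun _ hz => by simp at hz) ys hys
  have h5 := tstB_sound hR hlen h4 h3 x hxy
  rcases h5 with h5 | h5
  · left
    intro h6
    apply h5
    show (R &&& C1) &&& x.1 = 0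
    have h7 : R &&& x.1 = 0 := h6
    rw [Nat.and_assoc, Nat.and_comm C1, ← Nat.and_assoc, h7]
    simp
  · exact Or.inr h5

/-- the part with the options `os` for the first parameter `n` of the right strip and the results
of the left strip with position `j` modulo `km + 1` -/
noncomputable def ringPM (l : List St) (n : ℕ) (r : List St) (nodes : List (ℕ × ℕ × List ℕ))
    (km j : ℕ) (os : List ℕ) : Bool :=
  fN (7 * (nmsOf l).length) (fun we => fN (2 ^ we) (fun WE => fLV (lvl we 6) (fun lv =>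
    withBM l (nmsOf l) WE km j (fun BL => allO (fun o =>
      runC (kB nodes (nmsOf l) lv BL) r 0 ID [(n, o)]) os))))

/-- the positions `0, …, km` -/
def AllJ (f : ℕ → Bool) : ℕ → Prop
  | 0 => f 0 = true
  | n + 1 => AllJ f n ∧ f (n + 1) = true

theorem AllJ_zero {f : ℕ → Bool} (h : f 0 = true) : AllJ f 0 := h

theorem AllJ_succ {f : ℕ → Bool} {n : ℕ} (h : AllJ f n) (h' : f (n + 1) = true) :
    AllJ f (n + 1) := ⟨h, h'⟩

theorem AllJ_le {f : ℕ → Bool} : ∀ {n : ℕ}, AllJ f n → ∀ {j : ℕ}, j ≤ n → f j = true := by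
  intro n
  induction n with
  | zero =>
    intro h j hj
    have e : j = 0 := Nat.le_zero.1 hj
    rw [e]
    exact h
  | succ n ih =>
    intro h j hj
    rcases Nat.lt_or_ge j (n + 1) with h1 | h1
    · exact ih h.1 (Nat.lt_succ_iff.1 h1)
    · have e : j = n + 1 := le_antisymm hj h1
      rw [e]
      exact h.2

/-- all parts -/
def AllM (f : ℕ → ℕ → List ℕ → Bool) : List (List ℕ × ℕ) → Prop
  | [] => True
  | p :: r => AllJ (fun j => f p.2 j p.1) p.2 ∧ AllM f r

theorem AllM_mem {f : ℕ → ℕ → List ℕ → Bool} {oss : List (List ℕ × ℕ)} (h : AllM f oss)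
    {p : List ℕ × ℕ} (hp : p ∈ oss) : AllJ (fun j => f p.2 j p.1) p.2 := by
  induction oss with
  | nil => simp at hp
  | cons a l ih =>
    rw [List.mem_cons] at hp
    rcases hp with rfl | hp
    · exact h.1
    · exact ih h.2 hp

theorem AllM_nil {f : ℕ → ℕ → List ℕ → Bool} : AllM f [] := trivial

theorem AllM_cons {f : ℕ → ℕ → List ℕ → Bool} {p : List ℕ × ℕ} {oss : List (List ℕ × ℕ)}
    (h : AllJ (fun j => f p.2 j p.1) p.2) (h' : AllM f oss) : AllM f (p :: oss) := ⟨h, h'⟩

/-- the parts cover all options -/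
def covM (s : ℕ) (oss : List (List ℕ × ℕ)) : Bool :=
  (if s = 2 then O2 else if s = 3 then O3 else O5).all
    (fun o => oss.any (fun os => os.1.contains o.1))

theorem ringPM_sound {l r : List St} {nodes : List (ℕ × ℕ × List ℕ)} {s n : ℕ} {dis : List ℕ}
    {oss : List (List ℕ × ℕ)} (hcov : covM s oss = true) (h : AllM (ringPM l n r nodes) oss)
    (Λ : ℕ → Finset (Fin 7)) (hl : OkS Λ l) (hr : OkS Λ (.par s n dis :: r)) :
    ∃ σ : Equiv.Perm (Fin 7),
      Nat.land (res (act σ Λ) (.par s n dis :: r) ID []).1 (res (act σ Λ) l ID []).1 ≠ 0 ∨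
      gsat (app (res (act σ Λ) (.par s n dis :: r) ID []).2 (res (act σ Λ) l ID []).2)
        nodes [] = false := by
  obtain ⟨σ, _, h3⟩ := runL_sound l (fun _ : Fin 7 => ()) 2097151 ID [] Λ WOk_one
    (fun e he => by simp at he) (fun e he => by simp at he) hl
  have hr' := OkS_act σ Λ _ hr
  obtain ⟨hs, hcard, _, hok⟩ := hr'
  obtain ⟨o, ho, ho1⟩ := opt_mem hs hcard
  rw [optsOf_eq hs] at ho
  have h4 := List.all_eq_true.1 hcov o ho
  rw [List.any_eq_true] at h4
  obtain ⟨os, hos, hoo⟩ := h4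
  rw [List.contains_iff_mem] at hoo
  have h5' := AllM_mem h hos
  obtain ⟨j, hj, hx⟩ := selM_mem os.2 _ _ (h3 [])
  have h5 : ringPM l n r nodes os.2 j os.1 = true := AllJ_le h5' hj
  unfold ringPM at h5
  rw [fN_eq, fN_eq, lvl_eq] at h5
  obtain ⟨BL, h6, h7⟩ := withBM_sound (nodes := nodes) h5
  have h8 := allO_mem h6 hoo
  rw [ho1] at h8
  obtain ⟨τ, hτ, h9⟩ := runC_sound r (fun x : Fin 7 => x) 0 ID [(n, mk (act σ Λ n))] (act σ Λ) h8
    WOk_zero
    (fun e he => by rw [List.mem_singleton] at he; rw [he])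
    (fun e he x y hxy => by
      have : x = y := hxy
      rw [this]) hok
  have h10 : τ = 1 := Equiv.ext hτ
  rw [h10, act_one] at h9
  exact ⟨σ, h7 _ _ h9 _ hx⟩

theorem ringPM_cfg {c : Cfg} {l r : List St} {nodes : List (ℕ × ℕ × List ℕ)} {u0 s n : ℕ}
    {dis : List ℕ} {oss : List (List ℕ × ℕ)}
    (hst : statR (ofCfg c) l (.par s n dis :: r) nodes u0 = true) (hcov : covM s oss = true)
    (h : AllM (ringPM l n r nodes) oss) : c.ListOK :=
  listOK_of (ring_of (fx_lt' c) hst (fun Λ hl hr => ringPM_sound hcov h Λ hl hr))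

theorem ringPM_cfgZ {c : Cfg} {a b : ℕ} {l r : List St} {nodes : List (ℕ × ℕ × List ℕ)}
    {u0 s n : ℕ} {dis : List ℕ} {oss : List (List ℕ × ℕ)}
    (hst : statR (ofCfgZ c a b) l (.par s n dis :: r) nodes u0 = true) (hcov : covM s oss = true)
    (h : AllM (ringPM l n r nodes) oss) : c.ListOK :=
  listOK_of (OK_of_Z (ring_of (fx_ltZ c a b) hst (fun Λ hl hr => ringPM_sound hcov h Λ hl hr)))

theorem ringPM_cfgF {c : Cfg} {fl : ℕ → Bool} {l r : List St} {nodes : List (ℕ × ℕ × List ℕ)}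
    {u0 s n : ℕ} {dis : List ℕ} {oss : List (List ℕ × ℕ)}
    (hst : statR (ofCfgF c fl) l (.par s n dis :: r) nodes u0 = true) (hcov : covM s oss = true)
    (h : AllM (ringPM l n r nodes) oss) : c.ListOKF fl :=
  listOKF_of (ring_of (fx_ltF c fl) hst (fun Λ hl hr => ringPM_sound hcov h Λ hl hr))

theorem ringPM_cfgFZ {c : Cfg} {fl : ℕ → Bool} {a b : ℕ} {l r : List St}
    {nodes : List (ℕ × ℕ × List ℕ)} {u0 s n : ℕ} {dis : List ℕ} {oss : List (List ℕ × ℕ)}
    (hst : statR (extZ (ofCfgF c fl) a b) l (.par s n dis :: r) nodes u0 = true)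
    (hcov : covM s oss = true) (h : AllM (ringPM l n r nodes) oss) : c.ListOKF fl :=
  listOKF_of (OK_of_extF (ring_of (fx_ltFZ c fl a b) hst
    (fun Λ hl hr => ringPM_sound hcov h Λ hl hr)))

end Pool.Agent.Lib.SVX.Chk
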