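import Pool.Agent.Lib.SVX.ChkF
import Pool.Agent.Lib.SVX.ChkG

/-!
# SVW.E24A: a statement on pairs of colours (for the configuration `gE24c`)

`gen`: for pairs `u1`, `b`, `g0`, `h1`, `h2` of colours, sets `N`, `M` of three colours and a set `W` of
four colours there are disjoint pairs `g`, `h`: `g` disjoint from `u1`, not in `N`, `g ≠ g0`, `h`
disjoint from `b`, not in `M`, `h ≠ h1, h2`, `g ∪ h ≠ W`.  We can assume `u1 = {5, 6}`,
`N = {0, 1, 2}`; then `chk` is a check by the kernel: for all `g0`, `W`, `b`, `M` there are three pairs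
`h` which can be reached.
-/

set_option autoImplicit false
set_option maxRecDepth 100000
set_option linter.unusedSectionVars false

namespace Pool.Agent.Lib.SVW.E24

open Finset Pool.Agent.Lib.SVX Pool.Agent.Lib.SVX.Chk

/-- the pairs in `{0, 1, 2, 3, 4}`, not in `{0, 1, 2}` -/
def G7 : List ℕ :=
  [3, 4, 5, 6, 7, 8, 9]

/-- the sets of three colours -/
def T3 : List ℕ :=
  [7, 11, 13, 14, 19, 21, 22, 25, 26, 28, 35, 37, 38, 41, 42, 44, 49, 50, 52, 56, 67, 69, 70,
   73, 74, 76, 81, 82, 84, 88, 97, 98, 100, 104, 112]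

/-- the sets of four colours -/
def W4 : List ℕ :=
  [15, 23, 27, 29, 30, 39, 43, 45, 46, 51, 53, 54, 57, 58, 60, 71, 75, 77, 78, 83, 85, 86, 89,
   90, 92, 99, 101, 102, 105, 106, 108, 113, 114, 116, 120]

/-- the sets of pairs disjoint from `b`, not in `M` -/
def HM : List ℕ :=
  [1994752, 1983232, 1974816, 1970464, 1602304, 1339936, 1208608, 811808, 676640, 406304,
   1927168, 1917568, 1909264, 1902736, 1600128, 1337872, 1140880, 811664, 608912, 338576,
   1893376, 1884736, 1876488, 1868872, 1599040, 1336840, 1107016, 811592, 575048, 304712,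
   1792000, 1786240, 1773828, 1771652, 1595776, 1202436, 1136772, 676228, 608644, 203140,
   1758208, 1753408, 1741058, 1737794, 1594688, 1201410, 1102914, 676162, 574786, 169282,
   1690624, 1687744, 1673345, 1672257, 1592512, 1133697, 1100865, 608449, 574657, 101569,
   1521664, 1515568, 1511460, 1509396, 1325104, 1194020, 1128468, 405556, 337972, 202804,
   1487872, 1482792, 1478690, 1475594, 1324072, 1192994, 1094666, 405546, 304170, 169002,
   1420288, 1417240, 1411089, 1410057, 1322008, 1125393, 1092617, 337945, 304153, 101401,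
   1285120, 1282054, 1280005, 1278979, 1186822, 1121285, 1088515, 202759, 168967, 101383,
   983936, 983600, 983332, 983188, 787376, 656292, 590740, 394036, 328372, 197044, 951104,
   950824, 950562, 950346, 787304, 656226, 557898, 394026, 295530, 164202, 885440, 885272,
   884881, 884809, 787160, 590545, 557769, 328345, 295513, 98521, 754112, 753926, 753797,
   753731, 655814, 590277, 557507, 196999, 164167, 98503, 491576, 491558, 491541, 491531,
   393278, 327741, 294971, 196663, 163887, 98335, 31616, 31280, 31012, 30868, 25520, 21412,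
   19348, 13108, 10932, 6580, 30528, 30248, 29986, 29770, 25448, 21346, 18250, 13098, 9834,
   5482, 28352, 28184, 27793, 27721, 25304, 19153, 18121, 10905, 9817, 3289, 24000, 23814,
   23685, 23619, 20934, 18885, 17859, 6535, 5447, 3271, 15416, 15398, 15381, 15371, 12350,
   10301, 9275, 6199, 5167, 3103, 1016, 998, 981, 971, 830, 701, 635, 439, 367, 223]

noncomputable section

/-- the pairs disjoint from the pair `a`, the union is not `W` -/
@[reducible] def TT (a W : ℕ) : ℕ :=
  bite (Nat.beq (Nat.land (P2.getD a 0) W) (P2.getD a 0))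
    (Nat.land (DJ.getD a 0) (Nat.xor 2097151 (ins (Nat.xor W (P2.getD a 0))))) (DJ.getD a 0)

/-- the union for all pairs of a list but `g0` -/
def RL (g0 W : ℕ) (l : List ℕ) : ℕ :=
  List.rec (motive := fun _ => ℕ) 0 (fun a _ ih => bite (Nat.beq a g0) ih (Nat.lor (TT a W) ih)) l

/-- all elements of a list -/
def allR (f : ℕ → Bool) (l : List ℕ) : Bool :=
  List.rec (motive := fun _ => Bool) true (fun x _ ih => band (f x) ih) l

/-- at least three bits -/
def tst (x : ℕ) : Bool :=
  fN (Nat.land x (Nat.pred x)) (fun y => fN (Nat.land y (Nat.pred y)) (fun z => Nat.ble 1 z))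

/-- the check -/
def chk : Bool :=
  allR (fun g0 => allR (fun w => fN (RL g0 w G7) (fun r =>
    allR (fun x => fN (Nat.land r x) tst) HM)) W4) G7

theorem allR_mem {f : ℕ → Bool} : ∀ {l : List ℕ}, allR f l = true → ∀ x ∈ l, f x = true := by
  intro l
  induction l with
  | nil => intro _ x hx; simp at hx
  | cons a l ih =>
    intro h x hx
    have h1 : band (f a) (allR f l) = true := h
    have h2 : f a = true ∧ allR f l = true := by
      cases h3 : f a with
      | false => rw [h3] at h1; exact absurd h1 (by simp [band])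
      | true => rw [h3] at h1; exact ⟨rfl, h1⟩
    rcases List.mem_cons.1 hx with rfl | hx
    · exact h2.1
    · exact ih h2.2 x hx

theorem chk_ok : chk = true := by decide +kernel

theorem chk_mem {g0 w x : ℕ} (h1 : g0 ∈ G7) (h2 : w ∈ W4) (h3 : x ∈ HM) :
    tst (Nat.land (RL g0 w G7) x) = true := by
  have h4 := allR_mem (allR_mem chk_ok g0 h1) w h2
  rw [fN_eq] at h4
  have h5 := allR_mem h4 x h3
  rw [fN_eq] at h5
  exact h5

theorem tst_two : ∀ i < 21, ∀ j < 21, tst 0 = false ∧ tst (2 ^ i) = false ∧ tst (2 ^ j) = false ∧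
    tst (Nat.lor (2 ^ i) (2 ^ j)) = false := by
  decide +kernel

theorem tst_three {x i j : ℕ} (hi : i < 21) (hj : j < 21) (h : tst x = true) :
    ∃ a, x.testBit a = true ∧ a ≠ i ∧ a ≠ j := by
  by_contra hc
  push Not at hc
  obtain ⟨t1, t2, t3, t4⟩ := tst_two i hi j hj
  have key : ∀ y : ℕ, (∀ a, x.testBit a = y.testBit a) → tst y = false → False := by
    intro y h1 h2
    rw [Nat.eq_of_testBit_eq h1, h2] at h
    exact absurd h (by decide)
  have hb : ∀ a, x.testBit a = true → a = i ∨ a = j := by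
    intro a ha
    by_cases h1 : a = i
    · exact Or.inl h1
    · exact Or.inr (hc a ha h1)
  cases hxi : x.testBit i with
  | false =>
    cases hxj : x.testBit j with
    | false =>
      refine key 0 (fun a => ?_) t1
      rw [Nat.zero_testBit]
      cases hxa : x.testBit a with
      | false => rfl
      | true =>
        rcases hb a hxa with rfl | rfl
        · rw [hxa] at hxi; exact hxi
        · rw [hxa] at hxj; exact hxj
    | true =>
      refine key (2 ^ j) (fun a => ?_) t3
      rw [Nat.testBit_two_pow]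
      by_cases haj : j = a
      · subst haj
        rw [hxj]; simp
      · cases hxa : x.testBit a with
        | false => simp [haj]
        | true =>
          rcases hb a hxa with rfl | rfl
          · rw [hxa] at hxi; exact absurd hxi (by decide)
          · exact absurd rfl haj
  | true =>
    cases hxj : x.testBit j with
    | false =>
      refine key (2 ^ i) (fun a => ?_) t2
      rw [Nat.testBit_two_pow]
      by_cases hai : i = a
      · subst hai
        rw [hxi]; simp
      · cases hxa : x.testBit a with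
        | false => simp [hai]
        | true =>
          rcases hb a hxa with rfl | rfl
          · exact absurd rfl hai
          · rw [hxa] at hxj; exact absurd hxj (by decide)
    | true =>
      refine key (2 ^ i ||| 2 ^ j) (fun a => ?_) t4
      rw [Nat.testBit_lor, Nat.testBit_two_pow, Nat.testBit_two_pow]
      cases hxa : x.testBit a with
      | false =>
        have h1 : i ≠ a := by rintro rfl; rw [hxa] at hxi; exact absurd hxi (by decide)
        have h2 : j ≠ a := by rintro rfl; rw [hxa] at hxj; exact absurd hxj (by decide)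
        simp [h1, h2]
      | true =>
        rcases hb a hxa with rfl | rfl
        · simp
        · simp

theorem hm_mem : ∀ b < 21, ∀ M ∈ T3, Nat.land (P2.getD b 0) M = 0 →
    Nat.land (ins (Nat.xor 127 (P2.getD b 0))) (Nat.xor 2097151 (ins M)) ∈ HM := by
  decide +kernel

theorem tt_tab : ∀ g ∈ G7, ∀ w ∈ W4, ∀ a < 21, (TT g w).testBit a = true →
    Nat.land (P2.getD g 0) (P2.getD a 0) = 0 ∧ Nat.lor (P2.getD g 0) (P2.getD a 0) ≠ w := by
  decide +kernel

theorem rl_tb {g0 w a : ℕ} : ∀ {l : List ℕ}, (RL g0 w l).testBit a = true →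
    ∃ g ∈ l, g ≠ g0 ∧ (TT g w).testBit a = true := by
  intro l
  induction l with
  | nil =>
    intro h
    have h1 : (0 : ℕ).testBit a = true := h
    rw [Nat.zero_testBit] at h1
    exact absurd h1 (by decide)
  | cons x l ih =>
    intro h
    have h1 : (bite (Nat.beq x g0) (RL g0 w l) (Nat.lor (TT x w) (RL g0 w l))).testBit a = true := h
    cases h2 : Nat.beq x g0 with
    | true =>
      rw [h2] at h1
      obtain ⟨g, hg, h3⟩ := ih h1
      exact ⟨g, List.mem_cons_of_mem _ hg, h3⟩
    | false =>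
      rw [h2] at h1
      have h3 : (TT x w ||| RL g0 w l).testBit a = true := h1
      rw [Nat.testBit_lor, Bool.or_eq_true] at h3
      rcases h3 with h3 | h3
      · refine ⟨x, List.mem_cons_self, ?_, h3⟩
        rintro rfl
        rw [Nat.beq_refl] at h2
        exact absurd h2 (by decide)
      · obtain ⟨g, hg, h4⟩ := ih h3
        exact ⟨g, List.mem_cons_of_mem _ hg, h4⟩

theorem g7_lt : ∀ g ∈ G7, g < 21 ∧ Disjoint (pr g) {5, 6} ∧ ¬ pr g ⊆ {0, 1, 2} := by
  decide +kernel

theorem w4_mk : ∀ T : Finset (Fin 7), T.card = 4 → mk T ∈ W4 := by decide +kernel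

theorem t3_mk : ∀ T : Finset (Fin 7), T.card = 3 → mk T ∈ T3 := by decide +kernel

theorem p2_lt : ∀ a < 21, P2.getD a 0 < 128 := by decide +kernel

theorem pr_inj : ∀ a < 21, ∀ b < 21, pr a = pr b → a = b := by
  intro a ha b hb h
  have h1 : P2.getD a 0 = P2.getD b 0 := by
    rw [← mk_om (p2_lt a ha), ← mk_om (p2_lt b hb)]
    exact congrArg mk h
  have h2 : ∀ a < 21, ∀ b < 21, P2.getD a 0 = P2.getD b 0 → a = b := by decide +kernel
  exact h2 a ha b hb h1

/-- the standard position -/
theorem std (g0 W b M h1 h2 : Finset (Fin 7)) (hW : W.card = 4) (hb : b.card = 2)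
    (hM : M.card = 3) (hbM : Disjoint M b) : ∃ g h : Finset (Fin 7), g.card = 2 ∧ h.card = 2 ∧
      Disjoint g {5, 6} ∧ Disjoint g h ∧ Disjoint h b ∧ g ≠ g0 ∧ ¬ g ⊆ {0, 1, 2} ∧ h ≠ h1 ∧
      h ≠ h2 ∧ ¬ h ⊆ M ∧ g ∪ h ≠ W := by
  obtain ⟨ib, hib, rfl⟩ := pr_surj b hb
  have idx : ∀ s : Finset (Fin 7), ∃ i < 21, ∀ a < 21, a ≠ i → pr a ≠ s := by
    intro s
    by_cases hs : s.card = 2
    · obtain ⟨i, hi, rfl⟩ := pr_surj s hs
      exact ⟨i, hi, fun a ha hai h => hai (pr_inj a ha i hi h)⟩
    · exact ⟨0, by omega, fun a ha _ h => hs (h ▸ pr_card a ha)⟩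
  obtain ⟨i1, hi1, h1'⟩ := idx h1
  obtain ⟨i2, hi2, h2'⟩ := idx h2
  have idg : ∃ i ∈ G7, ∀ a ∈ G7, a ≠ i → pr a ≠ g0 := by
    by_cases hs : ∃ i ∈ G7, pr i = g0
    · obtain ⟨i, hi, rfl⟩ := hs
      exact ⟨i, hi, fun a ha hai h => hai (pr_inj a (g7_lt a ha).1 i (g7_lt i hi).1 h)⟩
    · exact ⟨3, by decide, fun a ha _ h => hs ⟨a, ha, h⟩⟩
  obtain ⟨i0, hi0, h0'⟩ := idg
  have hland : Nat.land (P2.getD ib 0) (mk M) = 0 := by
    have h3 : Nat.land (P2.getD ib 0) (mk M) < 128 :=
      lt_of_le_of_lt Nat.and_le_left (p2_lt ib hib)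
    have h4 : om (Nat.land (P2.getD ib 0) (mk M)) = ∅ := by
      rw [om_and, om_mk]
      exact disjoint_iff_inter_eq_empty.1 hbM.symm
    rw [← mk_om h3, h4]
    decide
  have h3 := chk_mem hi0 (w4_mk W hW) (hm_mem ib hib (mk M) (t3_mk M hM) hland)
  obtain ⟨a, ha, ha1, ha2⟩ := tst_three hi1 hi2 h3
  have h4 : (RL i0 (mk W) G7 &&& (ins (Nat.xor 127 (P2.getD ib 0)) &&&
      (2097151 ^^^ ins (mk M)))).testBit a = true := ha
  rw [Nat.testBit_land, Nat.testBit_land, Nat.testBit_xor, Bool.and_eq_true,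
    Bool.and_eq_true] at h4
  obtain ⟨h5, h6, h7⟩ := h4
  have ha21 : a < 21 := by
    by_contra hc
    have h8 : ins (Nat.xor 127 (P2.getD ib 0)) < 2 ^ 21 := by
      show Nat.land _ 2097151 < 2 ^ 21
      exact lt_of_le_of_lt Nat.and_le_right (by norm_num)
    rw [Nat.testBit_lt_two_pow (lt_of_lt_of_le h8 (Nat.pow_le_pow_right (by norm_num)
      (not_lt.1 hc)))] at h6
    exact absurd h6 (by decide)
  obtain ⟨g, hg, hg0, hgT⟩ := rl_tb h5
  obtain ⟨h8, h9⟩ := tt_tab g hg (mk W) (w4_mk W hW) a ha21 hgT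
  obtain ⟨g1, g2, g3⟩ := g7_lt g hg
  have hx : Nat.xor 127 (P2.getD ib 0) < 128 := by
    have : ∀ i < 21, Nat.xor 127 (P2.getD i 0) < 128 := by decide +kernel
    exact this ib hib
  refine ⟨pr g, pr a, pr_card g g1, pr_card a ha21, g2, disj_of_land h8, ?_, h0' g hg hg0, g3,
    h1' a ha21 ha1, h2' a ha21 ha2, ?_, ?_⟩
  · have h10 := ins_sub hx ha21 h6
    rw [om_xor] at h10
    exact disjoint_left.2 fun x hx1 hx2 => mem_compl.1 (h10 hx1) hx2
  · intro hs
    have h10 : Nat.land (P2.getD a 0) (mk M) = P2.getD a 0 := by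
      have h11 := land_of_sub hs
      unfold pr at h11
      rw [mk_om (p2_lt a ha21)] at h11
      exact h11
    rw [ins_conv (mk M) (mk_lt M) a ha21 h10] at h7
    have h11 : (2097151 : ℕ).testBit a = true := by
      have : ∀ i < 21, (2097151 : ℕ).testBit i = true := by decide +kernel
      exact this a ha21
    rw [h11] at h7
    exact absurd h7 (by decide)
  · intro hu
    apply h9
    have h10 : om (Nat.lor (P2.getD g 0) (P2.getD a 0)) = W := by
      rw [om_or]
      exact hu
    have h11 : Nat.lor (P2.getD g 0) (P2.getD a 0) < 128 := by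
      have : ∀ i < 21, ∀ j < 21, Nat.lor (P2.getD i 0) (P2.getD j 0) < 128 := by decide +kernel
      exact this g g1 a ha21
    rw [← h10, mk_om h11]

/-- three colours outside a pair, containing the colours of `N` outside it -/
theorem ext3 {u N : Finset (Fin 7)} (hu : u.card = 2) (hN : N.card = 3) :
    ∃ N', N \ u ⊆ N' ∧ Disjoint N' u ∧ N'.card = 3 := by
  have h1 : N \ u ⊆ uᶜ := fun x hx => mem_compl.2 (mem_sdiff.1 hx).2
  have h2 : (N \ u).card ≤ 3 := (card_le_card sdiff_subset).trans hN.le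
  have h3 : 3 ≤ (uᶜ : Finset (Fin 7)).card := by
    rw [card_compl, hu, Fintype.card_fin]
    omega
  obtain ⟨N', h4, h5, h6⟩ := exists_subsuperset_card_eq h1 h2 h3
  exact ⟨N', h4, disjoint_left.2 fun x hx hxu => mem_compl.1 (h5 hx) hxu, h6⟩

/-- the general position -/
theorem gen (u N g0 W b M h1 h2 : Finset (Fin 7)) (hu : u.card = 2) (hN : N.card = 3)
    (hW : W.card = 4) (hb : b.card = 2) (hM : M.card = 3) : ∃ g h : Finset (Fin 7),
      g.card = 2 ∧ h.card = 2 ∧ Disjoint g u ∧ Disjoint g h ∧ Disjoint h b ∧ g ≠ g0 ∧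
      ¬ g ⊆ N ∧ h ≠ h1 ∧ h ≠ h2 ∧ ¬ h ⊆ M ∧ g ∪ h ≠ W := by
  obtain ⟨N', n1, n2, n3⟩ := ext3 hu hN
  obtain ⟨M', m1, m2, m3⟩ := ext3 hb hM
  obtain ⟨p5, p6, h56, hu'⟩ := card_eq_two.1 hu
  obtain ⟨p0, p1, p2, h01, h02, h12, hN'⟩ := card_eq_three.1 n3
  have hr : ((u ∪ N')ᶜ : Finset (Fin 7)).card = 2 := by
    rw [card_compl, card_union_of_disjoint n2.symm, hu, n3, Fintype.card_fin]
  obtain ⟨p3, p4, h34, hr'⟩ := card_eq_two.1 hr
  have q3 : p3 ∉ u ∪ N' := mem_compl.1 (by rw [hr']; simp)
  have q4 : p4 ∉ u ∪ N' := mem_compl.1 (by rw [hr']; simp)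
  have q5 : p5 ∉ N' := fun h => disjoint_left.1 n2 h (by rw [hu']; simp)
  have q6 : p6 ∉ N' := fun h => disjoint_left.1 n2 h (by rw [hu']; simp)
  rw [mem_union, not_or, hu', hN'] at q3 q4
  rw [hN'] at q5 q6
  simp only [mem_insert, mem_singleton, not_or] at q3 q4 q5 q6
  obtain ⟨⟨q35, q36⟩, q30, q31, q32⟩ := q3
  obtain ⟨⟨q45, q46⟩, q40, q41, q42⟩ := q4
  obtain ⟨q50, q51, q52⟩ := q5
  obtain ⟨q60, q61, q62⟩ := q6
  have hinj : Function.Injective (![p0, p1, p2, p3, p4, p5, p6] : Fin 7 → Fin 7) := by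
    intro i j hij
    fin_cases i <;> fin_cases j <;> first
      | rfl
      | (exfalso; simp at hij; first
          | exact h01 hij | exact h01 hij.symm | exact h02 hij | exact h02 hij.symm
          | exact h12 hij | exact h12 hij.symm | exact h34 hij | exact h34 hij.symm
          | exact h56 hij | exact h56 hij.symm
          | exact q35 hij | exact q35 hij.symm | exact q36 hij | exact q36 hij.symm
          | exact q30 hij | exact q30 hij.symm | exact q31 hij | exact q31 hij.symm
          | exact q32 hij | exact q32 hij.symm | exact q45 hij | exact q45 hij.symm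
          | exact q46 hij | exact q46 hij.symm | exact q40 hij | exact q40 hij.symm
          | exact q41 hij | exact q41 hij.symm | exact q42 hij | exact q42 hij.symm
          | exact q50 hij | exact q50 hij.symm | exact q51 hij | exact q51 hij.symm
          | exact q52 hij | exact q52 hij.symm | exact q60 hij | exact q60 hij.symm
          | exact q61 hij | exact q61 hij.symm | exact q62 hij | exact q62 hij.symm)
  set e : Fin 7 ≃ Fin 7 := Equiv.ofBijective _ (Finite.injective_iff_bijective.1 hinj) with he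
  have e0 : e 0 = p0 := rfl
  have e1 : e 1 = p1 := rfl
  have e2 : e 2 = p2 := rfl
  have e5 : e 5 = p5 := rfl
  have e6 : e 6 = p6 := rfl
  have hpre : ∀ s : Finset (Fin 7), ∃ t : Finset (Fin 7), t.map e.toEmbedding = s := by
    intro s
    refine ⟨s.map e.symm.toEmbedding, ?_⟩
    rw [map_map]
    convert map_refl (s := s)
    ext x
    simp
  have eu : ({5, 6} : Finset (Fin 7)).map e.toEmbedding = u := by
    rw [hu', map_insert, map_singleton]
    rfl
  have eN : ({0, 1, 2} : Finset (Fin 7)).map e.toEmbedding = N' := by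
    rw [hN', map_insert, map_insert, map_singleton]
    rfl
  clear_value e
  obtain ⟨tg0, rfl⟩ := hpre g0
  obtain ⟨tW, rfl⟩ := hpre W
  obtain ⟨tb, rfl⟩ := hpre b
  obtain ⟨tM, rfl⟩ := hpre M'
  obtain ⟨th1, rfl⟩ := hpre h1
  obtain ⟨th2, rfl⟩ := hpre h2
  rw [card_map] at hW hb m3
  rw [disjoint_map] at m2
  obtain ⟨g, h, c1, c2, c3, c4, c5, c6, c7, c8, c9, c10, c11⟩ := std tg0 tW tb tM th1 th2 hW hb m3 m2
  refine ⟨g.map e.toEmbedding, h.map e.toEmbedding, ?_, ?_, ?_, ?_, ?_, ?_, ?_, ?_, ?_, ?_, ?_⟩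
  · rw [card_map]; exact c1
  · rw [card_map]; exact c2
  · rw [← eu, disjoint_map]; exact c3
  · rw [disjoint_map]; exact c4
  · rw [disjoint_map]; exact c5
  · intro h'; exact c6 (map_injective _ h')
  · intro h'
    apply c7
    rw [← map_subset_map (f := e.toEmbedding), eN]
    intro x hx
    refine n1 (mem_sdiff.2 ⟨h' hx, fun hxu => ?_⟩)
    rw [← eu] at hxu
    exact disjoint_left.1 ((disjoint_map _).2 c3) hx hxu
  · intro h'; exact c8 (map_injective _ h')
  · intro h'; exact c9 (map_injective _ h')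
  · intro h'
    apply c10
    rw [← map_subset_map (f := e.toEmbedding)]
    intro x hx
    refine m1 (mem_sdiff.2 ⟨h' hx, fun hxu => ?_⟩)
    exact disjoint_left.1 ((disjoint_map _).2 c5) hx hxu
  · intro h'
    apply c11
    apply map_injective e.toEmbedding
    rw [map_union]
    exact h'

end

end Pool.Agent.Lib.SVW.E24
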