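import Pool.Agent.Lib.SVW.LocW
import Pool.Agent.Lib.SVW.E24A

/-!
# SVW.E24B: the configuration `gE24c`
-/

set_option autoImplicit false
set_option maxRecDepth 100000
set_option linter.unusedSectionVars false

namespace Pool.Agent.Lib.SVW.E24

open Finset

theorem pk {c P : Finset (Fin 7)} (hc : c.card = 2) (hP : P.card = 3) (h : ¬ c ⊆ P) :
    ∃ p : Finset (Fin 7), p.card = 2 ∧ p ⊆ P ∧ Disjoint c p := by
  have h1 : (c ∩ P).card < c.card := card_lt_card ⟨inter_subset_left,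
    fun h2 => h (fun x hx => (mem_inter.1 (h2 hx)).2)⟩
  have h2 : 2 ≤ (P \ c).card := by
    have h3 := card_sdiff_add_card_inter P c
    rw [inter_comm] at h3
    omega
  obtain ⟨p, hp, hpc⟩ := exists_subset_card_eq h2
  exact ⟨p, hpc, hp.trans sdiff_subset, disjoint_left.2 fun x hx hxp => (mem_sdiff.1 (hp hxp)).2 hx⟩

theorem out1 {X Z : Finset (Fin 7)} (hX : X.card = 3) (hZ : Z.card = 3) (hne : X ≠ Z) :
    ∃ x ∈ X, x ∉ Z := by
  by_contra h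
  push Not at h
  exact hne (eq_of_subset_of_card_le h (by omega))

theorem pk2 {X P Q : Finset (Fin 7)} (hX : X.card = 3) (hP : P.card = 3) (hQ : Q.card = 3)
    (hXP : X ≠ P) (hXQ : X ≠ Q) :
    ∃ c : Finset (Fin 7), c.card = 2 ∧ c ⊆ X ∧ ¬ c ⊆ P ∧ ¬ c ⊆ Q := by
  obtain ⟨x, hx, hxP⟩ := out1 hX hP hXP
  obtain ⟨y, hy, hyQ⟩ := out1 hX hQ hXQ
  by_cases hxy : x = y
  · subst hxy
    obtain ⟨z, hz, hzx⟩ := exists_mem_ne (by omega : 1 < X.card) x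
    exact ⟨{x, z}, card_pair hzx.symm, insert_subset hx (singleton_subset_iff.2 hz),
      fun h => hxP (h (by simp)), fun h => hyQ (h (by simp))⟩
  · exact ⟨{x, y}, card_pair hxy, insert_subset hx (singleton_subset_iff.2 hy),
      fun h => hxP (h (by simp)), fun h => hyQ (h (by simp))⟩

theorem comp3 {g u : Finset (Fin 7)} (hg : g.card = 2) (hu : u.card = 2) (hd : Disjoint g u) :
    ((g ∪ u)ᶜ : Finset (Fin 7)).card = 3 := by
  rw [card_compl, card_union_of_disjoint hd, hg, hu, Fintype.card_fin]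

theorem compne {g u Z : Finset (Fin 7)} (hd : Disjoint g u) (h : g ≠ (u ∪ Z)ᶜ) :
    (g ∪ u)ᶜ ≠ Z := by
  rintro rfl
  apply h
  ext x
  rw [mem_compl, mem_union, mem_compl, mem_union]
  constructor
  · intro hx
    push Not
    exact ⟨disjoint_left.1 hd hx, Or.inl hx⟩
  · intro hx
    push Not at hx
    exact hx.2.resolve_right hx.1

theorem dis_compl {g u v : Finset (Fin 7)} (h : v ⊆ (g ∪ u)ᶜ) : Disjoint v g ∧ Disjoint v u :=
  ⟨disjoint_left.2 fun _ hx hg => mem_compl.1 (h hx) (mem_union_left _ hg),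
    disjoint_left.2 fun _ hx hu => mem_compl.1 (h hx) (mem_union_right _ hu)⟩

end Pool.Agent.Lib.SVW.E24

namespace Pool.Agent.Lib.SVW.LC

open Finset Pool.Agent.Lib.SVT Pool.Agent.Lib.SVX Pool.Agent.Lib.SVY

/-- P3 (v;g,h), g in a second P3, h in a triangle with a centre c, third vertices arbitrary; names: 0=v 1=g 2=h 3=v1 4=c 5=z 6=n 7=m 8=z1 9=p 10=q 11=u1 12=b -/
def gE24c : Cfg where
  nc := 5
  nt := 8
  E := [(0, 1), (0, 2), (1, 2), (1, 3), (3, 11), (1, 11), (2, 4), (4, 12), (2, 12), (0, 5), (1, 6), (2, 7), (3, 8), (4, 9), (4, 10)]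
  Bs := []
  outs := fun i => if i == 5 || i == 6 || i == 7 || i == 8 || i == 9 || i == 10 then 2 else 0
  sm := fun i => i == 5 || i == 6 || i == 7 || i == 8 || i == 9 || i == 10
  keep := []
  pi := fun i => i
  NE := []
  al := []

def gE24cP (i : ℕ) : ℕ := i

theorem gE24c_adm : gE24c.adm gE24cP = true := by decide

theorem gE24c_lchk : Loc.lchk gE24c [(0, 5), (1, 6), (2, 7), (3, 8), (4, 9), (4, 10)] [(0, 3), (1, 4), (1, 12), (2, 3), (9, 10)] [(8, 9), (8, 10)] 3 = true := by decide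

theorem gE24c_echk : Loc.echk gE24c [(0, 5), (1, 6), (2, 7), (3, 8), (4, 9), (4, 10)] [(0, 3), (1, 4), (1, 12), (2, 3), (9, 10)] [(8, 9), (8, 10)] [] 3 = true := by decide


theorem gE24c_ok : gE24c.ListOK := by
  intro ψ L h1 _ h3 h4
  have hs : ∀ t, t ∈ [5, 6, 7, 8, 9, 10] → ∃ X ⊆ L t, X.card = 3 := by
    intro t ht
    have h5 : ∀ t ∈ [5, 6, 7, 8, 9, 10], gE24c.isT t = true ∧ gE24c.sm t = true ∧
        gE24c.outs t = 2 := by decide
    obtain ⟨a1, a2, a3⟩ := h5 t ht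
    have h6 := (h3 t a1 a2).2
    rw [a3] at h6
    exact exists_subset_card_eq (by omega)
  have hr : ∀ r, r < gE24c.nc → ∀ X, X ⊆ L r := by
    intro r hr X
    have h5 : ∀ r < 5, gE24c.outs r = 0 := by decide
    have h6 := h4 r hr
    rw [h5 r hr] at h6
    have h7 : L r = univ := by
      rw [← card_eq_iff_eq_univ, Fintype.card_fin]
      have := card_le_univ (L r)
      rw [Fintype.card_fin] at this
      omega
    rw [h7]
    exact subset_univ _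
  obtain ⟨Z, hZ, cZ⟩ := hs 5 (by simp)
  obtain ⟨N, hN, cN⟩ := hs 6 (by simp)
  obtain ⟨M, hM, cM⟩ := hs 7 (by simp)
  obtain ⟨Z1, hZ1, cZ1⟩ := hs 8 (by simp)
  obtain ⟨P, hP, cP⟩ := hs 9 (by simp)
  obtain ⟨Q, hQ, cQ⟩ := hs 10 (by simp)
  have cu : (ψ 11).card = 2 := h1 11 (by decide)
  have cb : (ψ 12).card = 2 := h1 12 (by decide)
  have cW : (Zᶜ : Finset (Fin 7)).card = 4 := by
    rw [card_compl, cZ, Fintype.card_fin]
  obtain ⟨g, h, cg, ch, d1, d2, d3, n1, n2, n3, n4, n5, n6⟩ :=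
    E24.gen (ψ 11) N (ψ 11 ∪ Z1)ᶜ Zᶜ (ψ 12) M (ψ 12 ∪ P)ᶜ (ψ 12 ∪ Q)ᶜ cu cN cW cb cM
  obtain ⟨n, cn, sn, dn⟩ := E24.pk cg cN n2
  obtain ⟨m, cm, sm, dm⟩ := E24.pk ch cM n5
  have w0 : (g ∪ h)ᶜ ≠ Z := by
    intro h5
    rw [← h5, compl_compl] at n6
    exact n6 rfl
  obtain ⟨v, cv, sv, v1, -⟩ := E24.pk2 (E24.comp3 cg ch d2) cZ cZ w0 w0
  obtain ⟨z, cz, sz, dz⟩ := E24.pk cv cZ v1
  have w1 := E24.compne d1 n1
  obtain ⟨v', cv', sv', v1', -⟩ := E24.pk2 (E24.comp3 cg cu d1) cZ1 cZ1 w1 w1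
  obtain ⟨z1, cz1, sz1, dz1⟩ := E24.pk cv' cZ1 v1'
  obtain ⟨c, cc, sc, c1, c2⟩ := E24.pk2 (E24.comp3 ch cb d3) cP cQ (E24.compne d3 n3)
    (E24.compne d3 n4)
  obtain ⟨p, cp, sp, dp⟩ := E24.pk cc cP c1
  obtain ⟨q, cq, sq, dq⟩ := E24.pk cc cQ c2
  obtain ⟨x1, x2⟩ := E24.dis_compl sv
  obtain ⟨x3, x4⟩ := E24.dis_compl sv'
  obtain ⟨x5, x6⟩ := E24.dis_compl sc
  refine ⟨fun i => [v, g, h, v', c, z, n, m, z1, p, q, ψ 11, ψ 12].getD i ∅, ?_, ?_, ?_, ?_, ?_⟩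
  · intro i hi
    have hi' : i < 13 := hi
    interval_cases i
    exacts [cv, cg, ch, cv', cc, cz, cn, cm, cz1, cp, cq, cu, cb]
  · intro t ht hts
    have h5 : t < 13 := by
      unfold Cfg.isT at ht
      rw [Bool.and_eq_true, decide_eq_true_eq, decide_eq_true_eq] at ht
      exact ht.2
    have h6 : ∀ t < 13, gE24c.isT t = true → gE24c.sm t = false → t = 11 ∨ t = 12 := by decide
    rcases h6 t h5 ht hts with rfl | rfl
    · rfl
    · rfl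
  · intro t ht hts
    have h5 : t < 13 := by
      unfold Cfg.isT at ht
      rw [Bool.and_eq_true, decide_eq_true_eq, decide_eq_true_eq] at ht
      exact ht.2
    have h6 : ∀ t < 13, gE24c.isT t = true → gE24c.sm t = true → t = 5 ∨ t = 6 ∨ t = 7 ∨ t = 8 ∨
        t = 9 ∨ t = 10 := by decide
    rcases h6 t h5 ht hts with rfl | rfl | rfl | rfl | rfl | rfl
    exacts [sz.trans hZ, sn.trans hN, sm.trans hM, sz1.trans hZ1, sp.trans hP, sq.trans hQ]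
  · intro r hr'
    exact hr r hr' _
  · have key : ∀ e ∈ gE24c.E, Disjoint ([v, g, h, v', c, z, n, m, z1, p, q, ψ 11, ψ 12].getD e.1 ∅)
        ([v, g, h, v', c, z, n, m, z1, p, q, ψ 11, ψ 12].getD e.2 ∅) := by
      show ∀ e ∈ [(0, 1), (0, 2), (1, 2), (1, 3), (3, 11), (1, 11), (2, 4), (4, 12), (2, 12), (0, 5), (1, 6), (2, 7), (3, 8), (4, 9), (4, 10)], _
      simp only [List.forall_mem_cons]
      exact ⟨x1, x2, d2, x3.symm, x4, d1, x5.symm, x6, d3, dz, dn, dm, dz1, dp, dq, by simp⟩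
    intro i j _ _ hij
    unfold Cfg.adjE at hij
    simp only [Bool.or_eq_true, List.contains_iff_mem] at hij
    rcases hij with ((h5 | h5) | h5) | h5
    · exact key _ h5
    · exact (key _ h5).symm
    · exact absurd h5 (List.not_mem_nil)
    · exact absurd h5 (List.not_mem_nil)

variable {V : Type*} [Fintype V] [DecidableEq V] {G : SimpleGraph V} {B : Finset V}
variable {m : ℕ} {F : Fin m → Finset (Sym2 V)}

/-- P3 (v;g,h), g in a second P3, h in a triangle with a centre c, third vertices arbitrary -/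
theorem gE24c_false (h : MinCE G B) (hF : Faces G F) {v g g2 v1 c z n n2 z1 p q u1 b : V}
    (he1 : G.Adj v g) (he2 : G.Adj v g2) (he3 : G.Adj g g2) (he4 : G.Adj v1 g) (he5 : G.Adj v1 u1)
    (he6 : G.Adj g u1) (he7 : G.Adj c g2) (he8 : G.Adj c b) (he9 : G.Adj g2 b) (hw1 : WE G v z)
    (hw2 : WE G g n) (hw3 : WE G g2 n2) (hw4 : WE G v1 z1) (hw5 : WE G c p) (hw6 : WE G c q)
    (hd1 : v ≠ v1) (hd2 : g ≠ c) (hd3 : g ≠ b) (hd4 : g2 ≠ v1) (hd5 : p ≠ q) (hx1 : ¬ G.Adj z1 p)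
    (hx2 : ¬ G.Adj z1 q) (hb1 : v ∉ B) (hb2 : g ∉ B) (hb3 : g2 ∉ B) (hb4 : v1 ∉ B) (hb5 : c ∉ B)
    (hb6 : z ∉ B) (hb7 : n ∉ B) (hb8 : n2 ∉ B) (hb9 : z1 ∉ B) (hb10 : p ∉ B) (hb11 : q ∉ B)
    (hg1 : dg G v ≤ 3) (hg2 : dg G g ≤ 5) (hg3 : dg G g2 ≤ 5) (hg4 : dg G v1 ≤ 3)
    (hg5 : dg G c ≤ 4) (hg6 : dg G z ≤ 3) (hg7 : dg G n ≤ 3) (hg8 : dg G n2 ≤ 3)
    (hg9 : dg G z1 ≤ 3) (hg10 : dg G p ≤ 3) (hg11 : dg G q ≤ 3) : False := by
  refine SVW.Loc.cfalseW (nm := fun i => [v, g, g2, v1, c, z, n, n2, z1, p, q, u1, b].getD i v) gE24c_adm gE24c_lchk gE24c_echk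
    gE24c_ok h hF ?_ ?_ ?_ ?_ ?_ ?_
  · show ∀ e ∈ [(0, 1), (0, 2), (1, 2), (1, 3), (3, 11), (1, 11), (2, 4), (4, 12), (2, 12), (0, 5), (1, 6), (2, 7), (3, 8), (4, 9), (4, 10)], G.Adj _ _
    simp only [List.forall_mem_cons]
    exact ⟨he1, he2, he3, he4.symm, he5, he6, he7.symm, he8, he9, hw1.1, hw2.1, hw3.1, hw4.1, hw5.1, hw6.1, by simp⟩
  · simp only [List.forall_mem_cons]
    exact ⟨hw1, hw2, hw3, hw4, hw5, hw6, by simp⟩
  · simp only [List.forall_mem_cons]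
    exact ⟨hd1, hd2, hd3, hd4, hd5, by simp⟩
  · simp only [List.forall_mem_cons]
    exact ⟨hx1, hx2, by simp⟩
  · simp
  · have hl : Loc.hlist gE24c = [0, 1, 2, 3, 4, 5, 6, 7, 8, 9, 10] := by decide
    rw [hl]
    simp only [List.forall_mem_cons]
    exact ⟨⟨hb1, hg1⟩, ⟨hb2, hg2⟩, ⟨hb3, hg3⟩, ⟨hb4, hg4⟩, ⟨hb5, hg5⟩, ⟨hb6, hg6⟩, ⟨hb7, hg7⟩, ⟨hb8, hg8⟩, ⟨hb9, hg9⟩, ⟨hb10, hg10⟩, ⟨hb11, hg11⟩, by simp⟩

end Pool.Agent.Lib.SVW.LC
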