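import Pool.Agent.Lib.SVW.LocW

/-!
# SVW.ExData: local configurations

Generated (helper75).
-/

set_option autoImplicit false
set_option linter.unusedSectionVars false
set_option maxRecDepth 100000

namespace Pool.Agent.Lib.SVW.LC

open Pool.Agent.Lib.SVX Pool.Agent.Lib.SVY

/-- F=(2,0) with a 3-vertex in both triangles, one of them has a 3-neighbour; names: 0=v1 1=z1 2=f 3=v2 4=x 5=y -/
def rg3 : Cfg where
  nc := 1
  nt := 5
  E := [(0, 2), (0, 4), (0, 1)]
  Bs := [(2, 4), (2, 5), (2, 3), (3, 5)]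
  outs := fun i => if i == 3 then 1 else if i == 1 then 2 else 0
  sm := fun i => i == 1 || i == 2 || i == 3
  keep := []
  pi := fun i => i
  NE := []
  al := []

def rg3P (i : ℕ) : ℕ := i

theorem rg3_adm : rg3.adm rg3P = true := by decide

theorem rg3_lchk : Loc.lchk rg3 [(0, 1)] [(0, 5), (4, 5)] [] 2 = true := by decide

theorem rg3_echk : Loc.echk rg3 [(0, 1)] [(0, 5), (4, 5)] [] [] 2 = true := by decide

/-- F=(2,0) with a 3-vertex in both triangles, one of them is adjacent to a 4-vertex with a 3-neighbour; names: 0=v1 1=z1 2=u1 3=f 4=v2 5=x 6=y -/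
def rg4 : Cfg where
  nc := 1
  nt := 6
  E := [(0, 3), (0, 5), (0, 1)]
  Bs := [(3, 5), (3, 6), (3, 4), (4, 6), (1, 2)]
  outs := fun i => if i == 4 then 1 else if i == 1 || i == 2 then 2 else 0
  sm := fun i => i == 1 || i == 2 || i == 3 || i == 4
  keep := []
  pi := fun i => i
  NE := []
  al := []

def rg4P (i : ℕ) : ℕ := i

theorem rg4_adm : rg4.adm rg4P = true := by decide

theorem rg4_lchk : Loc.lchk rg4 [(0, 1), (1, 2)] [(0, 2), (0, 6), (5, 6)] [] 2 = true := by decide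

theorem rg4_echk : Loc.echk rg4 [(0, 1), (1, 2)] [(0, 2), (0, 6), (5, 6)] [] [] 2 = true := by decide

/-- 5-vertex g with a 3-vertex in both triangles, y1 small, v2 has a 3-neighbour; names: 0=v2 1=v1 2=g 3=z2 4=y1 5=y2 -/
def gE20 : Cfg where
  nc := 1
  nt := 5
  E := [(0, 2), (0, 5), (0, 3)]
  Bs := [(1, 2), (1, 4), (2, 4), (2, 5)]
  outs := fun i => if i == 1 || i == 2 then 1 else if i == 3 || i == 4 then 2 else 0
  sm := fun i => i == 1 || i == 2 || i == 3 || i == 4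
  keep := []
  pi := fun i => i
  NE := []
  al := []

def gE20P (i : ℕ) : ℕ := i

theorem gE20_adm : gE20.adm gE20P = true := by decide

theorem gE20_lchk : Loc.lchk gE20 [(0, 3)] [(1, 5), (4, 5)] [] 2 = true := by decide

theorem gE20_echk : Loc.echk gE20 [(0, 3)] [(1, 5), (4, 5)] [] [] 2 = true := by decide

/-- F=(2,0), triangle v f x, x small, the other triangle of f contains a 4-vertex with two 3-neighbours; names: 0=c 1=v 2=f 3=x 4=m1 5=m2 6=y -/
def gQ16 : Cfg where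
  nc := 1
  nt := 6
  E := [(0, 2), (0, 6), (0, 4), (0, 5)]
  Bs := [(1, 2), (1, 3), (2, 3), (2, 6)]
  outs := fun i => if i == 1 then 1 else if i == 3 || i == 4 || i == 5 then 2 else 0
  sm := fun i => i == 1 || i == 2 || i == 3 || i == 4 || i == 5
  keep := []
  pi := fun i => i
  NE := []
  al := []

def gQ16P (i : ℕ) : ℕ := i

theorem gQ16_adm : gQ16.adm gQ16P = true := by decide

theorem gQ16_lchk : Loc.lchk gQ16 [(0, 4), (0, 5)] [(1, 6), (3, 6), (4, 5)] [] 2 = true := by decide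

theorem gQ16_echk : Loc.echk gQ16 [(0, 4), (0, 5)] [(1, 6), (3, 6), (4, 5)] [] [] 2 = true := by decide

/-- adjacent centres; names: 0=c1 1=a1 2=b1 3=c2 4=a2 5=b2 6=y -/
def gCC : Cfg where
  nc := 1
  nt := 6
  E := [(0, 3), (0, 6), (0, 1), (0, 2)]
  Bs := [(3, 6), (3, 4), (3, 5)]
  outs := fun i => if i == 1 || i == 2 || i == 4 || i == 5 then 2 else 0
  sm := fun i => i == 1 || i == 2 || i == 3 || i == 4 || i == 5
  keep := []
  pi := fun i => i
  NE := []
  al := []

def gCCP (i : ℕ) : ℕ := i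

theorem gCC_adm : gCC.adm gCCP = true := by decide

theorem gCC_lchk : Loc.lchk gCC [(0, 1), (0, 2), (3, 4), (3, 5)] [(1, 2), (4, 5)] [] 1 = true := by decide

theorem gCC_echk : Loc.echk gCC [(0, 1), (0, 2), (3, 4), (3, 5)] [(1, 2), (4, 5)] [] [] 1 = true := by decide

/-- P3 member K; names: 0=v 1=z 2=K 3=n1 4=n2 5=n3 6=y -/
def gPK : Cfg where
  nc := 1
  nt := 6
  E := [(0, 2), (0, 6), (0, 1)]
  Bs := [(2, 6), (2, 3), (2, 4), (2, 5)]
  outs := fun i => if i == 1 || i == 3 || i == 4 || i == 5 then 2 else 0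
  sm := fun i => i == 1 || i == 2 || i == 3 || i == 4 || i == 5
  keep := []
  pi := fun i => i
  NE := []
  al := []

def gPKP (i : ℕ) : ℕ := i

theorem gPK_adm : gPK.adm gPKP = true := by decide

theorem gPK_lchk : Loc.lchk gPK [(0, 1), (2, 3), (2, 4), (2, 5)] [(3, 4), (3, 5), (4, 5)] [] 1 = true := by decide

theorem gPK_echk : Loc.echk gPK [(0, 1), (2, 3), (2, 4), (2, 5)] [(3, 4), (3, 5), (4, 5)] [] [] 1 = true := by decide

/-- P1 member K; names: 0=K 1=v 2=z 3=u 4=n1 5=n2 6=n3 7=y -/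
def gQK : Cfg where
  nc := 1
  nt := 7
  E := [(0, 1), (0, 7), (0, 4), (0, 5), (0, 6)]
  Bs := [(1, 7), (1, 2), (2, 3)]
  outs := fun i => if i == 2 || i == 3 || i == 4 || i == 5 || i == 6 then 2 else 0
  sm := fun i => i == 1 || i == 2 || i == 3 || i == 4 || i == 5 || i == 6
  keep := []
  pi := fun i => i
  NE := []
  al := []

def gQKP (i : ℕ) : ℕ := i

theorem gQK_adm : gQK.adm gQKP = true := by decide

theorem gQK_lchk : Loc.lchk gQK [(1, 2), (2, 3), (0, 4), (0, 5), (0, 6)] [(1, 3), (4, 5), (4, 6), (5, 6)] [] 2 = true := by decide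

theorem gQK_echk : Loc.echk gQK [(1, 2), (2, 3), (0, 4), (0, 5), (0, 6)] [(1, 3), (4, 5), (4, 6), (5, 6)] [] [] 2 = true := by decide

/-- P1 centre c and K in a triangle with small b; names: 0=c 1=p 2=q 3=K 4=n1 5=n2 6=n3 7=b -/
def gAK : Cfg where
  nc := 1
  nt := 7
  E := [(0, 3), (0, 7), (0, 1), (0, 2)]
  Bs := [(3, 7), (3, 4), (3, 5), (3, 6)]
  outs := fun i => if i == 1 || i == 2 || i == 4 || i == 5 || i == 6 || i == 7 then 2 else 0
  sm := fun i => i == 1 || i == 2 || i == 3 || i == 4 || i == 5 || i == 6 || i == 7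
  keep := []
  pi := fun i => i
  NE := []
  al := []

def gAKP (i : ℕ) : ℕ := i

theorem gAK_adm : gAK.adm gAKP = true := by decide

theorem gAK_lchk : Loc.lchk gAK [(0, 1), (0, 2), (3, 4), (3, 5), (3, 6)] [(1, 2), (4, 5), (4, 6), (5, 6)] [] 1 = true := by decide

theorem gAK_echk : Loc.echk gAK [(0, 1), (0, 2), (3, 4), (3, 5), (3, 6)] [(1, 2), (4, 5), (4, 6), (5, 6)] [] [] 1 = true := by decide

/-- P3 member (1,2); names: 0=v 1=z 2=N 3=m 4=x -/
def gPN : Cfg where
  nc := 1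
  nt := 4
  E := [(0, 2), (0, 4), (0, 1)]
  Bs := [(2, 4), (2, 3)]
  outs := fun i => if i == 2 then 1 else if i == 1 || i == 3 then 2 else 0
  sm := fun i => i == 1 || i == 2 || i == 3
  keep := []
  pi := fun i => i
  NE := []
  al := []

def gPNP (i : ℕ) : ℕ := i

theorem gPN_adm : gPN.adm gPNP = true := by decide

theorem gPN_lchk : Loc.lchk gPN [(0, 1), (2, 3)] [] [] 1 = true := by decide

theorem gPN_echk : Loc.echk gPN [(0, 1), (2, 3)] [] [] [] 1 = true := by decide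

/-- P1 member (1,2); names: 0=v 1=z 2=u 3=N 4=m 5=x -/
def gQN : Cfg where
  nc := 1
  nt := 5
  E := [(0, 3), (0, 5), (0, 1)]
  Bs := [(3, 5), (1, 2), (3, 4)]
  outs := fun i => if i == 3 then 1 else if i == 1 || i == 2 || i == 4 then 2 else 0
  sm := fun i => i == 1 || i == 2 || i == 3 || i == 4
  keep := []
  pi := fun i => i
  NE := []
  al := []

def gQNP (i : ℕ) : ℕ := i

theorem gQN_adm : gQN.adm gQNP = true := by decide

theorem gQN_lchk : Loc.lchk gQN [(0, 1), (1, 2), (3, 4)] [(0, 2)] [] 2 = true := by decide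

theorem gQN_echk : Loc.echk gQN [(0, 1), (1, 2), (3, 4)] [(0, 2)] [] [] 2 = true := by decide

/-- P3 member (1,1); names: 0=v 1=z 2=w 3=x -/
def gPO : Cfg where
  nc := 1
  nt := 3
  E := [(0, 2), (0, 3), (0, 1)]
  Bs := [(2, 3)]
  outs := fun i => if i == 2 then 1 else if i == 1 then 2 else 0
  sm := fun i => i == 1 || i == 2
  keep := []
  pi := fun i => i
  NE := []
  al := []

def gPOP (i : ℕ) : ℕ := i

theorem gPO_adm : gPO.adm gPOP = true := by decide

theorem gPO_lchk : Loc.lchk gPO [(0, 1)] [] [] 1 = true := by decide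

theorem gPO_echk : Loc.echk gPO [(0, 1)] [] [] [] 1 = true := by decide

/-- P1 member (1,1); names: 0=v 1=z 2=u 3=w 4=x -/
def gQO : Cfg where
  nc := 1
  nt := 4
  E := [(0, 3), (0, 4), (0, 1)]
  Bs := [(3, 4), (1, 2)]
  outs := fun i => if i == 3 then 1 else if i == 1 || i == 2 then 2 else 0
  sm := fun i => i == 1 || i == 2 || i == 3
  keep := []
  pi := fun i => i
  NE := []
  al := []

def gQOP (i : ℕ) : ℕ := i

theorem gQO_adm : gQO.adm gQOP = true := by decide

theorem gQO_lchk : Loc.lchk gQO [(0, 1), (1, 2)] [(0, 2)] [] 1 = true := by decide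

theorem gQO_echk : Loc.echk gQO [(0, 1), (1, 2)] [(0, 2)] [] [] 1 = true := by decide

/-- 5-vertex g, n 3-vertex, (v1,g,y) y small, (c,g,b) c centre, b small; names: 0=c 1=v1 2=g 3=n 4=v3 5=v4 6=y 7=b -/
def gE23 : Cfg where
  nc := 1
  nt := 7
  E := [(0, 2), (0, 7), (0, 4), (0, 5)]
  Bs := [(1, 2), (1, 6), (2, 6), (2, 7), (2, 3)]
  outs := fun i => if i == 1 then 1 else if i == 3 || i == 4 || i == 5 || i == 6 || i == 7 then 2 else 0
  sm := fun i => i == 1 || i == 2 || i == 3 || i == 4 || i == 5 || i == 6 || i == 7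
  keep := []
  pi := fun i => i
  NE := []
  al := []

def gE23P (i : ℕ) : ℕ := i

theorem gE23_adm : gE23.adm gE23P = true := by decide

theorem gE23_lchk : Loc.lchk gE23 [(2, 3), (0, 4), (0, 5)] [(1, 7), (4, 5), (6, 7)] [] 2 = true := by decide

theorem gE23_echk : Loc.echk gE23 [(2, 3), (0, 4), (0, 5)] [(1, 7), (4, 5), (6, 7)] [] [] 2 = true := by decide

/-- 5-vertex with five 3-neighbours; names: 0=a 1=b 2=c 3=d 4=e 5=y -/
def gC3 : Cfg where
  nc := 1
  nt := 5
  E := [(0, 5)]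
  Bs := [(1, 5), (2, 5), (3, 5), (4, 5)]
  outs := fun i => if i == 0 || i == 1 || i == 2 || i == 3 || i == 4 then 2 else 0
  sm := fun i => i == 1 || i == 2 || i == 3 || i == 4 || i == 5
  keep := []
  pi := fun i => i
  NE := []
  al := []

def gC3P (i : ℕ) : ℕ := i

theorem gC3_adm : gC3.adm gC3P = true := by decide

theorem gC3_lchk : Loc.lchk gC3 [(5, 0), (5, 1), (5, 2), (5, 3), (5, 4)] [(0, 1), (0, 2), (0, 3), (0, 4), (1, 2), (1, 3), (1, 4), (2, 3), (2, 4), (3, 4)] [] 1 = true := by decide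

theorem gC3_echk : Loc.echk gC3 [(5, 0), (5, 1), (5, 2), (5, 3), (5, 4)] [(0, 1), (0, 2), (0, 3), (0, 4), (1, 2), (1, 3), (1, 4), (2, 3), (2, 4), (3, 4)] [] [] 1 = true := by decide

/-- 5-vertex g, n 3-vertex, 3-vertices v1, v2 in both triangles, y1, y2 small; names: 0=v1 1=g 2=n 3=v2 4=y1 5=y2 -/
def gLss : Cfg where
  nc := 1
  nt := 5
  E := [(0, 1), (0, 4)]
  Bs := [(1, 4), (1, 3), (3, 5), (1, 5), (1, 2)]
  outs := fun i => if i == 0 || i == 3 then 1 else if i == 2 || i == 4 || i == 5 then 2 else 0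
  sm := fun i => i == 1 || i == 2 || i == 3 || i == 4 || i == 5
  keep := []
  pi := fun i => i
  NE := []
  al := []

def gLssP (i : ℕ) : ℕ := i

theorem gLss_adm : gLss.adm gLssP = true := by decide

theorem gLss_lchk : Loc.lchk gLss [(1, 2)] [(0, 5), (4, 5)] [] 2 = true := by decide

theorem gLss_echk : Loc.echk gLss [(1, 2)] [(0, 5), (4, 5)] [] [] 2 = true := by decide

/-- 5-vertex g, (v1,g,y1) y1 small, v1 has a 3-neighbour, v2 is adjacent to a 4-vertex with a 3-neighbour; names: 0=g 1=v2 2=v1 3=z1 4=n 5=z2 6=u2 7=y1 8=y2 -/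
def gE22 : Cfg where
  nc := 2
  nt := 7
  E := [(0, 2), (0, 7), (0, 1), (1, 8), (0, 8), (1, 5), (0, 4)]
  Bs := [(2, 7), (5, 6), (2, 3)]
  outs := fun i => if i == 3 || i == 4 || i == 5 || i == 6 || i == 7 then 2 else 0
  sm := fun i => i == 2 || i == 3 || i == 4 || i == 5 || i == 6 || i == 7
  keep := []
  pi := fun i => i
  NE := []
  al := []

def gE22P (i : ℕ) : ℕ := i

theorem gE22_adm : gE22.adm gE22P = true := by decide

theorem gE22_lchk : Loc.lchk gE22 [(1, 5), (5, 6), (0, 4), (2, 3)] [(1, 2), (1, 6), (2, 8)] [(3, 6)] 2 = true := by decide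

theorem gE22_echk : Loc.echk gE22 [(1, 5), (5, 6), (0, 4), (2, 3)] [(1, 2), (1, 6), (2, 8)] [(3, 6)] [] 2 = true := by decide

/-- P3 (v;g,h), g in a second P3, h with a 3-vertex in the second triangle; names: 0=v 1=z 2=g 3=h 4=n 5=m 6=v1 7=z1 8=v2 9=u1 10=u2 -/
def gE24 : Cfg where
  nc := 1
  nt := 10
  E := [(0, 2), (0, 3), (0, 1)]
  Bs := [(2, 3), (2, 6), (6, 9), (2, 9), (3, 8), (8, 10), (3, 10), (2, 4), (3, 5), (6, 7)]
  outs := fun i => if i == 8 then 1 else if i == 1 || i == 4 || i == 5 || i == 7 then 2 else 0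
  sm := fun i => i == 1 || i == 2 || i == 3 || i == 4 || i == 5 || i == 6 || i == 7 || i == 8
  keep := []
  pi := fun i => i
  NE := []
  al := []

def gE24P (i : ℕ) : ℕ := i

theorem gE24_adm : gE24.adm gE24P = true := by decide

theorem gE24_lchk : Loc.lchk gE24 [(0, 1), (2, 4), (3, 5), (6, 7)] [(0, 6), (0, 10), (2, 10), (3, 6)] [] 2 = true := by decide

theorem gE24_echk : Loc.echk gE24 [(0, 1), (2, 4), (3, 5), (6, 7)] [(0, 6), (0, 10), (2, 10), (3, 6)] [] [] 2 = true := by decide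

end Pool.Agent.Lib.SVW.LC
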