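import Pool.Agent.Lib.SVX.ChkD
import Pool.Agent.Lib.SVW.ExData

/-!
# SVW.ExOk: `ListOK` of the configurations (kernel check)
-/

set_option autoImplicit false
set_option maxRecDepth 100000

namespace Pool.Agent.Lib.SVW.LC

open Pool.Agent.Lib.SVX

/-- all checks, one after the other -/
theorem ex_seq :
    (rg3.ListOK) ∧
    (rg4.ListOK) ∧
    (gE20.ListOK) ∧
    (gQ16.ListOK) ∧
    (gCC.ListOK) ∧
    (gPK.ListOK) ∧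
    (gAK.ListOK) ∧
    (gPN.ListOK) ∧
    (gQN.ListOK) ∧
    (gPO.ListOK) ∧
    (gQO.ListOK) ∧
    (gE23.ListOK) ∧
    (gC3.ListOK) ∧
    (gLss.ListOK) :=
  ⟨(Chk.ringD_cfgZ (a := 0) (b := 2)
  (l := [.par 3 1 [], .vf ⟨0, false, [], [(1, true, [])]⟩, .ed 0 6, .ed 6 2, .par 2 5 [], .par 5 3 [], .vf ⟨2, false, [5], [(3, true, [5])]⟩])
  (r := [.par 2 4 [], .tr 0 2 ⟨4, true, [], []⟩])
  (nodes := [(4, 2, []), (5, 2, []), (2, 0, [4, 5]), (3, 1, [2, 5])])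
  (u0 := 0) (by decide +kernel)),
  (Chk.ringD_cfgZ (a := 2) (b := 3)
  (l := [.ed 2 7, .ed 7 3, .par 2 6 [], .par 5 4 [], .vf ⟨3, false, [6], [(4, true, [6])]⟩, .par 2 5 [], .tr 3 0 ⟨5, true, [], []⟩, .ed 0 1, .par 3 1 [], .vf ⟨1, true, [], []⟩])
  (r := [.par 3 2 [], .vf ⟨2, true, [], []⟩, .ed 2 1])
  (nodes := [(5, 2, []), (6, 2, []), (3, 0, [5, 6]), (4, 1, [3, 6]), (1, 1, []), (2, 1, [1])])
  (u0 := 2) (by decide +kernel)),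
  (Chk.ringD_cfgZ (a := 0) (b := 4)
  (l := [.par 3 4 [], .vf ⟨4, true, [], []⟩, .ed 4 6, .ed 6 0, .par 3 3 [], .vf ⟨0, false, [], [(3, true, [])]⟩, .par 2 5 [], .tr 0 2 ⟨5, true, [], []⟩, .par 5 2 [], .vf ⟨2, true, [], []⟩])
  (r := [.par 5 1 [], .tr 4 2 ⟨1, true, [], []⟩])
  (nodes := [(5, 2, []), (2, 1, [5]), (1, 1, [2]), (4, 1, [1, 2])])
  (u0 := 4) (by decide +kernel)),
  (Chk.ringD_cfgZ (a := 0) (b := 1)
  (l := [.par 3 3 [], .tr 2 1 ⟨3, true, [], []⟩, .par 5 1 [], .vf ⟨1, true, [], []⟩, .ed 1 7, .ed 7 0, .par 3 4 [], .par 3 5 [], .vf ⟨0, false, [], [(4, true, []), (5, true, [])]⟩])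
  (r := [.par 2 6 [], .tr 2 0 ⟨6, true, [], []⟩])
  (nodes := [(6, 2, []), (2, 0, [6]), (1, 1, [2]), (3, 1, [1, 2])])
  (u0 := 2) (by decide +kernel)),
  (Chk.ringD_cfgZ (a := 0) (b := 3)
  (l := [.par 3 1 [], .par 3 2 [], .vf ⟨0, false, [], [(1, true, []), (2, true, [])]⟩, .ed 0 7, .ed 7 3, .par 3 4 [], .par 3 5 [], .vf ⟨3, false, [], [(4, true, []), (5, true, [])]⟩])
  (r := [.par 2 6 [], .tr 0 3 ⟨6, true, [], []⟩])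
  (nodes := [(6, 2, []), (3, 0, [6]), (4, 1, [3]), (5, 1, [3])])
  (u0 := 0) (by decide +kernel)),
  (Chk.ringD_cfgZ (a := 0) (b := 3)
  (l := [.par 3 1 [], .vf ⟨0, false, [], [(1, true, [])]⟩, .par 2 6 [], .tr 0 2 ⟨6, true, [], []⟩, .par 3 4 [], .par 3 5 [], .vf ⟨2, false, [], [(4, true, []), (5, true, [])]⟩])
  (r := [.ed 0 7, .ed 7 3, .par 3 3 [], .vf ⟨3, true, [], []⟩, .ed 3 2])
  (nodes := [(6, 2, []), (2, 0, [6]), (3, 1, [2]), (4, 1, [2]), (5, 1, [2])])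
  (u0 := 0) (by decide +kernel)),
  (Chk.ringD_cfgZ (a := 0) (b := 7)
  (l := [.par 3 7 [], .vf ⟨7, true, [], []⟩, .par 3 4 [], .par 3 5 [], .par 3 6 [], .tr 7 0 ⟨3, false, [], [(4, true, []), (5, true, []), (6, true, [])]⟩])
  (r := [.ed 7 8, .ed 8 0, .par 3 1 [], .par 3 2 [], .vf ⟨0, false, [], [(1, true, []), (2, true, [])]⟩])
  (nodes := [(4, 1, []), (3, 0, [4]), (5, 1, [3]), (6, 1, [3]), (7, 1, [3])])
  (u0 := 7) (by decide +kernel)),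
  (Chk.ringD_cfgZ (a := 0) (b := 2)
  (l := [.par 3 1 [], .vf ⟨0, false, [], [(1, true, [])]⟩, .ed 0 5, .ed 5 2, .par 5 2 [], .par 3 3 [], .vf ⟨2, true, [], [(3, true, [])]⟩])
  (r := [.par 2 4 [], .tr 0 2 ⟨4, true, [], []⟩])
  (nodes := [(4, 2, []), (2, 1, [4]), (3, 1, [2])])
  (u0 := 0) (by decide +kernel)),
  (Chk.ringD_cfgZ (a := 2) (b := 3)
  (l := [.ed 2 1, .par 3 1 [], .vf ⟨1, true, [], []⟩, .ed 1 0, .par 2 5 [], .tr 0 3 ⟨5, true, [], []⟩, .par 5 3 [], .par 3 4 [], .vf ⟨3, true, [], [(4, true, [])]⟩])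
  (r := [.par 3 2 [], .vf ⟨2, true, [], []⟩, .ed 2 6, .ed 6 3])
  (nodes := [(5, 2, []), (3, 1, [5]), (4, 1, [3]), (1, 1, []), (2, 1, [1])])
  (u0 := 2) (by decide +kernel)),
  (Chk.ringD_cfgZ (a := 0) (b := 1)
  (l := [.par 3 1 [], .vf ⟨1, true, [], []⟩, .ed 1 4, .ed 4 0, .par 2 3 [], .par 5 2 [], .vf ⟨0, false, [3], [(2, true, [3])]⟩])
  (r := [.ed 1 0])
  (nodes := [(3, 2, []), (2, 1, [3])])
  (u0 := 1) (by decide +kernel)),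
  (Chk.ringD_cfgZ (a := 0) (b := 2)
  (l := [.par 3 2 [], .vf ⟨2, true, [], []⟩, .ed 2 5, .ed 5 0, .par 2 4 [], .par 5 3 [], .vf ⟨0, false, [4], [(3, true, [4])]⟩, .ed 0 1])
  (r := [.ed 2 1, .par 3 1 [], .vf ⟨1, true, [], []⟩])
  (nodes := [(4, 2, []), (3, 1, [4]), (1, 1, []), (2, 1, [1])])
  (u0 := 2) (by decide +kernel)),
  (Chk.ringD_cfgZ (a := 0) (b := 1)
  (l := [.par 5 1 [], .vf ⟨1, true, [], []⟩, .par 3 6 [], .tr 1 2 ⟨6, true, [], []⟩, .par 3 3 [], .vf ⟨2, false, [], [(3, true, [])]⟩, .par 3 7 [], .tr 2 0 ⟨7, true, [], []⟩])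
  (r := [.ed 1 8, .ed 8 0, .par 3 4 [], .par 3 5 [], .vf ⟨0, false, [], [(4, true, []), (5, true, [])]⟩])
  (nodes := [(1, 1, []), (6, 1, [1]), (2, 0, [1, 6]), (3, 1, [2]), (7, 1, [2])])
  (u0 := 1) (by decide +kernel)),
  (Chk.ringD_cfgZ (a := 0) (b := 5)
  (l := [.ed 0 6, .ed 6 5, .par 3 1 [], .par 3 2 [], .par 3 3 [], .par 3 4 [], .vf ⟨5, false, [], [(1, true, []), (2, true, []), (3, true, []), (4, true, [])]⟩])
  (r := [.par 3 0 [], .vf ⟨0, true, [], []⟩, .ed 0 5])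
  (nodes := [(1, 1, []), (5, 0, [1]), (2, 1, [5]), (3, 1, [5]), (4, 1, [5])])
  (u0 := 0) (by decide +kernel)),
  (Chk.ringD_cfgZ (a := 0) (b := 3)
  (l := [.par 5 0 [], .vf ⟨0, true, [], []⟩, .ed 0 6, .ed 6 3, .par 5 3 [], .vf ⟨3, true, [], []⟩, .par 3 5 [], .tr 3 1 ⟨5, true, [], []⟩, .par 3 2 [], .vf ⟨1, false, [], [(2, true, [])]⟩])
  (r := [.par 3 4 [], .tr 0 1 ⟨4, true, [], []⟩])
  (nodes := [(3, 1, []), (5, 1, [3]), (1, 0, [3, 5]), (2, 1, [1]), (4, 1, [1])])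
  (u0 := 0) (by decide +kernel))⟩

theorem rg3_ok : rg3.ListOK := ex_seq.1

theorem rg4_ok : rg4.ListOK := ex_seq.2.1

theorem gE20_ok : gE20.ListOK := ex_seq.2.2.1

theorem gQ16_ok : gQ16.ListOK := ex_seq.2.2.2.1

theorem gCC_ok : gCC.ListOK := ex_seq.2.2.2.2.1

theorem gPK_ok : gPK.ListOK := ex_seq.2.2.2.2.2.1

theorem gAK_ok : gAK.ListOK := ex_seq.2.2.2.2.2.2.1

theorem gPN_ok : gPN.ListOK := ex_seq.2.2.2.2.2.2.2.1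

theorem gQN_ok : gQN.ListOK := ex_seq.2.2.2.2.2.2.2.2.1

theorem gPO_ok : gPO.ListOK := ex_seq.2.2.2.2.2.2.2.2.2.1

theorem gQO_ok : gQO.ListOK := ex_seq.2.2.2.2.2.2.2.2.2.2.1

theorem gE23_ok : gE23.ListOK := ex_seq.2.2.2.2.2.2.2.2.2.2.2.1

theorem gC3_ok : gC3.ListOK := ex_seq.2.2.2.2.2.2.2.2.2.2.2.2.1

theorem gLss_ok : gLss.ListOK := ex_seq.2.2.2.2.2.2.2.2.2.2.2.2.2

end Pool.Agent.Lib.SVW.LC
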