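import Pool.Agent.Lib.SVW.ChkN
import Pool.Agent.Lib.SVW.ExData

/-!
# SVW.ExOkB: `ListOK` of the configurations (kernel check)
-/

set_option autoImplicit false
set_option maxRecDepth 100000

namespace Pool.Agent.Lib.SVW.LC

open Pool.Agent.Lib.SVX

/-- left strip of `gQK` -/
def gQK_l : List Chk.St := [.ed 2 3, .par 3 3 [], .vf ⟨3, true, [], []⟩, .ed 3 8, .ed 8 0, .par 3 4 [], .par 3 5 [], .par 3 6 [], .vf ⟨0, false, [], [(4, true, []), (5, true, []), (6, true, [])]⟩]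

/-- right strip of `gQK` -/
def gQK_r : List Chk.St := [.vf ⟨2, true, [], []⟩, .ed 2 1, .par 2 7 [], .tr 1 0 ⟨7, true, [], []⟩]

/-- nodes of `gQK` -/
def gQK_n : List (ℕ × ℕ × List ℕ) := [(2, 1, []), (3, 1, [2])]

/-- left strip of `gE22` -/
def gE22_l : List Chk.St := [.par 3 5 [], .vf ⟨5, true, [], []⟩, .ed 5 1, .par 2 8 [], .tr 1 0 ⟨8, true, [], []⟩, .par 3 4 [], .vf ⟨0, false, [], [(4, true, [])]⟩, .par 3 7 [], .tr 0 2 ⟨7, true, [], []⟩]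

/-- right strip of `gE22` -/
def gE22_r : List Chk.St := [.ed 5 6, .vf ⟨6, true, [], []⟩, .ed 6 9, .ed 9 2, .par 3 3 [], .vf ⟨2, false, [], [(3, true, [])]⟩]

/-- nodes of `gE22` -/
def gE22_n : List (ℕ × ℕ × List ℕ) := [(5, 1, []), (6, 1, [5]), (3, 1, []), (7, 1, [])]

/-- left strip of `gE24` -/
def gE24_l : List Chk.St := [.par 3 7 [], .vf ⟨6, false, [], [(7, true, [])]⟩, .par 2 9 [], .tr 6 2 ⟨9, true, [], []⟩, .par 3 4 [], .vf ⟨2, false, [], [(4, true, [])]⟩, .par 3 1 [], .tr 2 3 ⟨0, false, [], [(1, true, [])]⟩, .par 3 5 [], .vf ⟨3, false, [], [(5, true, [])]⟩]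

/-- right strip of `gE24` -/
def gE24_r : List Chk.St := [.ed 6 11, .ed 11 8, .vf ⟨8, true, [], []⟩, .par 2 10 [], .tr 8 3 ⟨10, true, [], []⟩]

/-- nodes of `gE24` -/
def gE24_n : List (ℕ × ℕ × List ℕ) := [(9, 2, []), (10, 2, []), (8, 1, [10]), (3, 0, [8, 10]), (2, 0, [3, 9]), (6, 0, [2, 9]), (4, 1, [2]), (5, 1, [3]), (7, 1, [6])]

/-- all checks, one after the other -/
theorem exb_seq :
    (Chk.ringPM gQK_l 2 gQK_r gQK_n 4 0 [7] = true) ∧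
    (Chk.ringPM gQK_l 2 gQK_r gQK_n 4 1 [7] = true) ∧
    (Chk.ringPM gQK_l 2 gQK_r gQK_n 4 2 [7] = true) ∧
    (Chk.ringPM gQK_l 2 gQK_r gQK_n 4 3 [7] = true) ∧
    (Chk.ringPM gQK_l 2 gQK_r gQK_n 4 4 [7] = true) ∧
    (Chk.ringPM gQK_l 2 gQK_r gQK_n 0 0 [11, 13, 14, 19, 21, 22, 25, 26, 28, 35, 37] = true) ∧
    (Chk.ringPM gQK_l 2 gQK_r gQK_n 0 0 [38, 41, 42, 44, 49, 50, 52, 56, 67, 69, 70, 73] = true) ∧
    (Chk.ringPM gQK_l 2 gQK_r gQK_n 0 0 [74, 76, 81, 82, 84, 88, 97, 98, 100, 104, 112] = true) ∧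
    (Chk.ringPM gE22_l 6 gE22_r gE22_n 5 0 [7] = true) ∧
    (Chk.ringPM gE22_l 6 gE22_r gE22_n 5 1 [7] = true) ∧
    (Chk.ringPM gE22_l 6 gE22_r gE22_n 5 2 [7] = true) ∧
    (Chk.ringPM gE22_l 6 gE22_r gE22_n 5 3 [7] = true) ∧
    (Chk.ringPM gE22_l 6 gE22_r gE22_n 5 4 [7] = true) ∧
    (Chk.ringPM gE22_l 6 gE22_r gE22_n 5 5 [7] = true) ∧
    (Chk.ringPM gE22_l 6 gE22_r gE22_n 0 0 [11, 13, 14, 19, 21, 22, 25, 26, 28, 35, 37] = true) ∧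
    (Chk.ringPM gE22_l 6 gE22_r gE22_n 0 0 [38, 41, 42, 44, 49, 50, 52, 56, 67, 69, 70, 73] = true) ∧
    (Chk.ringPM gE22_l 6 gE22_r gE22_n 0 0 [74, 76, 81, 82, 84, 88, 97, 98, 100, 104, 112] = true) ∧
    (Chk.ringP gE24_l 8 gE24_r gE24_n [31, 47, 55, 59, 61] = true) ∧
    (Chk.ringP gE24_l 8 gE24_r gE24_n [62, 79, 87, 91, 93] = true) ∧
    (Chk.ringP gE24_l 8 gE24_r gE24_n [94, 103, 107, 109, 110] = true) ∧
    (Chk.ringP gE24_l 8 gE24_r gE24_n [115, 117, 118, 121, 122] = true) ∧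
    (Chk.ringP gE24_l 8 gE24_r gE24_n [124] = true) :=
  ⟨(by decide +kernel),
  (by decide +kernel),
  (by decide +kernel),
  (by decide +kernel),
  (by decide +kernel),
  (by decide +kernel),
  (by decide +kernel),
  (by decide +kernel),
  (by decide +kernel),
  (by decide +kernel),
  (by decide +kernel),
  (by decide +kernel),
  (by decide +kernel),
  (by decide +kernel),
  (by decide +kernel),
  (by decide +kernel),
  (by decide +kernel),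
  (by decide +kernel),
  (by decide +kernel),
  (by decide +kernel),
  (by decide +kernel),
  (by decide +kernel)⟩

theorem gQK_p0_0 : Chk.ringPM gQK_l 2 gQK_r gQK_n 4 0 [7] = true := exb_seq.1

theorem gQK_p0_1 : Chk.ringPM gQK_l 2 gQK_r gQK_n 4 1 [7] = true := exb_seq.2.1

theorem gQK_p0_2 : Chk.ringPM gQK_l 2 gQK_r gQK_n 4 2 [7] = true := exb_seq.2.2.1

theorem gQK_p0_3 : Chk.ringPM gQK_l 2 gQK_r gQK_n 4 3 [7] = true := exb_seq.2.2.2.1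

theorem gQK_p0_4 : Chk.ringPM gQK_l 2 gQK_r gQK_n 4 4 [7] = true := exb_seq.2.2.2.2.1

theorem gQK_p1 : Chk.ringPM gQK_l 2 gQK_r gQK_n 0 0 [11, 13, 14, 19, 21, 22, 25, 26, 28, 35, 37] = true := exb_seq.2.2.2.2.2.1

theorem gQK_p2 : Chk.ringPM gQK_l 2 gQK_r gQK_n 0 0 [38, 41, 42, 44, 49, 50, 52, 56, 67, 69, 70, 73] = true := exb_seq.2.2.2.2.2.2.1

theorem gQK_p3 : Chk.ringPM gQK_l 2 gQK_r gQK_n 0 0 [74, 76, 81, 82, 84, 88, 97, 98, 100, 104, 112] = true := exb_seq.2.2.2.2.2.2.2.1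

theorem gE22_p0_0 : Chk.ringPM gE22_l 6 gE22_r gE22_n 5 0 [7] = true := exb_seq.2.2.2.2.2.2.2.2.1

theorem gE22_p0_1 : Chk.ringPM gE22_l 6 gE22_r gE22_n 5 1 [7] = true := exb_seq.2.2.2.2.2.2.2.2.2.1

theorem gE22_p0_2 : Chk.ringPM gE22_l 6 gE22_r gE22_n 5 2 [7] = true := exb_seq.2.2.2.2.2.2.2.2.2.2.1

theorem gE22_p0_3 : Chk.ringPM gE22_l 6 gE22_r gE22_n 5 3 [7] = true := exb_seq.2.2.2.2.2.2.2.2.2.2.2.1

theorem gE22_p0_4 : Chk.ringPM gE22_l 6 gE22_r gE22_n 5 4 [7] = true := exb_seq.2.2.2.2.2.2.2.2.2.2.2.2.1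

theorem gE22_p0_5 : Chk.ringPM gE22_l 6 gE22_r gE22_n 5 5 [7] = true := exb_seq.2.2.2.2.2.2.2.2.2.2.2.2.2.1

theorem gE22_p1 : Chk.ringPM gE22_l 6 gE22_r gE22_n 0 0 [11, 13, 14, 19, 21, 22, 25, 26, 28, 35, 37] = true := exb_seq.2.2.2.2.2.2.2.2.2.2.2.2.2.2.1

theorem gE22_p2 : Chk.ringPM gE22_l 6 gE22_r gE22_n 0 0 [38, 41, 42, 44, 49, 50, 52, 56, 67, 69, 70, 73] = true := exb_seq.2.2.2.2.2.2.2.2.2.2.2.2.2.2.2.1

theorem gE22_p3 : Chk.ringPM gE22_l 6 gE22_r gE22_n 0 0 [74, 76, 81, 82, 84, 88, 97, 98, 100, 104, 112] = true := exb_seq.2.2.2.2.2.2.2.2.2.2.2.2.2.2.2.2.1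

theorem gE24_p0 : Chk.ringP gE24_l 8 gE24_r gE24_n [31, 47, 55, 59, 61] = true := exb_seq.2.2.2.2.2.2.2.2.2.2.2.2.2.2.2.2.2.1

theorem gE24_p1 : Chk.ringP gE24_l 8 gE24_r gE24_n [62, 79, 87, 91, 93] = true := exb_seq.2.2.2.2.2.2.2.2.2.2.2.2.2.2.2.2.2.2.1

theorem gE24_p2 : Chk.ringP gE24_l 8 gE24_r gE24_n [94, 103, 107, 109, 110] = true := exb_seq.2.2.2.2.2.2.2.2.2.2.2.2.2.2.2.2.2.2.2.1

theorem gE24_p3 : Chk.ringP gE24_l 8 gE24_r gE24_n [115, 117, 118, 121, 122] = true := exb_seq.2.2.2.2.2.2.2.2.2.2.2.2.2.2.2.2.2.2.2.2.1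

theorem gE24_p4 : Chk.ringP gE24_l 8 gE24_r gE24_n [124] = true := exb_seq.2.2.2.2.2.2.2.2.2.2.2.2.2.2.2.2.2.2.2.2.2

theorem gQK_ok : gQK.ListOK := Chk.ringPM_cfgZ (a := 0) (b := 3) (u0 := 2) (s := 3) (dis := [])
  (oss := [([7], 4), ([11, 13, 14, 19, 21, 22, 25, 26, 28, 35, 37], 0), ([38, 41, 42, 44, 49, 50, 52, 56, 67, 69, 70, 73], 0), ([74, 76, 81, 82, 84, 88, 97, 98, 100, 104, 112], 0)])
  (by decide +kernel) (by decide +kernel)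
  (Chk.AllM_cons (Chk.AllJ_succ (Chk.AllJ_succ (Chk.AllJ_succ (Chk.AllJ_succ (Chk.AllJ_zero gQK_p0_0) gQK_p0_1) gQK_p0_2) gQK_p0_3) gQK_p0_4)
    (Chk.AllM_cons (Chk.AllJ_zero gQK_p1)
    (Chk.AllM_cons (Chk.AllJ_zero gQK_p2)
    (Chk.AllM_cons (Chk.AllJ_zero gQK_p3)
    Chk.AllM_nil))))

theorem gE22_ok : gE22.ListOK := Chk.ringPM_cfgZ (a := 2) (b := 6) (u0 := 5) (s := 3) (dis := [])
  (oss := [([7], 5), ([11, 13, 14, 19, 21, 22, 25, 26, 28, 35, 37], 0), ([38, 41, 42, 44, 49, 50, 52, 56, 67, 69, 70, 73], 0), ([74, 76, 81, 82, 84, 88, 97, 98, 100, 104, 112], 0)])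
  (by decide +kernel) (by decide +kernel)
  (Chk.AllM_cons (Chk.AllJ_succ (Chk.AllJ_succ (Chk.AllJ_succ (Chk.AllJ_succ (Chk.AllJ_succ (Chk.AllJ_zero gE22_p0_0) gE22_p0_1) gE22_p0_2) gE22_p0_3) gE22_p0_4) gE22_p0_5)
    (Chk.AllM_cons (Chk.AllJ_zero gE22_p1)
    (Chk.AllM_cons (Chk.AllJ_zero gE22_p2)
    (Chk.AllM_cons (Chk.AllJ_zero gE22_p3)
    Chk.AllM_nil))))

theorem gE24_ok : gE24.ListOK := Chk.ringP_cfgZ (a := 6) (b := 8) (u0 := 6) (s := 5) (dis := [])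
  (by decide +kernel) (by decide +kernel)
  (Chk.AllP_cons gE24_p0 (Chk.AllP_cons gE24_p1 (Chk.AllP_cons gE24_p2 (Chk.AllP_cons gE24_p3 (Chk.AllP_cons gE24_p4 Chk.AllP_nil)))))

end Pool.Agent.Lib.SVW.LC
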