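import Pool.Agent.Lib.SVW.ExOk
import Pool.Agent.Lib.SVW.ExOkB

/-!
# SVW.ExThm: reducible local configurations

Generated (helper75).
-/

set_option autoImplicit false
set_option linter.unusedSectionVars false
set_option maxRecDepth 100000

namespace Pool.Agent.Lib.SVW.LC

open Finset Pool.Agent.Lib.SVT Pool.Agent.Lib.SVX Pool.Agent.Lib.SVY

variable {V : Type*} [Fintype V] [DecidableEq V] {G : SimpleGraph V} {B : Finset V}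
variable {m : ℕ} {F : Fin m → Finset (Sym2 V)}

/-- F=(2,0) with a 3-vertex in both triangles, one of them has a 3-neighbour -/
theorem rg3_false (h : MinCE G B) (hF : Faces G F) {v1 z1 f v2 x y : V}
    (he1 : G.Adj v1 f) (he2 : G.Adj v1 x) (he3 : G.Adj f x) (he4 : G.Adj f y) (he5 : G.Adj v2 f)
    (he6 : G.Adj v2 y) (hw1 : WE G v1 z1) (hd1 : v1 ≠ y) (hd2 : x ≠ y) (hb1 : v1 ∉ B)
    (hb2 : z1 ∉ B) (hb3 : f ∉ B) (hb4 : v2 ∉ B) (hg1 : dg G v1 ≤ 3) (hg2 : dg G z1 ≤ 3)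
    (hg3 : dg G f ≤ 4) (hg4 : dg G v2 ≤ 3) : False := by
  refine SVW.Loc.cfalseW (nm := fun i => [v1, z1, f, v2, x, y].getD i v1) rg3_adm rg3_lchk rg3_echk
    rg3_ok h hF ?_ ?_ ?_ ?_ ?_ ?_
  · show ∀ e ∈ [(0, 2), (0, 4), (0, 1), (2, 4), (2, 5), (2, 3), (3, 5)], G.Adj _ _
    simp only [List.forall_mem_cons]
    exact ⟨he1, he2, hw1.1, he3, he4, he5.symm, he6, by simp⟩
  · simp only [List.forall_mem_cons]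
    exact ⟨hw1, by simp⟩
  · simp only [List.forall_mem_cons]
    exact ⟨hd1, hd2, by simp⟩
  · simp
  · simp
  · have hl : Loc.hlist rg3 = [0, 1, 2, 3] := by decide
    rw [hl]
    simp only [List.forall_mem_cons]
    exact ⟨⟨hb1, hg1⟩, ⟨hb2, hg2⟩, ⟨hb3, hg3⟩, ⟨hb4, hg4⟩, by simp⟩

/-- F=(2,0) with a 3-vertex in both triangles, one of them is adjacent to a 4-vertex with a 3-neighbour -/
theorem rg4_false (h : MinCE G B) (hF : Faces G F) {v1 z1 u1 f v2 x y : V}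
    (he1 : G.Adj v1 f) (he2 : G.Adj v1 x) (he3 : G.Adj f x) (he4 : G.Adj f y) (he5 : G.Adj v2 f)
    (he6 : G.Adj v2 y) (hw1 : WE G v1 z1) (hw2 : WE G z1 u1) (hd1 : v1 ≠ u1) (hd2 : v1 ≠ y)
    (hd3 : x ≠ y) (hb1 : v1 ∉ B) (hb2 : z1 ∉ B) (hb3 : u1 ∉ B) (hb4 : f ∉ B) (hb5 : v2 ∉ B)
    (hg1 : dg G v1 ≤ 3) (hg2 : dg G z1 ≤ 4) (hg3 : dg G u1 ≤ 3) (hg4 : dg G f ≤ 4)
    (hg5 : dg G v2 ≤ 3) : False := by
  refine SVW.Loc.cfalseW (nm := fun i => [v1, z1, u1, f, v2, x, y].getD i v1) rg4_adm rg4_lchk rg4_echk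
    rg4_ok h hF ?_ ?_ ?_ ?_ ?_ ?_
  · show ∀ e ∈ [(0, 3), (0, 5), (0, 1), (3, 5), (3, 6), (3, 4), (4, 6), (1, 2)], G.Adj _ _
    simp only [List.forall_mem_cons]
    exact ⟨he1, he2, hw1.1, he3, he4, he5.symm, he6, hw2.1, by simp⟩
  · simp only [List.forall_mem_cons]
    exact ⟨hw1, hw2, by simp⟩
  · simp only [List.forall_mem_cons]
    exact ⟨hd1, hd2, hd3, by simp⟩
  · simp
  · simp
  · have hl : Loc.hlist rg4 = [0, 1, 2, 3, 4] := by decide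
    rw [hl]
    simp only [List.forall_mem_cons]
    exact ⟨⟨hb1, hg1⟩, ⟨hb2, hg2⟩, ⟨hb3, hg3⟩, ⟨hb4, hg4⟩, ⟨hb5, hg5⟩, by simp⟩

/-- 5-vertex g with a 3-vertex in both triangles, y1 small, v2 has a 3-neighbour -/
theorem gE20_false (h : MinCE G B) (hF : Faces G F) {v2 v1 g z2 y1 y2 : V}
    (he1 : G.Adj v1 g) (he2 : G.Adj v1 y1) (he3 : G.Adj g y1) (he4 : G.Adj v2 g)
    (he5 : G.Adj v2 y2) (he6 : G.Adj g y2) (hw1 : WE G v2 z2) (hd1 : v1 ≠ y2) (hd2 : y1 ≠ y2)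
    (hb1 : v2 ∉ B) (hb2 : v1 ∉ B) (hb3 : g ∉ B) (hb4 : z2 ∉ B) (hb5 : y1 ∉ B) (hg1 : dg G v2 ≤ 3)
    (hg2 : dg G v1 ≤ 3) (hg3 : dg G g ≤ 5) (hg4 : dg G z2 ≤ 3) (hg5 : dg G y1 ≤ 4) : False := by
  refine SVW.Loc.cfalseW (nm := fun i => [v2, v1, g, z2, y1, y2].getD i v2) gE20_adm gE20_lchk gE20_echk
    gE20_ok h hF ?_ ?_ ?_ ?_ ?_ ?_
  · show ∀ e ∈ [(0, 2), (0, 5), (0, 3), (1, 2), (1, 4), (2, 4), (2, 5)], G.Adj _ _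
    simp only [List.forall_mem_cons]
    exact ⟨he4, he5, hw1.1, he1, he2, he3, he6, by simp⟩
  · simp only [List.forall_mem_cons]
    exact ⟨hw1, by simp⟩
  · simp only [List.forall_mem_cons]
    exact ⟨hd1, hd2, by simp⟩
  · simp
  · simp
  · have hl : Loc.hlist gE20 = [0, 1, 2, 3, 4] := by decide
    rw [hl]
    simp only [List.forall_mem_cons]
    exact ⟨⟨hb1, hg1⟩, ⟨hb2, hg2⟩, ⟨hb3, hg3⟩, ⟨hb4, hg4⟩, ⟨hb5, hg5⟩, by simp⟩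

/-- F=(2,0), triangle v f x, x small, the other triangle of f contains a 4-vertex with two 3-neighbours -/
theorem gQ16_false (h : MinCE G B) (hF : Faces G F) {c v f x m1 m2 y : V}
    (he1 : G.Adj v f) (he2 : G.Adj v x) (he3 : G.Adj f x) (he4 : G.Adj f c) (he5 : G.Adj f y)
    (he6 : G.Adj c y) (hw1 : WE G c m1) (hw2 : WE G c m2) (hd1 : v ≠ y) (hd2 : x ≠ y)
    (hd3 : m1 ≠ m2) (hb1 : c ∉ B) (hb2 : v ∉ B) (hb3 : f ∉ B) (hb4 : x ∉ B) (hb5 : m1 ∉ B)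
    (hb6 : m2 ∉ B) (hg1 : dg G c ≤ 4) (hg2 : dg G v ≤ 3) (hg3 : dg G f ≤ 4) (hg4 : dg G x ≤ 4)
    (hg5 : dg G m1 ≤ 3) (hg6 : dg G m2 ≤ 3) : False := by
  refine SVW.Loc.cfalseW (nm := fun i => [c, v, f, x, m1, m2, y].getD i c) gQ16_adm gQ16_lchk gQ16_echk
    gQ16_ok h hF ?_ ?_ ?_ ?_ ?_ ?_
  · show ∀ e ∈ [(0, 2), (0, 6), (0, 4), (0, 5), (1, 2), (1, 3), (2, 3), (2, 6)], G.Adj _ _
    simp only [List.forall_mem_cons]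
    exact ⟨he4.symm, he6, hw1.1, hw2.1, he1, he2, he3, he5, by simp⟩
  · simp only [List.forall_mem_cons]
    exact ⟨hw1, hw2, by simp⟩
  · simp only [List.forall_mem_cons]
    exact ⟨hd1, hd2, hd3, by simp⟩
  · simp
  · simp
  · have hl : Loc.hlist gQ16 = [0, 1, 2, 3, 4, 5] := by decide
    rw [hl]
    simp only [List.forall_mem_cons]
    exact ⟨⟨hb1, hg1⟩, ⟨hb2, hg2⟩, ⟨hb3, hg3⟩, ⟨hb4, hg4⟩, ⟨hb5, hg5⟩, ⟨hb6, hg6⟩, by simp⟩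

/-- adjacent centres -/
theorem gCC_false (h : MinCE G B) (hF : Faces G F) {c1 a1 b1 c2 a2 b2 y : V}
    (he1 : G.Adj c1 c2) (he2 : G.Adj c1 y) (he3 : G.Adj c2 y) (hw1 : WE G c1 a1)
    (hw2 : WE G c1 b1) (hw3 : WE G c2 a2) (hw4 : WE G c2 b2) (hd1 : a1 ≠ b1) (hd2 : a2 ≠ b2)
    (hb1 : c1 ∉ B) (hb2 : a1 ∉ B) (hb3 : b1 ∉ B) (hb4 : c2 ∉ B) (hb5 : a2 ∉ B) (hb6 : b2 ∉ B)
    (hg1 : dg G c1 ≤ 4) (hg2 : dg G a1 ≤ 3) (hg3 : dg G b1 ≤ 3) (hg4 : dg G c2 ≤ 4)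
    (hg5 : dg G a2 ≤ 3) (hg6 : dg G b2 ≤ 3) : False := by
  refine SVW.Loc.cfalseW (nm := fun i => [c1, a1, b1, c2, a2, b2, y].getD i c1) gCC_adm gCC_lchk gCC_echk
    gCC_ok h hF ?_ ?_ ?_ ?_ ?_ ?_
  · show ∀ e ∈ [(0, 3), (0, 6), (0, 1), (0, 2), (3, 6), (3, 4), (3, 5)], G.Adj _ _
    simp only [List.forall_mem_cons]
    exact ⟨he1, he2, hw1.1, hw2.1, he3, hw3.1, hw4.1, by simp⟩
  · simp only [List.forall_mem_cons]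
    exact ⟨hw1, hw2, hw3, hw4, by simp⟩
  · simp only [List.forall_mem_cons]
    exact ⟨hd1, hd2, by simp⟩
  · simp
  · simp
  · have hl : Loc.hlist gCC = [0, 1, 2, 3, 4, 5] := by decide
    rw [hl]
    simp only [List.forall_mem_cons]
    exact ⟨⟨hb1, hg1⟩, ⟨hb2, hg2⟩, ⟨hb3, hg3⟩, ⟨hb4, hg4⟩, ⟨hb5, hg5⟩, ⟨hb6, hg6⟩, by simp⟩

/-- P3 member K -/
theorem gPK_false (h : MinCE G B) (hF : Faces G F) {v z K n1 n2 n3 y : V}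
    (he1 : G.Adj v K) (he2 : G.Adj v y) (he3 : G.Adj K y) (hw1 : WE G v z) (hw2 : WE G K n1)
    (hw3 : WE G K n2) (hw4 : WE G K n3) (hd1 : n1 ≠ n2) (hd2 : n1 ≠ n3) (hd3 : n2 ≠ n3)
    (hb1 : v ∉ B) (hb2 : z ∉ B) (hb3 : K ∉ B) (hb4 : n1 ∉ B) (hb5 : n2 ∉ B) (hb6 : n3 ∉ B)
    (hg1 : dg G v ≤ 3) (hg2 : dg G z ≤ 3) (hg3 : dg G K ≤ 5) (hg4 : dg G n1 ≤ 3)
    (hg5 : dg G n2 ≤ 3) (hg6 : dg G n3 ≤ 3) : False := by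
  refine SVW.Loc.cfalseW (nm := fun i => [v, z, K, n1, n2, n3, y].getD i v) gPK_adm gPK_lchk gPK_echk
    gPK_ok h hF ?_ ?_ ?_ ?_ ?_ ?_
  · show ∀ e ∈ [(0, 2), (0, 6), (0, 1), (2, 6), (2, 3), (2, 4), (2, 5)], G.Adj _ _
    simp only [List.forall_mem_cons]
    exact ⟨he1, he2, hw1.1, he3, hw2.1, hw3.1, hw4.1, by simp⟩
  · simp only [List.forall_mem_cons]
    exact ⟨hw1, hw2, hw3, hw4, by simp⟩
  · simp only [List.forall_mem_cons]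
    exact ⟨hd1, hd2, hd3, by simp⟩
  · simp
  · simp
  · have hl : Loc.hlist gPK = [0, 1, 2, 3, 4, 5] := by decide
    rw [hl]
    simp only [List.forall_mem_cons]
    exact ⟨⟨hb1, hg1⟩, ⟨hb2, hg2⟩, ⟨hb3, hg3⟩, ⟨hb4, hg4⟩, ⟨hb5, hg5⟩, ⟨hb6, hg6⟩, by simp⟩

/-- P1 member K -/
theorem gQK_false (h : MinCE G B) (hF : Faces G F) {K v z u n1 n2 n3 y : V}
    (he1 : G.Adj v K) (he2 : G.Adj v y) (he3 : G.Adj K y) (hw1 : WE G v z) (hw2 : WE G z u)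
    (hw3 : WE G K n1) (hw4 : WE G K n2) (hw5 : WE G K n3) (hd1 : v ≠ u) (hd2 : n1 ≠ n2)
    (hd3 : n1 ≠ n3) (hd4 : n2 ≠ n3) (hb1 : K ∉ B) (hb2 : v ∉ B) (hb3 : z ∉ B) (hb4 : u ∉ B)
    (hb5 : n1 ∉ B) (hb6 : n2 ∉ B) (hb7 : n3 ∉ B) (hg1 : dg G K ≤ 5) (hg2 : dg G v ≤ 3)
    (hg3 : dg G z ≤ 4) (hg4 : dg G u ≤ 3) (hg5 : dg G n1 ≤ 3) (hg6 : dg G n2 ≤ 3)
    (hg7 : dg G n3 ≤ 3) : False := by
  refine SVW.Loc.cfalseW (nm := fun i => [K, v, z, u, n1, n2, n3, y].getD i K) gQK_adm gQK_lchk gQK_echk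
    gQK_ok h hF ?_ ?_ ?_ ?_ ?_ ?_
  · show ∀ e ∈ [(0, 1), (0, 7), (0, 4), (0, 5), (0, 6), (1, 7), (1, 2), (2, 3)], G.Adj _ _
    simp only [List.forall_mem_cons]
    exact ⟨he1.symm, he3, hw3.1, hw4.1, hw5.1, he2, hw1.1, hw2.1, by simp⟩
  · simp only [List.forall_mem_cons]
    exact ⟨hw1, hw2, hw3, hw4, hw5, by simp⟩
  · simp only [List.forall_mem_cons]
    exact ⟨hd1, hd2, hd3, hd4, by simp⟩
  · simp
  · simp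
  · have hl : Loc.hlist gQK = [0, 1, 2, 3, 4, 5, 6] := by decide
    rw [hl]
    simp only [List.forall_mem_cons]
    exact ⟨⟨hb1, hg1⟩, ⟨hb2, hg2⟩, ⟨hb3, hg3⟩, ⟨hb4, hg4⟩, ⟨hb5, hg5⟩, ⟨hb6, hg6⟩, ⟨hb7, hg7⟩, by simp⟩

/-- P1 centre c and K in a triangle with small b -/
theorem gAK_false (h : MinCE G B) (hF : Faces G F) {c p q K n1 n2 n3 b : V}
    (he1 : G.Adj c K) (he2 : G.Adj c b) (he3 : G.Adj K b) (hw1 : WE G c p) (hw2 : WE G c q)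
    (hw3 : WE G K n1) (hw4 : WE G K n2) (hw5 : WE G K n3) (hd1 : p ≠ q) (hd2 : n1 ≠ n2)
    (hd3 : n1 ≠ n3) (hd4 : n2 ≠ n3) (hb1 : c ∉ B) (hb2 : p ∉ B) (hb3 : q ∉ B) (hb4 : K ∉ B)
    (hb5 : n1 ∉ B) (hb6 : n2 ∉ B) (hb7 : n3 ∉ B) (hb8 : b ∉ B) (hg1 : dg G c ≤ 4)
    (hg2 : dg G p ≤ 3) (hg3 : dg G q ≤ 3) (hg4 : dg G K ≤ 5) (hg5 : dg G n1 ≤ 3)
    (hg6 : dg G n2 ≤ 3) (hg7 : dg G n3 ≤ 3) (hg8 : dg G b ≤ 4) : False := by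
  refine SVW.Loc.cfalseW (nm := fun i => [c, p, q, K, n1, n2, n3, b].getD i c) gAK_adm gAK_lchk gAK_echk
    gAK_ok h hF ?_ ?_ ?_ ?_ ?_ ?_
  · show ∀ e ∈ [(0, 3), (0, 7), (0, 1), (0, 2), (3, 7), (3, 4), (3, 5), (3, 6)], G.Adj _ _
    simp only [List.forall_mem_cons]
    exact ⟨he1, he2, hw1.1, hw2.1, he3, hw3.1, hw4.1, hw5.1, by simp⟩
  · simp only [List.forall_mem_cons]
    exact ⟨hw1, hw2, hw3, hw4, hw5, by simp⟩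
  · simp only [List.forall_mem_cons]
    exact ⟨hd1, hd2, hd3, hd4, by simp⟩
  · simp
  · simp
  · have hl : Loc.hlist gAK = [0, 1, 2, 3, 4, 5, 6, 7] := by decide
    rw [hl]
    simp only [List.forall_mem_cons]
    exact ⟨⟨hb1, hg1⟩, ⟨hb2, hg2⟩, ⟨hb3, hg3⟩, ⟨hb4, hg4⟩, ⟨hb5, hg5⟩, ⟨hb6, hg6⟩, ⟨hb7, hg7⟩, ⟨hb8, hg8⟩, by simp⟩

/-- P3 member (1,2) -/
theorem gPN_false (h : MinCE G B) (hF : Faces G F) {v z N n2 x : V}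
    (he1 : G.Adj v N) (he2 : G.Adj v x) (he3 : G.Adj N x) (hw1 : WE G v z) (hw2 : WE G N n2)
    (hb1 : v ∉ B) (hb2 : z ∉ B) (hb3 : N ∉ B) (hb4 : n2 ∉ B) (hg1 : dg G v ≤ 3) (hg2 : dg G z ≤ 3)
    (hg3 : dg G N ≤ 4) (hg4 : dg G n2 ≤ 3) : False := by
  refine SVW.Loc.cfalseW (nm := fun i => [v, z, N, n2, x].getD i v) gPN_adm gPN_lchk gPN_echk
    gPN_ok h hF ?_ ?_ ?_ ?_ ?_ ?_
  · show ∀ e ∈ [(0, 2), (0, 4), (0, 1), (2, 4), (2, 3)], G.Adj _ _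
    simp only [List.forall_mem_cons]
    exact ⟨he1, he2, hw1.1, he3, hw2.1, by simp⟩
  · simp only [List.forall_mem_cons]
    exact ⟨hw1, hw2, by simp⟩
  · simp
  · simp
  · simp
  · have hl : Loc.hlist gPN = [0, 1, 2, 3] := by decide
    rw [hl]
    simp only [List.forall_mem_cons]
    exact ⟨⟨hb1, hg1⟩, ⟨hb2, hg2⟩, ⟨hb3, hg3⟩, ⟨hb4, hg4⟩, by simp⟩

/-- P1 member (1,2) -/
theorem gQN_false (h : MinCE G B) (hF : Faces G F) {v z u N n2 x : V}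
    (he1 : G.Adj v N) (he2 : G.Adj v x) (he3 : G.Adj N x) (hw1 : WE G v z) (hw2 : WE G z u)
    (hw3 : WE G N n2) (hd1 : v ≠ u) (hb1 : v ∉ B) (hb2 : z ∉ B) (hb3 : u ∉ B) (hb4 : N ∉ B)
    (hb5 : n2 ∉ B) (hg1 : dg G v ≤ 3) (hg2 : dg G z ≤ 4) (hg3 : dg G u ≤ 3) (hg4 : dg G N ≤ 4)
    (hg5 : dg G n2 ≤ 3) : False := by
  refine SVW.Loc.cfalseW (nm := fun i => [v, z, u, N, n2, x].getD i v) gQN_adm gQN_lchk gQN_echk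
    gQN_ok h hF ?_ ?_ ?_ ?_ ?_ ?_
  · show ∀ e ∈ [(0, 3), (0, 5), (0, 1), (3, 5), (1, 2), (3, 4)], G.Adj _ _
    simp only [List.forall_mem_cons]
    exact ⟨he1, he2, hw1.1, he3, hw2.1, hw3.1, by simp⟩
  · simp only [List.forall_mem_cons]
    exact ⟨hw1, hw2, hw3, by simp⟩
  · simp only [List.forall_mem_cons]
    exact ⟨hd1, by simp⟩
  · simp
  · simp
  · have hl : Loc.hlist gQN = [0, 1, 2, 3, 4] := by decide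
    rw [hl]
    simp only [List.forall_mem_cons]
    exact ⟨⟨hb1, hg1⟩, ⟨hb2, hg2⟩, ⟨hb3, hg3⟩, ⟨hb4, hg4⟩, ⟨hb5, hg5⟩, by simp⟩

/-- P3 member (1,1) -/
theorem gPO_false (h : MinCE G B) (hF : Faces G F) {v z w x : V}
    (he1 : G.Adj v w) (he2 : G.Adj v x) (he3 : G.Adj w x) (hw1 : WE G v z) (hb1 : v ∉ B)
    (hb2 : z ∉ B) (hb3 : w ∉ B) (hg1 : dg G v ≤ 3) (hg2 : dg G z ≤ 3) (hg3 : dg G w ≤ 3) : False := by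
  refine SVW.Loc.cfalseW (nm := fun i => [v, z, w, x].getD i v) gPO_adm gPO_lchk gPO_echk
    gPO_ok h hF ?_ ?_ ?_ ?_ ?_ ?_
  · show ∀ e ∈ [(0, 2), (0, 3), (0, 1), (2, 3)], G.Adj _ _
    simp only [List.forall_mem_cons]
    exact ⟨he1, he2, hw1.1, he3, by simp⟩
  · simp only [List.forall_mem_cons]
    exact ⟨hw1, by simp⟩
  · simp
  · simp
  · simp
  · have hl : Loc.hlist gPO = [0, 1, 2] := by decide
    rw [hl]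
    simp only [List.forall_mem_cons]
    exact ⟨⟨hb1, hg1⟩, ⟨hb2, hg2⟩, ⟨hb3, hg3⟩, by simp⟩

/-- P1 member (1,1) -/
theorem gQO_false (h : MinCE G B) (hF : Faces G F) {v z u w x : V}
    (he1 : G.Adj v w) (he2 : G.Adj v x) (he3 : G.Adj w x) (hw1 : WE G v z) (hw2 : WE G z u)
    (hd1 : v ≠ u) (hb1 : v ∉ B) (hb2 : z ∉ B) (hb3 : u ∉ B) (hb4 : w ∉ B) (hg1 : dg G v ≤ 3)
    (hg2 : dg G z ≤ 4) (hg3 : dg G u ≤ 3) (hg4 : dg G w ≤ 3) : False := by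
  refine SVW.Loc.cfalseW (nm := fun i => [v, z, u, w, x].getD i v) gQO_adm gQO_lchk gQO_echk
    gQO_ok h hF ?_ ?_ ?_ ?_ ?_ ?_
  · show ∀ e ∈ [(0, 3), (0, 4), (0, 1), (3, 4), (1, 2)], G.Adj _ _
    simp only [List.forall_mem_cons]
    exact ⟨he1, he2, hw1.1, he3, hw2.1, by simp⟩
  · simp only [List.forall_mem_cons]
    exact ⟨hw1, hw2, by simp⟩
  · simp only [List.forall_mem_cons]
    exact ⟨hd1, by simp⟩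
  · simp
  · simp
  · have hl : Loc.hlist gQO = [0, 1, 2, 3] := by decide
    rw [hl]
    simp only [List.forall_mem_cons]
    exact ⟨⟨hb1, hg1⟩, ⟨hb2, hg2⟩, ⟨hb3, hg3⟩, ⟨hb4, hg4⟩, by simp⟩

/-- 5-vertex g, n 3-vertex, (v1,g,y) y small, (c,g,b) c centre, b small -/
theorem gE23_false (h : MinCE G B) (hF : Faces G F) {c v1 g n v3 v4 y b : V}
    (he1 : G.Adj v1 g) (he2 : G.Adj v1 y) (he3 : G.Adj g y) (he4 : G.Adj c g) (he5 : G.Adj c b)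
    (he6 : G.Adj g b) (hw1 : WE G g n) (hw2 : WE G c v3) (hw3 : WE G c v4) (hd1 : v1 ≠ b)
    (hd2 : v3 ≠ v4) (hd3 : y ≠ b) (hb1 : c ∉ B) (hb2 : v1 ∉ B) (hb3 : g ∉ B) (hb4 : n ∉ B)
    (hb5 : v3 ∉ B) (hb6 : v4 ∉ B) (hb7 : y ∉ B) (hb8 : b ∉ B) (hg1 : dg G c ≤ 4)
    (hg2 : dg G v1 ≤ 3) (hg3 : dg G g ≤ 5) (hg4 : dg G n ≤ 3) (hg5 : dg G v3 ≤ 3)
    (hg6 : dg G v4 ≤ 3) (hg7 : dg G y ≤ 4) (hg8 : dg G b ≤ 4) : False := by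
  refine SVW.Loc.cfalseW (nm := fun i => [c, v1, g, n, v3, v4, y, b].getD i c) gE23_adm gE23_lchk gE23_echk
    gE23_ok h hF ?_ ?_ ?_ ?_ ?_ ?_
  · show ∀ e ∈ [(0, 2), (0, 7), (0, 4), (0, 5), (1, 2), (1, 6), (2, 6), (2, 7), (2, 3)], G.Adj _ _
    simp only [List.forall_mem_cons]
    exact ⟨he4, he5, hw2.1, hw3.1, he1, he2, he3, he6, hw1.1, by simp⟩
  · simp only [List.forall_mem_cons]
    exact ⟨hw1, hw2, hw3, by simp⟩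
  · simp only [List.forall_mem_cons]
    exact ⟨hd1, hd2, hd3, by simp⟩
  · simp
  · simp
  · have hl : Loc.hlist gE23 = [0, 1, 2, 3, 4, 5, 6, 7] := by decide
    rw [hl]
    simp only [List.forall_mem_cons]
    exact ⟨⟨hb1, hg1⟩, ⟨hb2, hg2⟩, ⟨hb3, hg3⟩, ⟨hb4, hg4⟩, ⟨hb5, hg5⟩, ⟨hb6, hg6⟩, ⟨hb7, hg7⟩, ⟨hb8, hg8⟩, by simp⟩

/-- 5-vertex with five 3-neighbours -/
theorem gC3_false (h : MinCE G B) (hF : Faces G F) {a b c d e y : V}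
    (hw1 : WE G y a) (hw2 : WE G y b) (hw3 : WE G y c) (hw4 : WE G y d) (hw5 : WE G y e)
    (hd1 : a ≠ b) (hd2 : a ≠ c) (hd3 : a ≠ d) (hd4 : a ≠ e) (hd5 : b ≠ c) (hd6 : b ≠ d)
    (hd7 : b ≠ e) (hd8 : c ≠ d) (hd9 : c ≠ e) (hd10 : d ≠ e) (hb1 : a ∉ B) (hb2 : b ∉ B)
    (hb3 : c ∉ B) (hb4 : d ∉ B) (hb5 : e ∉ B) (hb6 : y ∉ B) (hg1 : dg G a ≤ 3) (hg2 : dg G b ≤ 3)
    (hg3 : dg G c ≤ 3) (hg4 : dg G d ≤ 3) (hg5 : dg G e ≤ 3) (hg6 : dg G y ≤ 5) : False := by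
  refine SVW.Loc.cfalseW (nm := fun i => [a, b, c, d, e, y].getD i a) gC3_adm gC3_lchk gC3_echk
    gC3_ok h hF ?_ ?_ ?_ ?_ ?_ ?_
  · show ∀ e ∈ [(0, 5), (1, 5), (2, 5), (3, 5), (4, 5)], G.Adj _ _
    simp only [List.forall_mem_cons]
    exact ⟨hw1.1.symm, hw2.1.symm, hw3.1.symm, hw4.1.symm, hw5.1.symm, by simp⟩
  · simp only [List.forall_mem_cons]
    exact ⟨hw1, hw2, hw3, hw4, hw5, by simp⟩
  · simp only [List.forall_mem_cons]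
    exact ⟨hd1, hd2, hd3, hd4, hd5, hd6, hd7, hd8, hd9, hd10, by simp⟩
  · simp
  · simp
  · have hl : Loc.hlist gC3 = [0, 1, 2, 3, 4, 5] := by decide
    rw [hl]
    simp only [List.forall_mem_cons]
    exact ⟨⟨hb1, hg1⟩, ⟨hb2, hg2⟩, ⟨hb3, hg3⟩, ⟨hb4, hg4⟩, ⟨hb5, hg5⟩, ⟨hb6, hg6⟩, by simp⟩

/-- 5-vertex g, n 3-vertex, 3-vertices v1, v2 in both triangles, y1, y2 small -/
theorem gLss_false (h : MinCE G B) (hF : Faces G F) {v1 g n v2 y1 y2 : V}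
    (he1 : G.Adj v1 g) (he2 : G.Adj v1 y1) (he3 : G.Adj g y1) (he4 : G.Adj v2 g)
    (he5 : G.Adj v2 y2) (he6 : G.Adj g y2) (hw1 : WE G g n) (hd1 : v1 ≠ y2) (hd2 : y1 ≠ y2)
    (hb1 : v1 ∉ B) (hb2 : g ∉ B) (hb3 : n ∉ B) (hb4 : v2 ∉ B) (hb5 : y1 ∉ B) (hb6 : y2 ∉ B)
    (hg1 : dg G v1 ≤ 3) (hg2 : dg G g ≤ 5) (hg3 : dg G n ≤ 3) (hg4 : dg G v2 ≤ 3)
    (hg5 : dg G y1 ≤ 4) (hg6 : dg G y2 ≤ 4) : False := by
  refine SVW.Loc.cfalseW (nm := fun i => [v1, g, n, v2, y1, y2].getD i v1) gLss_adm gLss_lchk gLss_echk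
    gLss_ok h hF ?_ ?_ ?_ ?_ ?_ ?_
  · show ∀ e ∈ [(0, 1), (0, 4), (1, 4), (1, 3), (3, 5), (1, 5), (1, 2)], G.Adj _ _
    simp only [List.forall_mem_cons]
    exact ⟨he1, he2, he3, he4.symm, he5, he6, hw1.1, by simp⟩
  · simp only [List.forall_mem_cons]
    exact ⟨hw1, by simp⟩
  · simp only [List.forall_mem_cons]
    exact ⟨hd1, hd2, by simp⟩
  · simp
  · simp
  · have hl : Loc.hlist gLss = [0, 1, 2, 3, 4, 5] := by decide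
    rw [hl]
    simp only [List.forall_mem_cons]
    exact ⟨⟨hb1, hg1⟩, ⟨hb2, hg2⟩, ⟨hb3, hg3⟩, ⟨hb4, hg4⟩, ⟨hb5, hg5⟩, ⟨hb6, hg6⟩, by simp⟩

/-- 5-vertex g, (v1,g,y1) y1 small, v1 has a 3-neighbour, v2 is adjacent to a 4-vertex with a 3-neighbour -/
theorem gE22_false (h : MinCE G B) (hF : Faces G F) {g v2 v1 z1 n z2 u2 y1 y2 : V}
    (he1 : G.Adj v1 g) (he2 : G.Adj v1 y1) (he3 : G.Adj g y1) (he4 : G.Adj v2 g)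
    (he5 : G.Adj v2 y2) (he6 : G.Adj g y2) (hw1 : WE G v2 z2) (hw2 : WE G z2 u2) (hw3 : WE G g n)
    (hw4 : WE G v1 z1) (hd1 : v2 ≠ v1) (hd2 : v2 ≠ u2) (hd3 : v1 ≠ y2) (hx1 : ¬ G.Adj z1 u2)
    (hb1 : g ∉ B) (hb2 : v2 ∉ B) (hb3 : v1 ∉ B) (hb4 : z1 ∉ B) (hb5 : n ∉ B) (hb6 : z2 ∉ B)
    (hb7 : u2 ∉ B) (hb8 : y1 ∉ B) (hg1 : dg G g ≤ 5) (hg2 : dg G v2 ≤ 3) (hg3 : dg G v1 ≤ 3)
    (hg4 : dg G z1 ≤ 3) (hg5 : dg G n ≤ 3) (hg6 : dg G z2 ≤ 4) (hg7 : dg G u2 ≤ 3)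
    (hg8 : dg G y1 ≤ 4) : False := by
  refine SVW.Loc.cfalseW (nm := fun i => [g, v2, v1, z1, n, z2, u2, y1, y2].getD i g) gE22_adm gE22_lchk gE22_echk
    gE22_ok h hF ?_ ?_ ?_ ?_ ?_ ?_
  · show ∀ e ∈ [(0, 2), (0, 7), (0, 1), (1, 8), (0, 8), (1, 5), (0, 4), (2, 7), (5, 6), (2, 3)], G.Adj _ _
    simp only [List.forall_mem_cons]
    exact ⟨he1.symm, he3, he4.symm, he5, he6, hw1.1, hw3.1, he2, hw2.1, hw4.1, by simp⟩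
  · simp only [List.forall_mem_cons]
    exact ⟨hw1, hw2, hw3, hw4, by simp⟩
  · simp only [List.forall_mem_cons]
    exact ⟨hd1, hd2, hd3, by simp⟩
  · simp only [List.forall_mem_cons]
    exact ⟨hx1, by simp⟩
  · simp
  · have hl : Loc.hlist gE22 = [0, 1, 2, 3, 4, 5, 6, 7] := by decide
    rw [hl]
    simp only [List.forall_mem_cons]
    exact ⟨⟨hb1, hg1⟩, ⟨hb2, hg2⟩, ⟨hb3, hg3⟩, ⟨hb4, hg4⟩, ⟨hb5, hg5⟩, ⟨hb6, hg6⟩, ⟨hb7, hg7⟩, ⟨hb8, hg8⟩, by simp⟩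

/-- P3 (v;g,h), g in a second P3, h with a 3-vertex in the second triangle -/
theorem gE24_false (h : MinCE G B) (hF : Faces G F) {v z g g2 n n2 v1 z1 v2 u1 u2 : V}
    (he1 : G.Adj v g) (he2 : G.Adj v g2) (he3 : G.Adj g g2) (he4 : G.Adj v1 g) (he5 : G.Adj v1 u1)
    (he6 : G.Adj g u1) (he7 : G.Adj v2 g2) (he8 : G.Adj v2 u2) (he9 : G.Adj g2 u2)
    (hw1 : WE G v z) (hw2 : WE G g n) (hw3 : WE G g2 n2) (hw4 : WE G v1 z1) (hd1 : v ≠ v1)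
    (hd2 : v ≠ u2) (hd3 : g ≠ u2) (hd4 : g2 ≠ v1) (hb1 : v ∉ B) (hb2 : z ∉ B) (hb3 : g ∉ B)
    (hb4 : g2 ∉ B) (hb5 : n ∉ B) (hb6 : n2 ∉ B) (hb7 : v1 ∉ B) (hb8 : z1 ∉ B) (hb9 : v2 ∉ B)
    (hg1 : dg G v ≤ 3) (hg2 : dg G z ≤ 3) (hg3 : dg G g ≤ 5) (hg4 : dg G g2 ≤ 5)
    (hg5 : dg G n ≤ 3) (hg6 : dg G n2 ≤ 3) (hg7 : dg G v1 ≤ 3) (hg8 : dg G z1 ≤ 3)
    (hg9 : dg G v2 ≤ 3) : False := by
  refine SVW.Loc.cfalseW (nm := fun i => [v, z, g, g2, n, n2, v1, z1, v2, u1, u2].getD i v) gE24_adm gE24_lchk gE24_echk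
    gE24_ok h hF ?_ ?_ ?_ ?_ ?_ ?_
  · show ∀ e ∈ [(0, 2), (0, 3), (0, 1), (2, 3), (2, 6), (6, 9), (2, 9), (3, 8), (8, 10), (3, 10), (2, 4), (3, 5), (6, 7)], G.Adj _ _
    simp only [List.forall_mem_cons]
    exact ⟨he1, he2, hw1.1, he3, he4.symm, he5, he6, he7.symm, he8, he9, hw2.1, hw3.1, hw4.1, by simp⟩
  · simp only [List.forall_mem_cons]
    exact ⟨hw1, hw2, hw3, hw4, by simp⟩
  · simp only [List.forall_mem_cons]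
    exact ⟨hd1, hd2, hd3, hd4, by simp⟩
  · simp
  · simp
  · have hl : Loc.hlist gE24 = [0, 1, 2, 3, 4, 5, 6, 7, 8] := by decide
    rw [hl]
    simp only [List.forall_mem_cons]
    exact ⟨⟨hb1, hg1⟩, ⟨hb2, hg2⟩, ⟨hb3, hg3⟩, ⟨hb4, hg4⟩, ⟨hb5, hg5⟩, ⟨hb6, hg6⟩, ⟨hb7, hg7⟩, ⟨hb8, hg8⟩, ⟨hb9, hg9⟩, by simp⟩

end Pool.Agent.Lib.SVW.LC
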