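import Pool.Agent.Lib.SVW.LfE3
import Pool.Agent.Lib.SVY.LfC

/-!
# SVW.LfE4: the fields c3, a19, s10 of `LF`
-/

set_option autoImplicit false
set_option linter.unusedSectionVars false

namespace Pool.Agent.Lib.SVY.LfE

open Finset Pool.Agent.Lib.SVT Pool.Agent.Lib.SVX Pool.Agent.Lib.SVW.LC Pool.Agent.Lib.SVY.LC

variable {V : Type*} [Fintype V] [DecidableEq V] {G : SimpleGraph V} {B : Finset V}
variable {m : ℕ} {F : Fin m → Finset (Sym2 V)}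

theorem c3 (h : MinCE G B) (hF : Faces G F) : ∀ y, y ∉ B → dg G y = 5 →
    (∀ u, G.Adj y u → WE G y u ∧ Inn G B 3 u) → False := by
  intro y hy hd hall
  have hl := (nb G univ y).nodup_toList
  have hlen : (nb G univ y).toList.length = 5 := by
    rw [length_toList]
    exact hd
  obtain ⟨a, b, c, d, e, hl'⟩ : ∃ a b c d e, (nb G univ y).toList = [a, b, c, d, e] := by
    match (nb G univ y).toList, hlen with
    | [a, b, c, d, e], _ => exact ⟨a, b, c, d, e, rfl⟩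
  have hmem : ∀ u ∈ [a, b, c, d, e], WE G y u ∧ Inn G B 3 u := by
    intro u hu
    rw [← hl', mem_toList] at hu
    exact hall u (mem_nb.1 hu).2
  rw [hl'] at hl
  simp only [List.nodup_cons, List.mem_cons, List.not_mem_nil, or_false, not_or] at hl
  obtain ⟨⟨h1, h2, h3, h4⟩, ⟨h5, h6, h7⟩, ⟨h8, h9⟩, h10, -⟩ := hl
  obtain ⟨wa, ia1, ia2⟩ := hmem a (by simp)
  obtain ⟨wb, ib1, ib2⟩ := hmem b (by simp)
  obtain ⟨wc, ic1, ic2⟩ := hmem c (by simp)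
  obtain ⟨wd, id1, id2⟩ := hmem d (by simp)
  obtain ⟨we, ie1, ie2⟩ := hmem e (by simp)
  exact gC3_false h hF wa wb wc wd we h1 h2 h3 h4 h5 h6 h7 h8 h9 h10 ia1 ib1 ic1 id1 ie1 hy
    ia2 ib2 ic2 id2 ie2 hd.le

theorem exk_wn (h : MinCE G B) {v : V} (hv : ExK G B v) : ∃ a b c, a ≠ b ∧ a ≠ c ∧ b ≠ c ∧
    WE G v a ∧ WE G v b ∧ WE G v c ∧ (a ∉ B ∧ dg G a ≤ 3) ∧ (b ∉ B ∧ dg G b ≤ 3) ∧
    (c ∉ B ∧ dg G c ≤ 3) := by
  obtain ⟨-, hd, ht, hw⟩ := hv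
  have h1 := card_wn h v
  obtain ⟨a, b, c, n1, n2, n3, h2⟩ := card_eq_three.1 (show (wn G v).card = 3 by omega)
  have ha : WE G v a := mem_wn.1 (by rw [h2]; simp)
  have hb : WE G v b := mem_wn.1 (by rw [h2]; simp)
  have hc : WE G v c := mem_wn.1 (by rw [h2]; simp)
  exact ⟨a, b, c, n1, n2, n3, ha, hb, hc, dm_le (hw a ha), dm_le (hw b hb), dm_le (hw c hc)⟩

theorem a19 (h : MinCE G B) (hF : Faces G F) : ∀ z a, P1c G B z → ExK G B a → TE G z a →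
    ¬ Np G B (apx G z a) → False := by
  intro z a hz ha hza hnp
  obtain ⟨e1, e2⟩ := apx_adj hza
  obtain ⟨p, q, hpq, p1, q1, p2, q2⟩ := p1c_wn h hz
  obtain ⟨n1, n2, n3, d1, d2, d3, w1, w2, w3, i1, i2, i3⟩ := exk_wn h ha
  by_cases hE : Exc G B (apx G z a)
  · rcases hE with hE | hE
    · obtain ⟨k, k1, k2, k3⟩ := ex2_wn h hE
      exact gAKe_false h hF hza.1 e1 e2 p1 q1 w1 w2 w3 k1 hpq d1 d2 d3 (p1c_le hz).1 ha.1 p2.1
        q2.1 i1.1 i2.1 i3.1 hE.1 k2 (p1c_le hz).2 ha.2.1.le p2.2 q2.2 i1.2 i2.2 i3.2 hE.2.1.le k3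
    · obtain ⟨k1, k2, k3, t1, t2, t3, u1, u2, u3, j1, j2, j3⟩ := exk_wn h hE
      exact gAKk_false h hF hza.1 e1 e2 p1 q1 w1 w2 w3 u1 u2 u3 hpq d1 d2 d3 t1 t2 t3
        (p1c_le hz).1 ha.1 p2.1 q2.1 i1.1 i2.1 i3.1 hE.1 j1.1 j2.1 j3.1 (p1c_le hz).2 ha.2.1.le
        p2.2 q2.2 i1.2 i2.2 i3.2 hE.2.1.le j1.2 j2.2 j3.2
  · have hs := sm_le (⟨hnp, hE⟩ : Sm G B (apx G z a))
    exact gAK_false h hF hza.1 e1 e2 p1 q1 w1 w2 w3 hpq d1 d2 d3 (p1c_le hz).1 p2.1 q2.1 ha.1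
      i1.1 i2.1 i3.1 hs.1 (p1c_le hz).2 p2.2 q2.2 ha.2.1.le i1.2 i2.2 i3.2 hs.2

theorem s10 (h : MinCE G B) (hF : Faces G F) : ∀ i x y A u, VE G B F i x y A → Npay G B A →
    s(A, u) ∈ F i → u ≠ y → ¬ Np G B (apx G y A) → False := by
  intro i x y A u hV hA hAu huy hnp
  by_cases hD : Dm G B u
  · have h3 : u ∉ B ∧ dg G u = 3 := by
      rcases hD with hD | hD
      · exact ⟨hD.1, hD.2.1⟩
      · exact ⟨hD.1.1, hD.1.2.1⟩
    exact s10u h hF i x y A u hV hA hAu huy h3.1 h3.2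
  · exact LfProof.s10n h hF i x y A u hV hA hAu huy hD hnp

end Pool.Agent.Lib.SVY.LfE
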