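import Pool.Agent.Lib.SVW.LfE2
import Pool.Agent.Lib.SVW.LfE4
import Pool.Agent.Lib.SVY.LfB
import Pool.Agent.Lib.SVY.LfC
import Pool.Agent.Lib.SVY.LfD
import Pool.Agent.Lib.SVY.LfE

/-!
# SVW.FactsP: the structure `LF`
-/

set_option autoImplicit false
set_option linter.unusedSectionVars false

namespace Pool.Agent.Lib.SVY

open Finset Pool.Agent.Lib.SVT Pool.Agent.Lib.SVX

variable {V : Type*} [Fintype V] [DecidableEq V] {G : SimpleGraph V} {B : Finset V}
variable {m : ℕ} {F : Fin m → Finset (Sym2 V)}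

theorem lf (h : MinCE G B) (hF : Faces G F) : LF G B F where
  l1 := LfProof.l1 h hF
  l2 := LfProof.l2 h hF
  l3 := LfProof.l3 h hF
  c2 := LfProof.c2 h hF
  c3 := LfE.c3 h hF
  cc := LfProof.cc h hF
  pk := LfProof.pk h hF
  qk := LfProof.qk h hF
  m5 := LfProof.m5 h hF
  q16 := LfProof.q16 h hF
  a18n := LfProof.a18n h hF
  a18f := LfProof.a18f h hF
  a19 := LfE.a19 h hF
  s5 := LfProof.s5 h hF
  s8 := LfProof.s8 h hF
  s9 := LfProof.s9 h hF
  s9p := LfProof.s9p h hF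
  s10 := LfE.s10 h hF
  s12 := LfProof.s12 h hF
  sb := LfProof.sb h hF
  e20 := LfE.e20 h hF
  e21 := LfE.e21 h hF
  e22 := LfE.e22 h hF
  e23 := LfE.e23 h hF
  lss := LfE.lss h hF
  lgc := LfE.lgc h hF
  e26 := LfE.e26 h hF
  e24 := LfE.e24 h hF

end Pool.Agent.Lib.SVY
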