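import Pool.Agent.Lib.SVX.ChkF

/-!
# SVW.Flex: flexible terminals with weak neighbours

`addP c t k o`: the fixed terminal `t` becomes small with at most `o` further neighbours, and it gets
`k` new small terminals (each with at most 2 further neighbours) as neighbours.  If `c.ListOKF fl`
with `fl t = true` and `Flx k o`, then the same holds for `addP c t k o`.  `Flx 1 2`: a vertex of
degree 5 with a weak neighbour, `Flx 3 0`: a vertex of degree 5 with three weak neighbours.
-/

set_option autoImplicit false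
set_option linter.unusedSectionVars false

namespace Pool.Agent.Lib.SVW

open Finset Pool.Agent.Lib.SVX

/-- a vertex with `k` pendant neighbours can take another pair -/
def Flx (k o : ℕ) : Prop :=
  ∀ (a L : Finset (Fin 7)) (b M : ℕ → Finset (Fin 7)), a.card = 2 → a ⊆ L → 7 - 2 * o ≤ L.card →
    (∀ j, j < k → (b j).card = 2 ∧ b j ⊆ M j ∧ 3 ≤ (M j).card ∧ Disjoint a (b j)) →
    ∃ w : Finset (Fin 7), w.card = 2 ∧ (a ∩ w).card = 1 ∧ w ⊆ L ∧
      ∀ j, j < k → ∃ p : Finset (Fin 7), p.card = 2 ∧ p ⊆ M j ∧ Disjoint w p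

/-- the pair `x c` can be taken -/
def OKp (M : Finset (Fin 7)) (x c : Fin 7) : Prop :=
  ∃ p : Finset (Fin 7), p.card = 2 ∧ p ⊆ M ∧ Disjoint {x, c} p

theorem okp_out {b M : Finset (Fin 7)} {x c : Fin 7} (h1 : b.card = 2) (h2 : b ⊆ M) (hx : x ∉ b)
    (hc : c ∉ b) : OKp M x c := by
  refine ⟨b, h1, h2, ?_⟩
  rw [disjoint_left]
  intro y hy
  rw [mem_insert, mem_singleton] at hy
  rcases hy with rfl | rfl
  · exact hx
  · exact hc

theorem okp_of {b M : Finset (Fin 7)} {x e : Fin 7} (h1 : b.card = 2) (h2 : b ⊆ M) (hx : x ∉ b)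
    (he : e ∈ M) (heb : e ∉ b) (hex : e ≠ x) (c : Fin 7) : OKp M x c := by
  by_cases hc : c ∈ b
  · refine ⟨insert e (b.erase c), ?_, ?_, ?_⟩
    · rw [card_insert_of_notMem (fun h => heb (mem_of_mem_erase h)), card_erase_of_mem hc, h1]
    · intro y hy
      rw [mem_insert] at hy
      rcases hy with rfl | hy
      · exact he
      · exact h2 (mem_of_mem_erase hy)
    · rw [disjoint_left]
      intro y hy
      rw [mem_insert, mem_singleton] at hy
      rw [mem_insert, mem_erase, not_or, not_and]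
      rcases hy with rfl | rfl
      · exact ⟨fun h => hex h.symm, fun _ => hx⟩
      · exact ⟨fun h => heb (h ▸ hc), fun h => absurd rfl h⟩
  · exact okp_out h1 h2 hx hc

theorem okp_two {b M : Finset (Fin 7)} {x y : Fin 7} (h1 : b.card = 2) (h2 : b ⊆ M)
    (h3 : 3 ≤ M.card) (hx : x ∉ b) (hy : y ∉ b) (hxy : x ≠ y) :
    (∀ c, OKp M x c) ∨ (∀ c, OKp M y c) := by
  obtain ⟨e, he, heb⟩ := exists_mem_notMem_of_card_lt_card (s := b) (t := M) (by omega)
  by_cases h : e = x
  · right
    exact fun c => okp_of h1 h2 hy he heb (fun h' => hxy (h.symm.trans h')) c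
  · left
    exact fun c => okp_of h1 h2 hx he heb h c

theorem pair_facts {a : Finset (Fin 7)} {x y c : Fin 7} (ha : a = {x, y}) (hxy : x ≠ y)
    (hc : c ∉ a) : (({x, c} : Finset (Fin 7)).card = 2 ∧ (a ∩ {x, c}).card = 1) ∧
      (({y, c} : Finset (Fin 7)).card = 2 ∧ (a ∩ {y, c}).card = 1) := by
  rw [ha, mem_insert, mem_singleton, not_or] at hc
  obtain ⟨h1, h2⟩ := hc
  have e1 : a ∩ {x, c} = {x} := by
    ext z
    simp only [ha, mem_inter, mem_insert, mem_singleton]
    constructor
    · rintro ⟨h3 | h3, h4 | h4⟩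
      · exact h3
      · exact h3
      · exact h4
      · exact absurd (h4.symm.trans h3) h2
    · intro h3
      exact ⟨Or.inl h3, Or.inl h3⟩
  have e2 : a ∩ {y, c} = {y} := by
    ext z
    simp only [ha, mem_inter, mem_insert, mem_singleton]
    constructor
    · rintro ⟨h3 | h3, h4 | h4⟩
      · exact h4
      · exact absurd (h4.symm.trans h3) h1
      · exact h3
      · exact h3
    · intro h3
      exact ⟨Or.inr h3, Or.inl h3⟩
  refine ⟨⟨card_pair (Ne.symm h1), ?_⟩, ⟨card_pair (Ne.symm h2), ?_⟩⟩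
  · rw [e1, card_singleton]
  · rw [e2, card_singleton]

theorem pair_sub {a L : Finset (Fin 7)} {x y c : Fin 7} (ha : a = {x, y}) (hL : a ⊆ L)
    (hc : c ∈ L) : ({x, c} : Finset (Fin 7)) ⊆ L ∧ ({y, c} : Finset (Fin 7)) ⊆ L := by
  have h1 : x ∈ L := hL (by rw [ha]; exact mem_insert_self _ _)
  have h2 : y ∈ L := hL (by rw [ha]; exact mem_insert_of_mem (mem_singleton_self _))
  refine ⟨fun z hz => ?_, fun z hz => ?_⟩ <;> rw [mem_insert, mem_singleton] at hz <;>
    rcases hz with rfl | rfl <;> assumption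

theorem flx12 : Flx 1 2 := by
  intro a L b M h1 h2 h3 h4
  obtain ⟨x, y, hxy, ha⟩ := card_eq_two.1 h1
  obtain ⟨c, hc, hca⟩ := exists_mem_notMem_of_card_lt_card (s := a) (t := L) (by omega)
  obtain ⟨q1, q2, q3, q4⟩ := h4 0 (by omega)
  have hx : x ∉ b 0 := disjoint_left.1 q4 (by rw [ha]; exact mem_insert_self _ _)
  have hy : y ∉ b 0 := disjoint_left.1 q4 (by rw [ha]; exact mem_insert_of_mem (mem_singleton_self _))
  obtain ⟨⟨r1, r2⟩, ⟨r3, r4⟩⟩ := pair_facts ha hxy hca
  obtain ⟨s1, s2⟩ := pair_sub ha h2 hc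
  rcases okp_two q1 q2 q3 hx hy hxy with h5 | h5
  · refine ⟨{x, c}, r1, r2, s1, ?_⟩
    intro j hj
    have hj0 : j = 0 := by omega
    rw [hj0]
    exact h5 c
  · refine ⟨{y, c}, r3, r4, s2, ?_⟩
    intro j hj
    have hj0 : j = 0 := by omega
    rw [hj0]
    exact h5 c

theorem flx30 : Flx 3 0 := by
  intro a L b M h1 h2 h3 h4
  obtain ⟨x, y, hxy, ha⟩ := card_eq_two.1 h1
  have hL : ∀ c, c ∈ L := by
    intro c
    have h5 : L = univ := by
      rw [← card_eq_iff_eq_univ, Fintype.card_fin]
      have := card_le_univ L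
      rw [Fintype.card_fin] at this
      omega
    rw [h5]
    exact mem_univ _
  have hx : ∀ j, j < 3 → x ∉ b j := fun j hj =>
    disjoint_left.1 (h4 j hj).2.2.2 (by rw [ha]; exact mem_insert_self _ _)
  have hy : ∀ j, j < 3 → y ∉ b j := fun j hj =>
    disjoint_left.1 (h4 j hj).2.2.2 (by rw [ha]; exact mem_insert_of_mem (mem_singleton_self _))
  have h5 : ∀ j, j < 3 → (∀ c, OKp (M j) x c) ∨ (∀ c, OKp (M j) y c) := fun j hj =>
    okp_two (h4 j hj).1 (h4 j hj).2.1 (h4 j hj).2.2.1 (hx j hj) (hy j hj) hxy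
  have h6 : ∃ k, k < 3 ∧ ((∀ j, j < 3 → j ≠ k → ∀ c, OKp (M j) x c) ∨
      (∀ j, j < 3 → j ≠ k → ∀ c, OKp (M j) y c)) := by
    rcases h5 0 (by omega) with a0 | a0 <;> rcases h5 1 (by omega) with a1 | a1 <;>
      rcases h5 2 (by omega) with a2 | a2
    · refine ⟨2, by omega, Or.inl ?_⟩
      intro j hj hjk
      have : j = 0 ∨ j = 1 := by omega
      rcases this with rfl | rfl
      · exact a0
      · exact a1
    · refine ⟨2, by omega, Or.inl ?_⟩
      intro j hj hjk
      have : j = 0 ∨ j = 1 := by omega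
      rcases this with rfl | rfl
      · exact a0
      · exact a1
    · refine ⟨1, by omega, Or.inl ?_⟩
      intro j hj hjk
      have : j = 0 ∨ j = 2 := by omega
      rcases this with rfl | rfl
      · exact a0
      · exact a2
    · refine ⟨0, by omega, Or.inr ?_⟩
      intro j hj hjk
      have : j = 1 ∨ j = 2 := by omega
      rcases this with rfl | rfl
      · exact a1
      · exact a2
    · refine ⟨0, by omega, Or.inl ?_⟩
      intro j hj hjk
      have : j = 1 ∨ j = 2 := by omega
      rcases this with rfl | rfl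
      · exact a1
      · exact a2
    · refine ⟨1, by omega, Or.inr ?_⟩
      intro j hj hjk
      have : j = 0 ∨ j = 2 := by omega
      rcases this with rfl | rfl
      · exact a0
      · exact a2
    · refine ⟨2, by omega, Or.inr ?_⟩
      intro j hj hjk
      have : j = 0 ∨ j = 1 := by omega
      rcases this with rfl | rfl
      · exact a0
      · exact a1
    · refine ⟨2, by omega, Or.inr ?_⟩
      intro j hj hjk
      have : j = 0 ∨ j = 1 := by omega
      rcases this with rfl | rfl
      · exact a0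
      · exact a1
  obtain ⟨k, hk, h6⟩ := h6
  obtain ⟨c, hc⟩ : ∃ c, c ∉ a ∪ b k := by
    by_contra h7
    push Not at h7
    have h8 : (univ : Finset (Fin 7)) ⊆ a ∪ b k := fun z _ => h7 z
    have h9 := card_le_card h8
    have h10 := card_union_le a (b k)
    rw [card_univ, Fintype.card_fin] at h9
    have h11 := (h4 k hk).1
    omega
  rw [mem_union, not_or] at hc
  obtain ⟨⟨r1, r2⟩, ⟨r3, r4⟩⟩ := pair_facts ha hxy hc.1
  obtain ⟨s1, s2⟩ := pair_sub ha h2 (hL c)
  rcases h6 with h6 | h6
  · refine ⟨{x, c}, r1, r2, s1, ?_⟩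
    intro j hj
    by_cases hjk : j = k
    · rw [hjk]
      exact okp_out (h4 k hk).1 (h4 k hk).2.1 (hx k hk) hc.2
    · exact h6 j hj hjk c
  · refine ⟨{y, c}, r3, r4, s2, ?_⟩
    intro j hj
    by_cases hjk : j = k
    · rw [hjk]
      exact okp_out (h4 k hk).1 (h4 k hk).2.1 (hy k hk) hc.2
    · exact h6 j hj hjk c

/-- add pendant terminals at the terminal `t` -/
def addP (c : Cfg) (t k o : ℕ) : Cfg where
  nc := c.nc
  nt := c.nt + k
  E := c.E
  Bs := c.Bs ++ (List.range k).map (fun j => (t, c.N + j))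
  outs := fun i => if i = t then o else if c.N ≤ i then 2 else c.outs i
  sm := fun i => decide (i = t) || decide (c.N ≤ i) || c.sm i
  keep := c.keep
  pi := c.pi
  NE := c.NE
  al := c.al

/-- all edges have ends with names of `c` -/
def wfB (c : Cfg) : Bool :=
  (c.E ++ c.Bs).all (fun e => decide (e.1 < c.N) && decide (e.2 < c.N))

theorem addP_N (c : Cfg) (t k o : ℕ) : (addP c t k o).N = c.N + k := by
  show c.nc + (c.nt + k) = c.nc + c.nt + k
  omega

theorem addP_adjE {c : Cfg} {t k o i j : ℕ} (h : c.adjE i j = true) :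
    (addP c t k o).adjE i j = true := by
  unfold Cfg.adjE at h ⊢
  simp only [Bool.or_eq_true, List.contains_iff_mem] at h ⊢
  show ((((i, j) ∈ c.E ∨ (j, i) ∈ c.E) ∨ (i, j) ∈ c.Bs ++ _) ∨ (j, i) ∈ c.Bs ++ _)
  rcases h with ((h | h) | h) | h
  · exact Or.inl (Or.inl (Or.inl h))
  · exact Or.inl (Or.inl (Or.inr h))
  · exact Or.inl (Or.inr (List.mem_append_left _ h))
  · exact Or.inr (List.mem_append_left _ h)

theorem addP_new {c : Cfg} {t k o j : ℕ} (hj : j < k) :
    (addP c t k o).adjE t (c.N + j) = true := by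
  unfold Cfg.adjE
  simp only [Bool.or_eq_true, List.contains_iff_mem]
  refine Or.inl (Or.inr ?_)
  show (t, c.N + j) ∈ c.Bs ++ (List.range k).map (fun j => (t, c.N + j))
  exact List.mem_append_right _ (List.mem_map.2 ⟨j, List.mem_range.2 hj, rfl⟩)

theorem addP_cases {c : Cfg} {t k o i j : ℕ} (hw : wfB c = true)
    (h : (addP c t k o).adjE i j = true) :
    (i < c.N ∧ j < c.N ∧ c.adjE i j = true) ∨ (i = t ∧ ∃ q, q < k ∧ j = c.N + q) ∨
      (j = t ∧ ∃ q, q < k ∧ i = c.N + q) := by
  have hw' : ∀ e ∈ c.E ++ c.Bs, e.1 < c.N ∧ e.2 < c.N := by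
    intro e he
    have h1 := List.all_eq_true.1 hw e he
    rw [Bool.and_eq_true, decide_eq_true_eq, decide_eq_true_eq] at h1
    exact h1
  have key : ∀ a b, (a, b) ∈ c.E ∨ (a, b) ∈ c.Bs ++ (List.range k).map (fun j => (t, c.N + j)) →
      ((a, b) ∈ c.E ++ c.Bs) ∨ (a = t ∧ ∃ q, q < k ∧ b = c.N + q) := by
    intro a b hab
    rcases hab with h1 | h1
    · exact Or.inl (List.mem_append_left _ h1)
    · rw [List.mem_append] at h1
      rcases h1 with h1 | h1
      · exact Or.inl (List.mem_append_right _ h1)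
      · obtain ⟨q, hq, he⟩ := List.mem_map.1 h1
        rw [Prod.mk.injEq] at he
        exact Or.inr ⟨he.1.symm, q, List.mem_range.1 hq, he.2.symm⟩
  have fin : ∀ a b, (a, b) ∈ c.E ++ c.Bs → c.adjE a b = true ∧ c.adjE b a = true := by
    intro a b hab
    unfold Cfg.adjE
    simp only [Bool.or_eq_true, List.contains_iff_mem]
    rw [List.mem_append] at hab
    rcases hab with h1 | h1
    · exact ⟨Or.inl (Or.inl (Or.inl h1)), Or.inl (Or.inl (Or.inr h1))⟩
    · exact ⟨Or.inl (Or.inr h1), Or.inr h1⟩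
  unfold Cfg.adjE at h
  simp only [Bool.or_eq_true, List.contains_iff_mem] at h
  have h' : ((i, j) ∈ c.E ∨ (i, j) ∈ c.Bs ++ (List.range k).map (fun j => (t, c.N + j))) ∨
      ((j, i) ∈ c.E ∨ (j, i) ∈ c.Bs ++ (List.range k).map (fun j => (t, c.N + j))) := by
    rcases h with ((h | h) | h) | h
    · exact Or.inl (Or.inl h)
    · exact Or.inr (Or.inl h)
    · exact Or.inl (Or.inr h)
    · exact Or.inr (Or.inr h)
  rcases h' with h1 | h1
  · rcases key i j h1 with h2 | h2
    · exact Or.inl ⟨(hw' _ h2).1, (hw' _ h2).2, (fin i j h2).1⟩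
    · exact Or.inr (Or.inl h2)
  · rcases key j i h1 with h2 | h2
    · exact Or.inl ⟨(hw' _ h2).2, (hw' _ h2).1, (fin j i h2).2⟩
    · exact Or.inr (Or.inr h2)

theorem addP_ok {c : Cfg} {fl : ℕ → Bool} {t k o : ℕ} (hx : Flx k o) (hw : wfB c = true)
    (htT : c.isT t = true) (hts : c.sm t = false) (htf : fl t = true) (h : c.ListOKF fl) :
    (addP c t k o).ListOKF (fun i => fl i && !decide (i = t)) := by
  classical
  intro ψ L ω h1 h2 h3 h4 h5
  have hN := addP_N c t k o
  have ht : c.nc ≤ t ∧ t < c.N := by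
    unfold Cfg.isT at htT
    rw [Bool.and_eq_true, decide_eq_true_eq, decide_eq_true_eq] at htT
    exact htT
  have hT : ∀ i, c.nc ≤ i → i < c.N + k → (addP c t k o).isT i = true := by
    intro i hi hi'
    unfold Cfg.isT
    rw [Bool.and_eq_true, decide_eq_true_eq, decide_eq_true_eq, hN]
    exact ⟨hi, hi'⟩
  have hT' : ∀ i, c.isT i = true → c.nc ≤ i ∧ i < c.N := by
    intro i hi
    unfold Cfg.isT at hi
    rw [Bool.and_eq_true, decide_eq_true_eq, decide_eq_true_eq] at hi
    exact hi
  have hcT : ∀ i, c.nc ≤ i → i < c.N → c.isT i = true := by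
    intro i hi hi'
    unfold Cfg.isT
    rw [Bool.and_eq_true, decide_eq_true_eq, decide_eq_true_eq]
    exact ⟨hi, hi'⟩
  have hTT : ∀ i, (addP c t k o).isT i = true → c.nc ≤ i ∧ i < c.N + k := by
    intro i hi
    unfold Cfg.isT at hi
    rw [Bool.and_eq_true, decide_eq_true_eq, decide_eq_true_eq, hN] at hi
    exact hi
  have smt : (addP c t k o).sm t = true := by
    show (decide (t = t) || decide (c.N ≤ t) || c.sm t) = true
    simp
  have smN : ∀ j, (addP c t k o).sm (c.N + j) = true := by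
    intro j
    show (decide (c.N + j = t) || decide (c.N ≤ c.N + j) || c.sm (c.N + j)) = true
    simp
  have smo : ∀ i, i ≠ t → i < c.N → (addP c t k o).sm i = c.sm i := by
    intro i hi hi'
    show (decide (i = t) || decide (c.N ≤ i) || c.sm i) = c.sm i
    rw [decide_eq_false hi, decide_eq_false (not_le.2 hi')]
    simp
  have outo : ∀ i, i ≠ t → i < c.N → (addP c t k o).outs i = c.outs i := by
    intro i hi hi'
    show (if i = t then o else if c.N ≤ i then 2 else c.outs i) = c.outs i
    rw [if_neg hi, if_neg (not_le.2 hi')]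
  have outt : (addP c t k o).outs t = o := by
    show (if t = t then o else if c.N ≤ t then 2 else c.outs t) = o
    rw [if_pos rfl]
  have outN : ∀ j, (addP c t k o).outs (c.N + j) = 2 := by
    intro j
    show (if c.N + j = t then o else if c.N ≤ c.N + j then 2 else c.outs (c.N + j)) = 2
    rw [if_neg (by omega), if_pos (by omega)]
  -- the other pair
  obtain ⟨w, w1, w2, w3, w4⟩ := hx (ψ t) (L t) (fun j => ψ (c.N + j)) (fun j => L (c.N + j))
    (h1 t (by rw [hN]; omega)) (h3 t (hT t ht.1 (by omega)) smt).1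
    (by
      have h6 := (h3 t (hT t ht.1 (by omega)) smt).2
      rw [outt] at h6
      exact h6)
    (by
      intro j hj
      have h6 := h3 (c.N + j) (hT _ (by have := ht.1; have := ht.2; omega) (by omega)) (smN j)
      have h7 := h6.2
      rw [outN] at h7
      refine ⟨h1 _ (by rw [hN]; omega), h6.1, by omega, ?_⟩
      exact h2 t (c.N + j) (by rw [hN]; omega) (by rw [hN]; omega)
        (Or.inr ⟨hT t ht.1 (by omega), hT _ (by have := ht.1; have := ht.2; omega) (by omega),
          addP_new hj⟩))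
  choose! p p1 p2 p3 using w4
  obtain ⟨χ, g1, g2, g3, g4, g5, g6⟩ := h ψ L (fun i => if i = t then w else ω i)
    (fun i hi => h1 i (by rw [hN]; omega))
    (by
      rintro i j hi hj (hij | ⟨hi', hj', hij⟩)
      · exact h2 i j (by rw [hN]; omega) (by rw [hN]; omega) (Or.inl hij)
      · have e1 := hT' i hi'
        have e2 := hT' j hj'
        exact h2 i j (by rw [hN]; omega) (by rw [hN]; omega)
          (Or.inr ⟨hT i e1.1 (by omega), hT j e2.1 (by omega), addP_adjE hij⟩))
    (by
      intro i hi hs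
      have hit : i ≠ t := by
        rintro rfl
        rw [hts] at hs
        exact absurd hs (by decide)
      have e1 := hT' i hi
      have e2 := h3 i (hT i e1.1 (by omega)) (by rw [smo i hit e1.2]; exact hs)
      rw [outo i hit e1.2] at e2
      exact e2)
    (by
      intro r hr
      have hrt : r ≠ t := by omega
      have e1 := h4 r hr
      rw [outo r hrt (by have := ht.1; have := ht.2; omega)] at e1
      exact e1)
    (by
      intro i hi hs hf
      have e1 := hT' i hi
      by_cases hit : i = t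
      · subst hit
        simp only [if_true]
        exact ⟨w1, w2⟩
      · simp only [if_neg hit]
        refine h5 i (hT i e1.1 (by omega)) (by rw [smo i hit e1.2]; exact hs) ?_
        show (fl i && !decide (i = t)) = true
        rw [hf, decide_eq_false hit]
        rfl)
  have hχt : χ t = ψ t ∨ χ t = w := by
    have e1 := g3 t htT hts htf
    simp only [if_true] at e1
    exact e1
  set η : ℕ → Finset (Fin 7) := fun i => if c.N ≤ i then
    (if χ t = ψ t then ψ i else p (i - c.N)) else χ i with hη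
  have ηo : ∀ i, i < c.N → η i = χ i := by
    intro i hi
    show (if c.N ≤ i then _ else χ i) = χ i
    rw [if_neg (not_le.2 hi)]
  have ηN : ∀ j, j < k → (η (c.N + j) = ψ (c.N + j) ∧ χ t = ψ t) ∨
      (η (c.N + j) = p j ∧ χ t = w) := by
    intro j hj
    by_cases h6 : χ t = ψ t
    · left
      refine ⟨?_, h6⟩
      show (if c.N ≤ c.N + j then (if χ t = ψ t then ψ (c.N + j) else _) else _) = _
      rw [if_pos (by omega), if_pos h6]
    · right
      refine ⟨?_, hχt.resolve_left h6⟩
      show (if c.N ≤ c.N + j then (if χ t = ψ t then _ else p (c.N + j - c.N)) else _) = _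
      rw [if_pos (by omega), if_neg h6, Nat.add_sub_cancel_left]
  have ηd : ∀ j, j < k → Disjoint (η t) (η (c.N + j)) := by
    intro j hj
    rw [ηo t ht.2]
    rcases ηN j hj with ⟨e1, e2⟩ | ⟨e1, e2⟩
    · rw [e1, e2]
      exact h2 t (c.N + j) (by rw [hN]; omega) (by rw [hN]; omega)
        (Or.inr ⟨hT t ht.1 (by omega), hT _ (by have := ht.1; have := ht.2; omega) (by omega),
          addP_new hj⟩)
    · rw [e1, e2]
      exact p3 j hj
  refine ⟨η, ?_, ?_, ?_, ?_, ?_, ?_⟩
  · intro i hi
    rw [hN] at hi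
    by_cases h6 : i < c.N
    · rw [ηo i h6]
      exact g1 i h6
    · obtain ⟨j, rfl⟩ := Nat.exists_eq_add_of_le (not_lt.1 h6)
      rcases ηN j (by omega) with ⟨e1, _⟩ | ⟨e1, _⟩
      · rw [e1]
        exact h1 _ (by rw [hN]; exact hi)
      · rw [e1]
        exact p1 j (by omega)
  · intro i hi hs hf
    have e1 := hTT i hi
    have hit : i ≠ t := by
      rintro rfl
      rw [smt] at hs
      exact absurd hs (by decide)
    have hiN : i < c.N := by
      by_contra h6
      obtain ⟨j, rfl⟩ := Nat.exists_eq_add_of_le (not_lt.1 h6)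
      rw [smN j] at hs
      exact absurd hs (by decide)
    rw [ηo i hiN]
    rw [smo i hit hiN] at hs
    refine g2 i (hcT i e1.1 hiN) hs ?_
    have hf' : (fl i && !decide (i = t)) = false := hf
    rw [decide_eq_false hit] at hf'
    simpa using hf'
  · intro i hi hs hf
    have e1 := hTT i hi
    have hit : i ≠ t := by
      rintro rfl
      rw [smt] at hs
      exact absurd hs (by decide)
    have hiN : i < c.N := by
      by_contra h6
      obtain ⟨j, rfl⟩ := Nat.exists_eq_add_of_le (not_lt.1 h6)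
      rw [smN j] at hs
      exact absurd hs (by decide)
    rw [ηo i hiN]
    rw [smo i hit hiN] at hs
    have e2 := g3 i (hcT i e1.1 hiN) hs (by
      have hf' : (fl i && !decide (i = t)) = true := hf
      rw [decide_eq_false hit] at hf'
      simpa using hf')
    simp only [if_neg hit] at e2
    exact e2
  · intro i hi hs
    have e1 := hTT i hi
    by_cases hit : i = t
    · subst hit
      rw [ηo i ht.2]
      rcases hχt with e2 | e2
      · rw [e2]
        exact (h3 i hi smt).1
      · rw [e2]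
        exact w3
    · by_cases hiN : i < c.N
      · rw [ηo i hiN]
        rw [smo i hit hiN] at hs
        exact g4 i (hcT i e1.1 hiN) hs
      · obtain ⟨j, rfl⟩ := Nat.exists_eq_add_of_le (not_lt.1 hiN)
        rcases ηN j (by omega) with ⟨e2, _⟩ | ⟨e2, _⟩
        · rw [e2]
          exact (h3 _ hi hs).1
        · rw [e2]
          exact p2 j (by omega)
  · intro r hr
    have hr' : r < c.nc := hr
    rw [ηo r (by have := ht.1; have := ht.2; omega)]
    exact g5 r hr
  · intro i j hi hj hij
    rcases addP_cases hw hij with ⟨e1, e2, e3⟩ | ⟨rfl, q, hq, rfl⟩ | ⟨rfl, q, hq, rfl⟩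
    · rw [ηo i e1, ηo j e2]
      exact g6 i j e1 e2 e3
    · exact ηd q hq
    · exact (ηd q hq).symm

/-- no flexible terminals -/
theorem ok_of_F {c : Cfg} {fl : ℕ → Bool} (h : c.ListOKF fl)
    (hf : ∀ i, i < c.N → c.sm i = false → fl i = false) : c.ListOK := by
  have hT' : ∀ i, c.isT i = true → i < c.N := by
    intro i hi
    unfold Cfg.isT at hi
    rw [Bool.and_eq_true, decide_eq_true_eq, decide_eq_true_eq] at hi
    exact hi.2
  intro ψ L h1 h2 h3 h4
  obtain ⟨χ, g1, g2, _, g4, g5, g6⟩ := h ψ L (fun _ => ∅) h1 h2 h3 h4 (by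
    intro t ht hs hfl
    rw [hf t (hT' t ht) hs] at hfl
    exact absurd hfl (by decide))
  exact ⟨χ, g1, fun t ht hs => g2 t ht hs (hf t (hT' t ht) hs), g4, g5, g6⟩

end Pool.Agent.Lib.SVW
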