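import Pool.Agent.Lib.SVW.LocW
import Pool.Agent.Lib.SVW.Flex

/-!
# SVW.FxData: local configurations with flexible terminals

Generated (helper75).
-/

set_option autoImplicit false
set_option linter.unusedSectionVars false
set_option maxRecDepth 100000

namespace Pool.Agent.Lib.SVW.LC

open Pool.Agent.Lib.SVX Pool.Agent.Lib.SVY

/-- 5-vertex g in two P3-triangles, both third vertices of degree 5 with a weak neighbour of degree 3; names: 0=v1 1=g 2=v2 3=z1 4=n 5=z2 6=y1 7=y2 8=m1 9=m2 -/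
def gE21_0 : Cfg where
  nc := 3
  nt := 5
  E := [(0, 1), (0, 6), (1, 6), (1, 2), (2, 7), (1, 7), (0, 3), (1, 4), (2, 5)]
  Bs := []
  outs := fun i => if i == 3 || i == 4 || i == 5 then 2 else 0
  sm := fun i => i == 3 || i == 4 || i == 5
  keep := []
  pi := fun i => i
  NE := []
  al := []

/-- the flexible terminals -/
def gE21_0_fl (i : ℕ) : Bool := i == 6 || i == 7

/-- with the weak neighbours -/
def gE21 : Cfg := addP (addP gE21_0 6 1 2) 7 1 2

def gE21P (i : ℕ) : ℕ := i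

theorem gE21_adm : gE21.adm gE21P = true := by decide

theorem gE21_lchk : Loc.lchk gE21 [(0, 3), (1, 4), (2, 5), (6, 8), (7, 9)] [(0, 7), (6, 7)] [] 3 = true := by decide

theorem gE21_echk : Loc.echk gE21 [(0, 3), (1, 4), (2, 5), (6, 8), (7, 9)] [(0, 7), (6, 7)] [] [] 3 = true := by decide

/-- 5-vertex g, (v1,g,y) y small, (c,g,b) c centre, b of degree 5; names: 0=v1 1=g 2=c 3=z1 4=n 5=v3 6=v4 7=y 8=b 9=m1 -/
def gE23e_0 : Cfg where
  nc := 3
  nt := 6
  E := [(0, 1), (0, 7), (1, 7), (1, 2), (2, 8), (1, 8), (1, 4), (2, 5), (2, 6), (0, 3)]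
  Bs := []
  outs := fun i => if i == 3 || i == 4 || i == 5 || i == 6 || i == 7 then 2 else 0
  sm := fun i => i == 3 || i == 4 || i == 5 || i == 6 || i == 7
  keep := []
  pi := fun i => i
  NE := []
  al := []

/-- the flexible terminals -/
def gE23e_0_fl (i : ℕ) : Bool := i == 8

/-- with the weak neighbours -/
def gE23e : Cfg := addP gE23e_0 8 1 2

def gE23eP (i : ℕ) : ℕ := i

theorem gE23e_adm : gE23e.adm gE23eP = true := by decide

theorem gE23e_lchk : Loc.lchk gE23e [(1, 4), (2, 5), (2, 6), (0, 3), (8, 9)] [(0, 2), (0, 8), (5, 6)] [] 2 = true := by decide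

theorem gE23e_echk : Loc.echk gE23e [(1, 4), (2, 5), (2, 6), (0, 3), (8, 9)] [(0, 2), (0, 8), (5, 6)] [] [] 2 = true := by decide

/-- 5-vertex g, (v1,g,y) y of degree 5, (c,g,b) c centre, b small; names: 0=v1 1=g 2=c 3=z1 4=n 5=v3 6=v4 7=b 8=y 9=m1 -/
def gE26_0 : Cfg where
  nc := 3
  nt := 6
  E := [(0, 1), (0, 8), (1, 8), (1, 2), (2, 7), (1, 7), (1, 4), (2, 5), (2, 6), (0, 3)]
  Bs := []
  outs := fun i => if i == 3 || i == 4 || i == 5 || i == 6 || i == 7 then 2 else 0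
  sm := fun i => i == 3 || i == 4 || i == 5 || i == 6 || i == 7
  keep := []
  pi := fun i => i
  NE := []
  al := []

/-- the flexible terminals -/
def gE26_0_fl (i : ℕ) : Bool := i == 8

/-- with the weak neighbours -/
def gE26 : Cfg := addP gE26_0 8 1 2

def gE26P (i : ℕ) : ℕ := i

theorem gE26_adm : gE26.adm gE26P = true := by decide

theorem gE26_lchk : Loc.lchk gE26 [(1, 4), (2, 5), (2, 6), (0, 3), (8, 9)] [(0, 2), (2, 8), (5, 6)] [] 2 = true := by decide

theorem gE26_echk : Loc.echk gE26 [(1, 4), (2, 5), (2, 6), (0, 3), (8, 9)] [(0, 2), (2, 8), (5, 6)] [] [] 2 = true := by decide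

/-- P3 (v;g,h), g in a second P3, h with a centre c and b of degree 5; names: 0=v 1=g 2=h 3=v1 4=c 5=z 6=n 7=m 8=z1 9=p 10=q 11=u1 12=b 13=m1 -/
def gE24e_0 : Cfg where
  nc := 5
  nt := 8
  E := [(0, 1), (0, 2), (1, 2), (1, 3), (3, 11), (1, 11), (2, 4), (4, 12), (2, 12), (0, 5), (1, 6), (2, 7), (3, 8), (4, 9), (4, 10)]
  Bs := []
  outs := fun i => if i == 5 || i == 6 || i == 7 || i == 8 || i == 9 || i == 10 then 2 else 0
  sm := fun i => i == 5 || i == 6 || i == 7 || i == 8 || i == 9 || i == 10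
  keep := []
  pi := fun i => i
  NE := []
  al := []

/-- the flexible terminals -/
def gE24e_0_fl (i : ℕ) : Bool := i == 12

/-- with the weak neighbours -/
def gE24e : Cfg := addP gE24e_0 12 1 2

def gE24eP (i : ℕ) : ℕ := i

theorem gE24e_adm : gE24e.adm gE24eP = true := by decide

theorem gE24e_lchk : Loc.lchk gE24e [(0, 5), (1, 6), (2, 7), (3, 8), (4, 9), (4, 10), (12, 13)] [(0, 12), (1, 12), (2, 3), (2, 11), (9, 10)] [(8, 9), (8, 10), (8, 13)] 3 = true := by decide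

theorem gE24e_echk : Loc.echk gE24e [(0, 5), (1, 6), (2, 7), (3, 8), (4, 9), (4, 10), (12, 13)] [(0, 12), (1, 12), (2, 3), (2, 11), (9, 10)] [(8, 9), (8, 10), (8, 13)] [] 3 = true := by decide

/-- P1 centre c, K, b of degree 5 with one weak neighbour; names: 0=c 1=K 2=p 3=q 4=n1 5=n2 6=n3 7=b 8=m1 -/
def gAKe_0 : Cfg where
  nc := 2
  nt := 6
  E := [(0, 1), (0, 7), (1, 7), (0, 2), (0, 3), (1, 4), (1, 5), (1, 6)]
  Bs := []
  outs := fun i => if i == 2 || i == 3 || i == 4 || i == 5 || i == 6 then 2 else 0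
  sm := fun i => i == 2 || i == 3 || i == 4 || i == 5 || i == 6
  keep := []
  pi := fun i => i
  NE := []
  al := []

/-- the flexible terminals -/
def gAKe_0_fl (i : ℕ) : Bool := i == 7

/-- with the weak neighbours -/
def gAKe : Cfg := addP gAKe_0 7 1 2

def gAKeP (i : ℕ) : ℕ := i

theorem gAKe_adm : gAKe.adm gAKeP = true := by decide

theorem gAKe_lchk : Loc.lchk gAKe [(0, 2), (0, 3), (1, 4), (1, 5), (1, 6), (7, 8)] [(2, 3), (4, 5), (4, 6), (5, 6)] [] 1 = true := by decide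

theorem gAKe_echk : Loc.echk gAKe [(0, 2), (0, 3), (1, 4), (1, 5), (1, 6), (7, 8)] [(2, 3), (4, 5), (4, 6), (5, 6)] [] [] 1 = true := by decide

/-- P1 centre c, K, b of degree 5 with three weak neighbours; names: 0=c 1=K 2=p 3=q 4=n1 5=n2 6=n3 7=b 8=m1 9=m2 10=m3 -/
def gAKk_0 : Cfg where
  nc := 2
  nt := 6
  E := [(0, 1), (0, 7), (1, 7), (0, 2), (0, 3), (1, 4), (1, 5), (1, 6)]
  Bs := []
  outs := fun i => if i == 2 || i == 3 || i == 4 || i == 5 || i == 6 then 2 else 0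
  sm := fun i => i == 2 || i == 3 || i == 4 || i == 5 || i == 6
  keep := []
  pi := fun i => i
  NE := []
  al := []

/-- the flexible terminals -/
def gAKk_0_fl (i : ℕ) : Bool := i == 7

/-- with the weak neighbours -/
def gAKk : Cfg := addP gAKk_0 7 3 0

def gAKkP (i : ℕ) : ℕ := i

theorem gAKk_adm : gAKk.adm gAKkP = true := by decide

theorem gAKk_lchk : Loc.lchk gAKk [(0, 2), (0, 3), (1, 4), (1, 5), (1, 6), (7, 8), (7, 9), (7, 10)] [(2, 3), (4, 5), (4, 6), (5, 6), (8, 9), (8, 10), (9, 10)] [] 1 = true := by decide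

theorem gAKk_echk : Loc.echk gAKk [(0, 2), (0, 3), (1, 4), (1, 5), (1, 6), (7, 8), (7, 9), (7, 10)] [(2, 3), (4, 5), (4, 6), (5, 6), (8, 9), (8, 10), (9, 10)] [] [] 1 = true := by decide

end Pool.Agent.Lib.SVW.LC
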