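import Pool.Agent.Lib.SVX.ChkF
import Pool.Agent.Lib.SVW.FxData

/-!
# SVW.FxOk: `ListOK` of the configurations (kernel check)
-/

set_option autoImplicit false
set_option maxRecDepth 100000

namespace Pool.Agent.Lib.SVW.LC

open Pool.Agent.Lib.SVX

/-- left strip of `gE23e_0` -/
def gE23e_0_l : List Chk.St := [.ed 0 18, .ed 18 2, .par 3 5 [], .par 3 6 [], .vf ⟨2, false, [], [(5, true, []), (6, true, [])]⟩, .par 2 8 [], .pw 17 8, .tx 2 1 8 17, .par 3 4 [], .vf ⟨1, false, [], [(4, true, [])]⟩]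

/-- right strip of `gE23e_0` -/
def gE23e_0_r : List Chk.St := [.vf ⟨0, false, [], [(3, true, [])]⟩, .par 3 7 [], .tr 0 1 ⟨7, true, [], []⟩]

/-- nodes of `gE23e_0` -/
def gE23e_0_n : List (ℕ × ℕ × List ℕ) := []

/-- left strip of `gE26_0` -/
def gE26_0_l : List Chk.St := [.par 2 8 [], .pw 17 8, .tx 1 0 8 17, .par 3 3 [], .vf ⟨0, false, [], [(3, true, [])]⟩, .ed 0 18, .ed 18 2, .par 3 5 [], .par 3 6 [], .vf ⟨2, false, [], [(5, true, []), (6, true, [])]⟩]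

/-- right strip of `gE26_0` -/
def gE26_0_r : List Chk.St := [.vf ⟨1, false, [], [(4, true, [])]⟩, .par 3 7 [], .tr 1 2 ⟨7, true, [], []⟩]

/-- nodes of `gE26_0` -/
def gE26_0_n : List (ℕ × ℕ × List ℕ) := []

/-- left strip of `gAKe_0` -/
def gAKe_0_l : List Chk.St := [.par 3 2 [], .par 3 3 [], .vf ⟨0, false, [], [(2, true, []), (3, true, [])]⟩, .ed 0 16, .ed 16 1, .par 3 4 [], .par 3 5 [], .par 3 6 [], .vf ⟨1, false, [], [(4, true, []), (5, true, []), (6, true, [])]⟩]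

/-- right strip of `gAKe_0` -/
def gAKe_0_r : List Chk.St := [.pw 15 7, .tx 0 1 7 15]

/-- nodes of `gAKe_0` -/
def gAKe_0_n : List (ℕ × ℕ × List ℕ) := []

/-- left strip of `gAKk_0` -/
def gAKk_0_l : List Chk.St := [.par 3 2 [], .par 3 3 [], .vf ⟨0, false, [], [(2, true, []), (3, true, [])]⟩, .ed 0 16, .ed 16 1, .par 3 4 [], .par 3 5 [], .par 3 6 [], .vf ⟨1, false, [], [(4, true, []), (5, true, []), (6, true, [])]⟩]

/-- right strip of `gAKk_0` -/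
def gAKk_0_r : List Chk.St := [.pw 15 7, .tx 0 1 7 15]

/-- nodes of `gAKk_0` -/
def gAKk_0_n : List (ℕ × ℕ × List ℕ) := []

/-- all checks, one after the other -/
theorem fx_seq :
    (gE21_0.ListOKF gE21_0_fl) ∧
    (Chk.ringP gE23e_0_l 3 gE23e_0_r gE23e_0_n [7, 11, 13, 14, 19, 21, 22, 25, 26] = true) ∧
    (Chk.ringP gE23e_0_l 3 gE23e_0_r gE23e_0_n [28, 35, 37, 38, 41, 42, 44, 49, 50] = true) ∧
    (Chk.ringP gE23e_0_l 3 gE23e_0_r gE23e_0_n [52, 56, 67, 69, 70, 73, 74, 76, 81] = true) ∧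
    (Chk.ringP gE23e_0_l 3 gE23e_0_r gE23e_0_n [82, 84, 88, 97, 98, 100, 104, 112] = true) ∧
    (Chk.ringP gE26_0_l 4 gE26_0_r gE26_0_n [7, 11, 13, 14, 19, 21, 22, 25, 26] = true) ∧
    (Chk.ringP gE26_0_l 4 gE26_0_r gE26_0_n [28, 35, 37, 38, 41, 42, 44, 49, 50] = true) ∧
    (Chk.ringP gE26_0_l 4 gE26_0_r gE26_0_n [52, 56, 67, 69, 70, 73, 74, 76, 81] = true) ∧
    (Chk.ringP gE26_0_l 4 gE26_0_r gE26_0_n [82, 84, 88, 97, 98, 100, 104, 112] = true) ∧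
    (Chk.ringP gAKe_0_l 7 gAKe_0_r gAKe_0_n [3, 5, 6, 9, 10, 12] = true) ∧
    (Chk.ringP gAKe_0_l 7 gAKe_0_r gAKe_0_n [17, 18, 20, 24, 33, 34] = true) ∧
    (Chk.ringP gAKe_0_l 7 gAKe_0_r gAKe_0_n [36, 40, 48, 65, 66, 68] = true) ∧
    (Chk.ringP gAKe_0_l 7 gAKe_0_r gAKe_0_n [72, 80, 96] = true) ∧
    (Chk.ringP gAKk_0_l 7 gAKk_0_r gAKk_0_n [3, 5, 6, 9, 10, 12] = true) ∧
    (Chk.ringP gAKk_0_l 7 gAKk_0_r gAKk_0_n [17, 18, 20, 24, 33, 34] = true) ∧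
    (Chk.ringP gAKk_0_l 7 gAKk_0_r gAKk_0_n [36, 40, 48, 65, 66, 68] = true) ∧
    (Chk.ringP gAKk_0_l 7 gAKk_0_r gAKk_0_n [72, 80, 96] = true) :=
  ⟨(Chk.ringD_cfgFZ (a := 0) (b := 2)
  (l := [.par 3 3 [], .vf ⟨0, false, [], [(3, true, [])]⟩, .ed 0 16, .ed 16 2, .par 3 5 [], .vf ⟨2, false, [], [(5, true, [])]⟩, .par 2 7 [], .pw 15 7, .tx 2 1 7 15, .par 3 4 [], .vf ⟨1, false, [], [(4, true, [])]⟩])
  (r := [.par 2 6 [], .pw 14 6, .tx 0 1 6 14])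
  (nodes := [])
  (u0 := 0) (by decide +kernel)),
  (by decide +kernel),
  (by decide +kernel),
  (by decide +kernel),
  (by decide +kernel),
  (by decide +kernel),
  (by decide +kernel),
  (by decide +kernel),
  (by decide +kernel),
  (by decide +kernel),
  (by decide +kernel),
  (by decide +kernel),
  (by decide +kernel),
  (by decide +kernel),
  (by decide +kernel),
  (by decide +kernel),
  (by decide +kernel)⟩

theorem gE21_0_okF : gE21_0.ListOKF gE21_0_fl := fx_seq.1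

theorem gE23e_0_p0 : Chk.ringP gE23e_0_l 3 gE23e_0_r gE23e_0_n [7, 11, 13, 14, 19, 21, 22, 25, 26] = true := fx_seq.2.1

theorem gE23e_0_p1 : Chk.ringP gE23e_0_l 3 gE23e_0_r gE23e_0_n [28, 35, 37, 38, 41, 42, 44, 49, 50] = true := fx_seq.2.2.1

theorem gE23e_0_p2 : Chk.ringP gE23e_0_l 3 gE23e_0_r gE23e_0_n [52, 56, 67, 69, 70, 73, 74, 76, 81] = true := fx_seq.2.2.2.1

theorem gE23e_0_p3 : Chk.ringP gE23e_0_l 3 gE23e_0_r gE23e_0_n [82, 84, 88, 97, 98, 100, 104, 112] = true := fx_seq.2.2.2.2.1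

theorem gE26_0_p0 : Chk.ringP gE26_0_l 4 gE26_0_r gE26_0_n [7, 11, 13, 14, 19, 21, 22, 25, 26] = true := fx_seq.2.2.2.2.2.1

theorem gE26_0_p1 : Chk.ringP gE26_0_l 4 gE26_0_r gE26_0_n [28, 35, 37, 38, 41, 42, 44, 49, 50] = true := fx_seq.2.2.2.2.2.2.1

theorem gE26_0_p2 : Chk.ringP gE26_0_l 4 gE26_0_r gE26_0_n [52, 56, 67, 69, 70, 73, 74, 76, 81] = true := fx_seq.2.2.2.2.2.2.2.1

theorem gE26_0_p3 : Chk.ringP gE26_0_l 4 gE26_0_r gE26_0_n [82, 84, 88, 97, 98, 100, 104, 112] = true := fx_seq.2.2.2.2.2.2.2.2.1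

theorem gAKe_0_p0 : Chk.ringP gAKe_0_l 7 gAKe_0_r gAKe_0_n [3, 5, 6, 9, 10, 12] = true := fx_seq.2.2.2.2.2.2.2.2.2.1

theorem gAKe_0_p1 : Chk.ringP gAKe_0_l 7 gAKe_0_r gAKe_0_n [17, 18, 20, 24, 33, 34] = true := fx_seq.2.2.2.2.2.2.2.2.2.2.1

theorem gAKe_0_p2 : Chk.ringP gAKe_0_l 7 gAKe_0_r gAKe_0_n [36, 40, 48, 65, 66, 68] = true := fx_seq.2.2.2.2.2.2.2.2.2.2.2.1

theorem gAKe_0_p3 : Chk.ringP gAKe_0_l 7 gAKe_0_r gAKe_0_n [72, 80, 96] = true := fx_seq.2.2.2.2.2.2.2.2.2.2.2.2.1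

theorem gAKk_0_p0 : Chk.ringP gAKk_0_l 7 gAKk_0_r gAKk_0_n [3, 5, 6, 9, 10, 12] = true := fx_seq.2.2.2.2.2.2.2.2.2.2.2.2.2.1

theorem gAKk_0_p1 : Chk.ringP gAKk_0_l 7 gAKk_0_r gAKk_0_n [17, 18, 20, 24, 33, 34] = true := fx_seq.2.2.2.2.2.2.2.2.2.2.2.2.2.2.1

theorem gAKk_0_p2 : Chk.ringP gAKk_0_l 7 gAKk_0_r gAKk_0_n [36, 40, 48, 65, 66, 68] = true := fx_seq.2.2.2.2.2.2.2.2.2.2.2.2.2.2.2.1

theorem gAKk_0_p3 : Chk.ringP gAKk_0_l 7 gAKk_0_r gAKk_0_n [72, 80, 96] = true := fx_seq.2.2.2.2.2.2.2.2.2.2.2.2.2.2.2.2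

theorem gE23e_0_okF : gE23e_0.ListOKF gE23e_0_fl := Chk.ringP_cfgFZ (a := 0) (b := 2) (u0 := 0) (s := 3) (dis := [])
  (by decide +kernel) (by decide +kernel)
  (Chk.AllP_cons gE23e_0_p0 (Chk.AllP_cons gE23e_0_p1 (Chk.AllP_cons gE23e_0_p2 (Chk.AllP_cons gE23e_0_p3 Chk.AllP_nil))))

theorem gE26_0_okF : gE26_0.ListOKF gE26_0_fl := Chk.ringP_cfgFZ (a := 0) (b := 2) (u0 := 1) (s := 3) (dis := [])
  (by decide +kernel) (by decide +kernel)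
  (Chk.AllP_cons gE26_0_p0 (Chk.AllP_cons gE26_0_p1 (Chk.AllP_cons gE26_0_p2 (Chk.AllP_cons gE26_0_p3 Chk.AllP_nil))))

theorem gAKe_0_okF : gAKe_0.ListOKF gAKe_0_fl := Chk.ringP_cfgFZ (a := 0) (b := 1) (u0 := 0) (s := 2) (dis := [])
  (by decide +kernel) (by decide +kernel)
  (Chk.AllP_cons gAKe_0_p0 (Chk.AllP_cons gAKe_0_p1 (Chk.AllP_cons gAKe_0_p2 (Chk.AllP_cons gAKe_0_p3 Chk.AllP_nil))))

theorem gAKk_0_okF : gAKk_0.ListOKF gAKk_0_fl := Chk.ringP_cfgFZ (a := 0) (b := 1) (u0 := 0) (s := 2) (dis := [])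
  (by decide +kernel) (by decide +kernel)
  (Chk.AllP_cons gAKk_0_p0 (Chk.AllP_cons gAKk_0_p1 (Chk.AllP_cons gAKk_0_p2 (Chk.AllP_cons gAKk_0_p3 Chk.AllP_nil))))

end Pool.Agent.Lib.SVW.LC
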