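import Pool.Agent.Lib.SVW.FxOk

/-!
# SVW.FxThm: reducible local configurations

Generated (helper75).
-/

set_option autoImplicit false
set_option linter.unusedSectionVars false
set_option maxRecDepth 100000

namespace Pool.Agent.Lib.SVW.LC

open Finset Pool.Agent.Lib.SVT Pool.Agent.Lib.SVX Pool.Agent.Lib.SVY

variable {V : Type*} [Fintype V] [DecidableEq V] {G : SimpleGraph V} {B : Finset V}
variable {m : ℕ} {F : Fin m → Finset (Sym2 V)}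

theorem gE21_ok : gE21.ListOK := ok_of_F (addP_ok flx12 (by decide) (by decide) (by decide) (by decide) (addP_ok flx12 (by decide) (by decide) (by decide) (by decide) gE21_0_okF)) (by decide)

/-- 5-vertex g in two P3-triangles, both third vertices of degree 5 with a weak neighbour of degree 3 -/
theorem gE21_false (h : MinCE G B) (hF : Faces G F) {v1 g v2 z1 n z2 y1 y2 m1 m2 : V}
    (he1 : G.Adj v1 g) (he2 : G.Adj v1 y1) (he3 : G.Adj g y1) (he4 : G.Adj v2 g)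
    (he5 : G.Adj v2 y2) (he6 : G.Adj g y2) (hw1 : WE G v1 z1) (hw2 : WE G g n) (hw3 : WE G v2 z2)
    (hw4 : WE G y1 m1) (hw5 : WE G y2 m2) (hd1 : v1 ≠ y2) (hd2 : y1 ≠ y2) (hb1 : v1 ∉ B)
    (hb2 : g ∉ B) (hb3 : v2 ∉ B) (hb4 : z1 ∉ B) (hb5 : n ∉ B) (hb6 : z2 ∉ B) (hb7 : y1 ∉ B)
    (hb8 : y2 ∉ B) (hb9 : m1 ∉ B) (hb10 : m2 ∉ B) (hg1 : dg G v1 ≤ 3) (hg2 : dg G g ≤ 5)
    (hg3 : dg G v2 ≤ 3) (hg4 : dg G z1 ≤ 3) (hg5 : dg G n ≤ 3) (hg6 : dg G z2 ≤ 3)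
    (hg7 : dg G y1 ≤ 5) (hg8 : dg G y2 ≤ 5) (hg9 : dg G m1 ≤ 3) (hg10 : dg G m2 ≤ 3) : False := by
  refine SVW.Loc.cfalseW (nm := fun i => [v1, g, v2, z1, n, z2, y1, y2, m1, m2].getD i v1) gE21_adm gE21_lchk gE21_echk
    gE21_ok h hF ?_ ?_ ?_ ?_ ?_ ?_
  · show ∀ e ∈ [(0, 1), (0, 6), (1, 6), (1, 2), (2, 7), (1, 7), (0, 3), (1, 4), (2, 5), (6, 8), (7, 9)], G.Adj _ _
    simp only [List.forall_mem_cons]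
    exact ⟨he1, he2, he3, he4.symm, he5, he6, hw1.1, hw2.1, hw3.1, hw4.1, hw5.1, by simp⟩
  · simp only [List.forall_mem_cons]
    exact ⟨hw1, hw2, hw3, hw4, hw5, by simp⟩
  · simp only [List.forall_mem_cons]
    exact ⟨hd1, hd2, by simp⟩
  · simp
  · simp
  · have hl : Loc.hlist gE21 = [0, 1, 2, 3, 4, 5, 6, 7, 8, 9] := by decide
    rw [hl]
    simp only [List.forall_mem_cons]
    exact ⟨⟨hb1, hg1⟩, ⟨hb2, hg2⟩, ⟨hb3, hg3⟩, ⟨hb4, hg4⟩, ⟨hb5, hg5⟩, ⟨hb6, hg6⟩, ⟨hb7, hg7⟩, ⟨hb8, hg8⟩, ⟨hb9, hg9⟩, ⟨hb10, hg10⟩, by simp⟩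

theorem gE23e_ok : gE23e.ListOK := ok_of_F (addP_ok flx12 (by decide) (by decide) (by decide) (by decide) gE23e_0_okF) (by decide)

/-- 5-vertex g, (v1,g,y) y small, (c,g,b) c centre, b of degree 5 -/
theorem gE23e_false (h : MinCE G B) (hF : Faces G F) {v1 g c z1 n v3 v4 y b m1 : V}
    (he1 : G.Adj v1 g) (he2 : G.Adj v1 y) (he3 : G.Adj g y) (he4 : G.Adj c g) (he5 : G.Adj c b)
    (he6 : G.Adj g b) (hw1 : WE G g n) (hw2 : WE G c v3) (hw3 : WE G c v4) (hw4 : WE G v1 z1)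
    (hw5 : WE G b m1) (hd1 : v1 ≠ c) (hd2 : v1 ≠ b) (hd3 : v3 ≠ v4) (hb1 : v1 ∉ B) (hb2 : g ∉ B)
    (hb3 : c ∉ B) (hb4 : z1 ∉ B) (hb5 : n ∉ B) (hb6 : v3 ∉ B) (hb7 : v4 ∉ B) (hb8 : y ∉ B)
    (hb9 : b ∉ B) (hb10 : m1 ∉ B) (hg1 : dg G v1 ≤ 3) (hg2 : dg G g ≤ 5) (hg3 : dg G c ≤ 4)
    (hg4 : dg G z1 ≤ 3) (hg5 : dg G n ≤ 3) (hg6 : dg G v3 ≤ 3) (hg7 : dg G v4 ≤ 3)
    (hg8 : dg G y ≤ 4) (hg9 : dg G b ≤ 5) (hg10 : dg G m1 ≤ 3) : False := by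
  refine SVW.Loc.cfalseW (nm := fun i => [v1, g, c, z1, n, v3, v4, y, b, m1].getD i v1) gE23e_adm gE23e_lchk gE23e_echk
    gE23e_ok h hF ?_ ?_ ?_ ?_ ?_ ?_
  · show ∀ e ∈ [(0, 1), (0, 7), (1, 7), (1, 2), (2, 8), (1, 8), (1, 4), (2, 5), (2, 6), (0, 3), (8, 9)], G.Adj _ _
    simp only [List.forall_mem_cons]
    exact ⟨he1, he2, he3, he4.symm, he5, he6, hw1.1, hw2.1, hw3.1, hw4.1, hw5.1, by simp⟩
  · simp only [List.forall_mem_cons]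
    exact ⟨hw1, hw2, hw3, hw4, hw5, by simp⟩
  · simp only [List.forall_mem_cons]
    exact ⟨hd1, hd2, hd3, by simp⟩
  · simp
  · simp
  · have hl : Loc.hlist gE23e = [0, 1, 2, 3, 4, 5, 6, 7, 8, 9] := by decide
    rw [hl]
    simp only [List.forall_mem_cons]
    exact ⟨⟨hb1, hg1⟩, ⟨hb2, hg2⟩, ⟨hb3, hg3⟩, ⟨hb4, hg4⟩, ⟨hb5, hg5⟩, ⟨hb6, hg6⟩, ⟨hb7, hg7⟩, ⟨hb8, hg8⟩, ⟨hb9, hg9⟩, ⟨hb10, hg10⟩, by simp⟩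

theorem gE26_ok : gE26.ListOK := ok_of_F (addP_ok flx12 (by decide) (by decide) (by decide) (by decide) gE26_0_okF) (by decide)

/-- 5-vertex g, (v1,g,y) y of degree 5, (c,g,b) c centre, b small -/
theorem gE26_false (h : MinCE G B) (hF : Faces G F) {v1 g c z1 n v3 v4 b y m1 : V}
    (he1 : G.Adj v1 g) (he2 : G.Adj v1 y) (he3 : G.Adj g y) (he4 : G.Adj c g) (he5 : G.Adj c b)
    (he6 : G.Adj g b) (hw1 : WE G g n) (hw2 : WE G c v3) (hw3 : WE G c v4) (hw4 : WE G v1 z1)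
    (hw5 : WE G y m1) (hd1 : v1 ≠ c) (hd2 : c ≠ y) (hd3 : v3 ≠ v4) (hb1 : v1 ∉ B) (hb2 : g ∉ B)
    (hb3 : c ∉ B) (hb4 : z1 ∉ B) (hb5 : n ∉ B) (hb6 : v3 ∉ B) (hb7 : v4 ∉ B) (hb8 : b ∉ B)
    (hb9 : y ∉ B) (hb10 : m1 ∉ B) (hg1 : dg G v1 ≤ 3) (hg2 : dg G g ≤ 5) (hg3 : dg G c ≤ 4)
    (hg4 : dg G z1 ≤ 3) (hg5 : dg G n ≤ 3) (hg6 : dg G v3 ≤ 3) (hg7 : dg G v4 ≤ 3)
    (hg8 : dg G b ≤ 4) (hg9 : dg G y ≤ 5) (hg10 : dg G m1 ≤ 3) : False := by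
  refine SVW.Loc.cfalseW (nm := fun i => [v1, g, c, z1, n, v3, v4, b, y, m1].getD i v1) gE26_adm gE26_lchk gE26_echk
    gE26_ok h hF ?_ ?_ ?_ ?_ ?_ ?_
  · show ∀ e ∈ [(0, 1), (0, 8), (1, 8), (1, 2), (2, 7), (1, 7), (1, 4), (2, 5), (2, 6), (0, 3), (8, 9)], G.Adj _ _
    simp only [List.forall_mem_cons]
    exact ⟨he1, he2, he3, he4.symm, he5, he6, hw1.1, hw2.1, hw3.1, hw4.1, hw5.1, by simp⟩
  · simp only [List.forall_mem_cons]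
    exact ⟨hw1, hw2, hw3, hw4, hw5, by simp⟩
  · simp only [List.forall_mem_cons]
    exact ⟨hd1, hd2, hd3, by simp⟩
  · simp
  · simp
  · have hl : Loc.hlist gE26 = [0, 1, 2, 3, 4, 5, 6, 7, 8, 9] := by decide
    rw [hl]
    simp only [List.forall_mem_cons]
    exact ⟨⟨hb1, hg1⟩, ⟨hb2, hg2⟩, ⟨hb3, hg3⟩, ⟨hb4, hg4⟩, ⟨hb5, hg5⟩, ⟨hb6, hg6⟩, ⟨hb7, hg7⟩, ⟨hb8, hg8⟩, ⟨hb9, hg9⟩, ⟨hb10, hg10⟩, by simp⟩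

theorem gAKe_ok : gAKe.ListOK := ok_of_F (addP_ok flx12 (by decide) (by decide) (by decide) (by decide) gAKe_0_okF) (by decide)

/-- P1 centre c, K, b of degree 5 with one weak neighbour -/
theorem gAKe_false (h : MinCE G B) (hF : Faces G F) {c K p q n1 n2 n3 b m1 : V}
    (he1 : G.Adj c K) (he2 : G.Adj c b) (he3 : G.Adj K b) (hw1 : WE G c p) (hw2 : WE G c q)
    (hw3 : WE G K n1) (hw4 : WE G K n2) (hw5 : WE G K n3) (hw6 : WE G b m1) (hd1 : p ≠ q)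
    (hd2 : n1 ≠ n2) (hd3 : n1 ≠ n3) (hd4 : n2 ≠ n3) (hb1 : c ∉ B) (hb2 : K ∉ B) (hb3 : p ∉ B)
    (hb4 : q ∉ B) (hb5 : n1 ∉ B) (hb6 : n2 ∉ B) (hb7 : n3 ∉ B) (hb8 : b ∉ B) (hb9 : m1 ∉ B)
    (hg1 : dg G c ≤ 4) (hg2 : dg G K ≤ 5) (hg3 : dg G p ≤ 3) (hg4 : dg G q ≤ 3)
    (hg5 : dg G n1 ≤ 3) (hg6 : dg G n2 ≤ 3) (hg7 : dg G n3 ≤ 3) (hg8 : dg G b ≤ 5)
    (hg9 : dg G m1 ≤ 3) : False := by
  refine SVW.Loc.cfalseW (nm := fun i => [c, K, p, q, n1, n2, n3, b, m1].getD i c) gAKe_adm gAKe_lchk gAKe_echk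
    gAKe_ok h hF ?_ ?_ ?_ ?_ ?_ ?_
  · show ∀ e ∈ [(0, 1), (0, 7), (1, 7), (0, 2), (0, 3), (1, 4), (1, 5), (1, 6), (7, 8)], G.Adj _ _
    simp only [List.forall_mem_cons]
    exact ⟨he1, he2, he3, hw1.1, hw2.1, hw3.1, hw4.1, hw5.1, hw6.1, by simp⟩
  · simp only [List.forall_mem_cons]
    exact ⟨hw1, hw2, hw3, hw4, hw5, hw6, by simp⟩
  · simp only [List.forall_mem_cons]
    exact ⟨hd1, hd2, hd3, hd4, by simp⟩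
  · simp
  · simp
  · have hl : Loc.hlist gAKe = [0, 1, 2, 3, 4, 5, 6, 7, 8] := by decide
    rw [hl]
    simp only [List.forall_mem_cons]
    exact ⟨⟨hb1, hg1⟩, ⟨hb2, hg2⟩, ⟨hb3, hg3⟩, ⟨hb4, hg4⟩, ⟨hb5, hg5⟩, ⟨hb6, hg6⟩, ⟨hb7, hg7⟩, ⟨hb8, hg8⟩, ⟨hb9, hg9⟩, by simp⟩

theorem gAKk_ok : gAKk.ListOK := ok_of_F (addP_ok flx30 (by decide) (by decide) (by decide) (by decide) gAKk_0_okF) (by decide)

/-- P1 centre c, K, b of degree 5 with three weak neighbours -/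
theorem gAKk_false (h : MinCE G B) (hF : Faces G F) {c K p q n1 n2 n3 b m1 m2 m3 : V}
    (he1 : G.Adj c K) (he2 : G.Adj c b) (he3 : G.Adj K b) (hw1 : WE G c p) (hw2 : WE G c q)
    (hw3 : WE G K n1) (hw4 : WE G K n2) (hw5 : WE G K n3) (hw6 : WE G b m1) (hw7 : WE G b m2)
    (hw8 : WE G b m3) (hd1 : p ≠ q) (hd2 : n1 ≠ n2) (hd3 : n1 ≠ n3) (hd4 : n2 ≠ n3)
    (hd5 : m1 ≠ m2) (hd6 : m1 ≠ m3) (hd7 : m2 ≠ m3) (hb1 : c ∉ B) (hb2 : K ∉ B) (hb3 : p ∉ B)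
    (hb4 : q ∉ B) (hb5 : n1 ∉ B) (hb6 : n2 ∉ B) (hb7 : n3 ∉ B) (hb8 : b ∉ B) (hb9 : m1 ∉ B)
    (hb10 : m2 ∉ B) (hb11 : m3 ∉ B) (hg1 : dg G c ≤ 4) (hg2 : dg G K ≤ 5) (hg3 : dg G p ≤ 3)
    (hg4 : dg G q ≤ 3) (hg5 : dg G n1 ≤ 3) (hg6 : dg G n2 ≤ 3) (hg7 : dg G n3 ≤ 3)
    (hg8 : dg G b ≤ 5) (hg9 : dg G m1 ≤ 3) (hg10 : dg G m2 ≤ 3) (hg11 : dg G m3 ≤ 3) : False := by
  refine SVW.Loc.cfalseW (nm := fun i => [c, K, p, q, n1, n2, n3, b, m1, m2, m3].getD i c) gAKk_adm gAKk_lchk gAKk_echk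
    gAKk_ok h hF ?_ ?_ ?_ ?_ ?_ ?_
  · show ∀ e ∈ [(0, 1), (0, 7), (1, 7), (0, 2), (0, 3), (1, 4), (1, 5), (1, 6), (7, 8), (7, 9), (7, 10)], G.Adj _ _
    simp only [List.forall_mem_cons]
    exact ⟨he1, he2, he3, hw1.1, hw2.1, hw3.1, hw4.1, hw5.1, hw6.1, hw7.1, hw8.1, by simp⟩
  · simp only [List.forall_mem_cons]
    exact ⟨hw1, hw2, hw3, hw4, hw5, hw6, hw7, hw8, by simp⟩
  · simp only [List.forall_mem_cons]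
    exact ⟨hd1, hd2, hd3, hd4, hd5, hd6, hd7, by simp⟩
  · simp
  · simp
  · have hl : Loc.hlist gAKk = [0, 1, 2, 3, 4, 5, 6, 7, 8, 9, 10] := by decide
    rw [hl]
    simp only [List.forall_mem_cons]
    exact ⟨⟨hb1, hg1⟩, ⟨hb2, hg2⟩, ⟨hb3, hg3⟩, ⟨hb4, hg4⟩, ⟨hb5, hg5⟩, ⟨hb6, hg6⟩, ⟨hb7, hg7⟩, ⟨hb8, hg8⟩, ⟨hb9, hg9⟩, ⟨hb10, hg10⟩, ⟨hb11, hg11⟩, by simp⟩

end Pool.Agent.Lib.SVW.LC
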