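import Pool.Agent.Lib.SVY.Facts
import Pool.Agent.Lib.SVY.Spec
import Pool.Agent.Lib.SVY.Tri
import Pool.Agent.Lib.SVY.PathThm
import Pool.Agent.Lib.SVW.ExThm
import Pool.Agent.Lib.SVW.FxThm

/-!
# SVW.LfE: the fields e20, e21, e22, e23, lss, lgc, e26 of `LF` (configurations at `Ex2` vertices)
-/

set_option autoImplicit false
set_option linter.unusedSectionVars false

namespace Pool.Agent.Lib.SVY.LfE

open Finset Pool.Agent.Lib.SVT Pool.Agent.Lib.SVX Pool.Agent.Lib.SVW.LC Pool.Agent.Lib.SVY.LC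

variable {V : Type*} [Fintype V] [DecidableEq V] {G : SimpleGraph V} {B : Finset V}
variable {m : ℕ} {F : Fin m → Finset (Sym2 V)}

theorem sm_le {v : V} (hv : Sm G B v) : v ∉ B ∧ dg G v ≤ 4 := by
  obtain ⟨h1, h2⟩ := hv
  have h3 : ¬ Big G B v := fun h => h1 (Or.inl h)
  refine ⟨fun h => h3 (Or.inl h), ?_⟩
  by_contra h4
  exact h3 (Or.inr ⟨by omega, h2⟩)

theorem one_le {v : V} (hv : One G B v) : v ∉ B ∧ dg G v ≤ 3 := ⟨hv.1, hv.2.1.le⟩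

theorem dm_le {v : V} (hv : Dm G B v) : v ∉ B ∧ dg G v ≤ 3 := by
  rcases hv with hv | hv
  · exact one_le hv
  · exact ⟨hv.1.1, hv.1.2.1.le⟩

theorem ex2_le {g : V} (hg : Ex2 G B g) : g ∉ B ∧ dg G g ≤ 5 := ⟨hg.1, hg.2.1.le⟩

theorem ex2_wn (h : MinCE G B) {g : V} (hg : Ex2 G B g) :
    ∃ n, WE G g n ∧ n ∉ B ∧ dg G n ≤ 3 := by
  obtain ⟨h1, h2, h3, h4⟩ := hg
  have h5 := card_wn h g
  have h6 : (wn G g).Nonempty := by
    rw [← card_pos]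
    omega
  obtain ⟨n, hn⟩ := h6
  have hn' := mem_wn.1 hn
  exact ⟨n, hn', dm_le (h4 n hn')⟩

theorem p1c_le {z : V} (hz : P1c G B z) : z ∉ B ∧ dg G z ≤ 4 := ⟨hz.1.1, hz.1.2.1.le⟩

theorem p1c_wn (h : MinCE G B) {z : V} (hz : P1c G B z) :
    ∃ a b, a ≠ b ∧ WE G z a ∧ WE G z b ∧ (a ∉ B ∧ dg G a ≤ 3) ∧ (b ∉ B ∧ dg G b ≤ 3) := by
  obtain ⟨⟨h1, h2, h3⟩, h4⟩ := hz
  have h5 := card_wn h z
  have h6 : (wn G z).card = 2 := by omega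
  obtain ⟨a, b, hab, h7⟩ := card_eq_two.1 h6
  have ha : WE G z a := mem_wn.1 (by rw [h7]; simp)
  have hb : WE G z b := mem_wn.1 (by rw [h7]; simp)
  exact ⟨a, b, hab, ha, hb, one_le (h4 a ha), one_le (h4 b hb)⟩

/-- another weak neighbour of a `P1c` vertex -/
theorem p1c_other (h : MinCE G B) {z v : V} (hz : P1c G B z) :
    ∃ u, v ≠ u ∧ WE G z u ∧ One G B u := by
  obtain ⟨⟨h1, h2, h3⟩, h4⟩ := hz
  have h5 := card_wn h z
  have h6 : (wn G z).card = 2 := by omega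
  obtain ⟨a, b, hab, h7⟩ := card_eq_two.1 h6
  have ha : WE G z a := mem_wn.1 (by rw [h7]; simp)
  have hb : WE G z b := mem_wn.1 (by rw [h7]; simp)
  by_cases hv : v = a
  · exact ⟨b, by rw [hv]; exact hab, hb, h4 b hb⟩
  · exact ⟨a, hv, ha, h4 a ha⟩

/-- two triangles at `g` -/
theorem two_te (h : MinCE G B) {g v v' : V} (h1 : TE G g v) (h2 : TE G g v') (h3 : v ≠ v')
    (h4 : ¬ G.Adj v v') : v ≠ apx G g v' ∧ v' ≠ apx G g v ∧ apx G g v ≠ apx G g v' := by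
  obtain ⟨a1, a2⟩ := apx_adj h1
  obtain ⟨b1, b2⟩ := apx_adj h2
  refine ⟨?_, ?_, ?_⟩
  · intro e
    rw [← e] at b2
    exact h4 b2.symm
  · intro e
    rw [← e] at a2
    exact h4 a2
  · intro e
    rw [← e] at b1 b2
    exact h3 (apex h a1 h1.1 a2.symm h2.1 b2.symm)

theorem e20 (h : MinCE G B) (hF : Faces G F) : ∀ g v v', Ex2 G B g → TE G g v → TE G g v' →
    v ≠ v' → ¬ G.Adj v v' → OneP G B v → Sm G B (apx G g v) → OneP G B v' → False := by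
  rintro g v v' hg h1 h2 h3 h4 hv hy ⟨hv', z, hz, hz'⟩
  obtain ⟨a1, a2⟩ := apx_adj h1
  obtain ⟨b1, b2⟩ := apx_adj h2
  obtain ⟨d1, d2, d3⟩ := two_te h h1 h2 h3 h4
  exact gE20_false h hF h1.1.symm a2 a1 h2.1.symm b2 b1 hz d1 d3 (one_le hv').1 (one_le hv.1).1
    (ex2_le hg).1 (one_le hz').1 (sm_le hy).1 (one_le hv').2 (one_le hv.1).2 (ex2_le hg).2
    (one_le hz').2 (sm_le hy).2

theorem e21 (h : MinCE G B) (hF : Faces G F) : ∀ g v v', Ex2 G B g → TE G g v → TE G g v' →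
    v ≠ v' → ¬ G.Adj v v' → OneP G B v → Ex2 G B (apx G g v) → OneP G B v' →
    Ex2 G B (apx G g v') → False := by
  rintro g v v' hg h1 h2 h3 h4 ⟨hv, z, hz, hz1⟩ hy ⟨hv', z', hz', hz1'⟩ hy'
  obtain ⟨a1, a2⟩ := apx_adj h1
  obtain ⟨b1, b2⟩ := apx_adj h2
  obtain ⟨d1, d2, d3⟩ := two_te h h1 h2 h3 h4
  obtain ⟨n, n1, n2, n3⟩ := ex2_wn h hg
  obtain ⟨p, p1, p2, p3⟩ := ex2_wn h hy
  obtain ⟨q, q1, q2, q3⟩ := ex2_wn h hy'
  exact gE21_false h hF h1.1.symm a2 a1 h2.1.symm b2 b1 hz n1 hz' p1 q1 d1 d3 (one_le hv).1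
    (ex2_le hg).1 (one_le hv').1 (one_le hz1).1 n2 (one_le hz1').1 (ex2_le hy).1 (ex2_le hy').1
    p2 q2 (one_le hv).2 (ex2_le hg).2 (one_le hv').2 (one_le hz1).2 n3 (one_le hz1').2
    (ex2_le hy).2 (ex2_le hy').2 p3 q3

theorem e22 (h : MinCE G B) (hF : Faces G F) : ∀ g v v', Ex2 G B g → TE G g v → TE G g v' →
    v ≠ v' → ¬ G.Adj v v' → OneP G B v → Sm G B (apx G g v) → OneQ G B v' → False := by
  rintro g v v' hg h1 h2 h3 h4 ⟨hv, z, hz, hz1⟩ hy ⟨hv', z', hz', hz1'⟩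
  obtain ⟨a1, a2⟩ := apx_adj h1
  obtain ⟨b1, b2⟩ := apx_adj h2
  obtain ⟨d1, d2, d3⟩ := two_te h h1 h2 h3 h4
  obtain ⟨n, n1, n2, n3⟩ := ex2_wn h hg
  obtain ⟨u, u1, u2, u3⟩ := p1c_other h (v := v') hz1'
  have hx : ¬ G.Adj z u := by
    intro hzu
    have h5 : u ≠ v := by
      rintro rfl
      refine h.good.c4 u g v' z' h3 ?_ h1.1.symm h2.1 hz'.1 u2.1
      rintro rfl
      exact h2.symm.not_we hz'
    have h6 : ¬ G.Adj u v := fun h7 => hz.2 ⟨u, h7.symm, hzu⟩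
    exact gL1_false h hF hzu.symm hz.1.symm h5 h6 (one_le u3).1 (one_le hz1).1 (one_le hv).1
      (one_le u3).2 (one_le hz1).2 (one_le hv).2
  exact gE22_false h hF h1.1.symm a2 a1 h2.1.symm b2 b1 hz' u2 n1 hz h3.symm u1 d1 hx
    (ex2_le hg).1 (one_le hv').1 (one_le hv).1 (one_le hz1).1 n2 (p1c_le hz1').1 (one_le u3).1
    (sm_le hy).1 (ex2_le hg).2 (one_le hv').2 (one_le hv).2 (one_le hz1).2 n3 (p1c_le hz1').2
    (one_le u3).2 (sm_le hy).2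

theorem lgc (h : MinCE G B) (hF : Faces G F) : ∀ g v z, Ex2 G B g → TE G g v → TE G g z →
    v ≠ z → ¬ G.Adj v z → One G B v → Sm G B (apx G g v) → P1c G B z → Sm G B (apx G g z) →
    False := by
  rintro g v z hg h1 h2 h3 h4 hv hy hz hy'
  obtain ⟨a1, a2⟩ := apx_adj h1
  obtain ⟨b1, b2⟩ := apx_adj h2
  obtain ⟨d1, d2, d3⟩ := two_te h h1 h2 h3 h4
  obtain ⟨n, n1, n2, n3⟩ := ex2_wn h hg
  obtain ⟨p, q, hpq, p1, q1, p2, q2⟩ := p1c_wn h hz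
  exact gE23_false h hF h1.1.symm a2 a1 h2.1.symm b2 b1 n1 p1 q1 d1 hpq d3 (p1c_le hz).1
    (one_le hv).1 (ex2_le hg).1 n2 p2.1 q2.1 (sm_le hy).1 (sm_le hy').1 (p1c_le hz).2
    (one_le hv).2 (ex2_le hg).2 n3 p2.2 q2.2 (sm_le hy).2 (sm_le hy').2

theorem e23 (h : MinCE G B) (hF : Faces G F) : ∀ g v z, Ex2 G B g → TE G g v → TE G g z →
    v ≠ z → ¬ G.Adj v z → OneP G B v → Sm G B (apx G g v) → P1c G B z →
    (Sm G B (apx G g z) ∨ Ex2 G B (apx G g z)) → False := by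
  rintro g v z hg h1 h2 h3 h4 hv hy hz (hy' | hy')
  · exact lgc h hF g v z hg h1 h2 h3 h4 hv.1 hy hz hy'
  · obtain ⟨hv, w, hw, hw'⟩ := hv
    obtain ⟨a1, a2⟩ := apx_adj h1
    obtain ⟨b1, b2⟩ := apx_adj h2
    obtain ⟨d1, d2, d3⟩ := two_te h h1 h2 h3 h4
    obtain ⟨n, n1, n2, n3⟩ := ex2_wn h hg
    obtain ⟨r, r1, r2, r3⟩ := ex2_wn h hy'
    obtain ⟨p, q, hpq, p1, q1, p2, q2⟩ := p1c_wn h hz
    exact gE23e_false h hF h1.1.symm a2 a1 h2.1.symm b2 b1 n1 p1 q1 hw r1 h3 d1 hpq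
      (one_le hv).1 (ex2_le hg).1 (p1c_le hz).1 (one_le hw').1 n2 p2.1 q2.1 (sm_le hy).1
      (ex2_le hy').1 r2 (one_le hv).2 (ex2_le hg).2 (p1c_le hz).2 (one_le hw').2 n3 p2.2 q2.2
      (sm_le hy).2 (ex2_le hy').2 r3

theorem lss (h : MinCE G B) (hF : Faces G F) : ∀ g v v', Ex2 G B g → TE G g v → TE G g v' →
    v ≠ v' → ¬ G.Adj v v' → One G B v → Sm G B (apx G g v) → One G B v' →
    Sm G B (apx G g v') → False := by
  rintro g v v' hg h1 h2 h3 h4 hv hy hv' hy'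
  obtain ⟨a1, a2⟩ := apx_adj h1
  obtain ⟨b1, b2⟩ := apx_adj h2
  obtain ⟨d1, d2, d3⟩ := two_te h h1 h2 h3 h4
  obtain ⟨n, n1, n2, n3⟩ := ex2_wn h hg
  exact gLss_false h hF h1.1.symm a2 a1 h2.1.symm b2 b1 n1 d1 d3 (one_le hv).1 (ex2_le hg).1 n2
    (one_le hv').1 (sm_le hy).1 (sm_le hy').1 (one_le hv).2 (ex2_le hg).2 n3 (one_le hv').2
    (sm_le hy).2 (sm_le hy').2

theorem e26 (h : MinCE G B) (hF : Faces G F) : ∀ g v v', Ex2 G B g → TE G g v → TE G g v' →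
    v ≠ v' → ¬ G.Adj v v' → OneP G B v → Ex2 G B (apx G g v) → (OneQ G B v' ∨ P1c G B v') →
    Sm G B (apx G g v') → False := by
  rintro g v v' hg h1 h2 h3 h4 ⟨hv, w, hw, hw'⟩ hy hv' hy'
  obtain ⟨a1, a2⟩ := apx_adj h1
  obtain ⟨b1, b2⟩ := apx_adj h2
  obtain ⟨d1, d2, d3⟩ := two_te h h1 h2 h3 h4
  rcases hv' with hv' | hv'
  · exact gE20_false h hF h2.1.symm b2 b1 h1.1.symm a2 a1 hw d2 d3.symm (one_le hv).1
      (one_le hv'.1).1 (ex2_le hg).1 (one_le hw').1 (sm_le hy').1 (one_le hv).2 (one_le hv'.1).2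
      (ex2_le hg).2 (one_le hw').2 (sm_le hy').2
  · obtain ⟨n, n1, n2, n3⟩ := ex2_wn h hg
    obtain ⟨r, r1, r2, r3⟩ := ex2_wn h hy
    obtain ⟨p, q, hpq, p1, q1, p2, q2⟩ := p1c_wn h hv'
    exact gE26_false h hF h1.1.symm a2 a1 h2.1.symm b2 b1 n1 p1 q1 hw r1 h3 d2 hpq
      (one_le hv).1 (ex2_le hg).1 (p1c_le hv').1 (one_le hw').1 n2 p2.1 q2.1 (sm_le hy').1
      (ex2_le hy).1 r2 (one_le hv).2 (ex2_le hg).2 (p1c_le hv').2 (one_le hw').2 n3 p2.2 q2.2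
      (sm_le hy').2 (ex2_le hy).2 r3

/-- the case of a degree-3 vertex `v''` in the second triangle of `g'` -/
theorem e24_one (h : MinCE G B) (hF : Faces G F) {g g' v v' v'' : V} (hg : Ex2 G B g)
    (hg' : Ex2 G B g') (hv : OneP G B v) (h1 : G.Adj g g') (h2 : G.Adj v g) (h3 : G.Adj v g')
    (h4 : TE G g v') (h5 : v' ≠ v) (h6 : v' ≠ g') (hv' : OneP G B v')
    (h8 : TE G g' v'') (h10 : v'' ≠ g) (h11 : ¬ G.Adj v'' g)
    (hv'' : One G B v'') : False := by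
  obtain ⟨hv, z, hz, hz1⟩ := hv
  obtain ⟨hv', z', hz', hz1'⟩ := hv'
  obtain ⟨n, n1, n2, n3⟩ := ex2_wn h hg
  obtain ⟨p, p1, p2, p3⟩ := ex2_wn h hg'
  obtain ⟨a1, a2⟩ := apx_adj h4
  obtain ⟨b1, b2⟩ := apx_adj h8
  refine gE24_false h hF (u1 := apx G g v') (u2 := apx G g' v'') h2 h3 h1 h4.1.symm a2 a1
    h8.1.symm b2 b1 hz n1 p1 hz' h5.symm ?_ ?_ h6.symm (one_le hv).1 (one_le hz1).1
    (ex2_le hg).1 (ex2_le hg').1 n2 p2 (one_le hv').1 (one_le hz1').1 (one_le hv'').1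
    (one_le hv).2 (one_le hz1).2 (ex2_le hg).2 (ex2_le hg').2 n3 p3 (one_le hv').2
    (one_le hz1').2 (one_le hv'').2
  · intro e
    rw [← e] at b2
    exact h10 (apex h h3.symm h8.1 b2.symm h1.symm h2)
  · intro e
    rw [← e] at b2
    exact h11 b2

end Pool.Agent.Lib.SVY.LfE
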