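import Pool.Agent.Lib.SVW.LfE
import Pool.Agent.Lib.SVW.E24B

/-!
# SVW.LfE2: the field e24 of `LF`
-/

set_option autoImplicit false
set_option linter.unusedSectionVars false

namespace Pool.Agent.Lib.SVY.LfE

open Finset Pool.Agent.Lib.SVT Pool.Agent.Lib.SVX Pool.Agent.Lib.SVW.LC Pool.Agent.Lib.SVY.LC

variable {V : Type*} [Fintype V] [DecidableEq V] {G : SimpleGraph V} {B : Finset V}
variable {m : ℕ} {F : Fin m → Finset (Sym2 V)}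

/-- the case of a `P1c` vertex `v''` in the second triangle of `g'` -/
theorem e24_p1c (h : MinCE G B) (hF : Faces G F) {g g' v v' v'' : V} (hg : Ex2 G B g)
    (hg' : Ex2 G B g') (hv : OneP G B v) (h1 : G.Adj g g') (h2 : G.Adj v g) (h3 : G.Adj v g')
    (h4 : TE G g v') (h5 : v' ≠ v) (h6 : v' ≠ g') (hv' : OneP G B v')
    (h8 : TE G g' v'') (h10 : v'' ≠ g) (h11 : ¬ G.Adj v'' g)
    (hv'' : P1c G B v'') : False := by
  obtain ⟨hv, z, hz, hz1⟩ := hv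
  obtain ⟨hv', z', hz', hz1'⟩ := hv'
  obtain ⟨n, n1, n2, n3⟩ := ex2_wn h hg
  obtain ⟨k, k1, k2, k3⟩ := ex2_wn h hg'
  obtain ⟨a1, a2⟩ := apx_adj h4
  obtain ⟨b1, b2⟩ := apx_adj h8
  obtain ⟨p, q, hpq, p1, q1, p2, q2⟩ := p1c_wn h hv''
  have key : ∀ p, WE G v'' p → p ∉ B ∧ dg G p ≤ 3 → ¬ G.Adj z' p := by
    intro p p1 p2 hzp
    have h12 : p ≠ v' := by
      rintro rfl
      exact h.good.c4 p g g' v'' h6 h10.symm h4.1.symm h1 h8.1 p1.1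
    have h13 : ¬ G.Adj p v' := fun h7 => hz'.2 ⟨p, h7.symm, hzp⟩
    exact gL1_false h hF hzp.symm hz'.1.symm h12 h13 p2.1 (one_le hz1').1 (one_le hv').1 p2.2
      (one_le hz1').2 (one_le hv').2
  refine gE24c_false h hF (u1 := apx G g v') (b := apx G g' v'') h2 h3 h1 h4.1.symm a2 a1
    h8.1.symm b2 b1 hz n1 k1 hz' p1 q1 h5.symm h10.symm ?_ h6.symm hpq (key p p1 p2) (key q q1 q2)
    (one_le hv).1 (ex2_le hg).1 (ex2_le hg').1 (one_le hv').1 (p1c_le hv'').1 (one_le hz1).1 n2 k2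
    (one_le hz1').1 p2.1 q2.1 (one_le hv).2 (ex2_le hg).2 (ex2_le hg').2 (one_le hv').2
    (p1c_le hv'').2 (one_le hz1).2 n3 k3 (one_le hz1').2 p2.2 q2.2
  intro e
  rw [← e] at b2
  exact h11 b2

theorem e24 (h : MinCE G B) (hF : Faces G F) : ∀ g g' v v' v'', Ex2 G B g → Ex2 G B g' →
    OneP G B v → G.Adj g g' → G.Adj v g → G.Adj v g' → TE G g v' → v' ≠ v → v' ≠ g' →
    ¬ G.Adj v' g' → OneP G B v' → Np G B (apx G g v') → TE G g' v'' → v'' ≠ v → v'' ≠ g →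
    ¬ G.Adj v'' g → ((OneP G B v'' ∧ Np G B (apx G g' v'')) ∨
      ((OneQ G B v'' ∨ P1c G B v'') ∧ Ex2 G B (apx G g' v''))) → False := by
  intro g g' v v' v'' hg hg' hv h1 h2 h3 h4 h5 h6 _ hv' _ h8 _ h10 h11 h12
  rcases h12 with ⟨h12, -⟩ | ⟨h12 | h12, -⟩
  · exact e24_one h hF hg hg' hv h1 h2 h3 h4 h5 h6 hv' h8 h10 h11 h12.1
  · exact e24_one h hF hg hg' hv h1 h2 h3 h4 h5 h6 hv' h8 h10 h11 h12.1
  · exact e24_p1c h hF hg hg' hv h1 h2 h3 h4 h5 h6 hv' h8 h10 h11 h12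

end Pool.Agent.Lib.SVY.LfE
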