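import Pool.Agent.Lib.SVW.S11Ok

/-!
# SVW.S11Thm: reducible local configurations

Generated (helper75).
-/

set_option autoImplicit false
set_option linter.unusedSectionVars false
set_option maxRecDepth 100000

namespace Pool.Agent.Lib.SVW.LC

open Finset Pool.Agent.Lib.SVT Pool.Agent.Lib.SVX Pool.Agent.Lib.SVY

variable {V : Type*} [Fintype V] [DecidableEq V] {G : SimpleGraph V} {B : Finset V}
variable {m : ℕ} {F : Fin m → Finset (Sym2 V)}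

/-- V-edge xy, A with weak neighbour u of the type One -/
theorem gS11a_false (h : MinCE G B) (hF : Faces G F) {v x y A u z w c u1 u2 : V}
    (he1 : G.Adj v x) (he2 : G.Adj v y) (he3 : G.Adj x y) (he4 : G.Adj y A) (he5 : G.Adj y w)
    (he6 : G.Adj A w) (he7 : G.Adj u u1) (he8 : G.Adj u u2) (he9 : G.Adj u1 u2) (hw1 : WE G v z)
    (hw2 : WE G A u) (hw3 : WE G A c) (hd1 : v ≠ A) (hd2 : x ≠ A) (hd3 : u ≠ c)
    (hc1 : ¬ Corner F A u w) (hb1 : v ∉ B) (hb2 : x ∉ B) (hb3 : y ∉ B) (hb4 : A ∉ B) (hb5 : u ∉ B)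
    (hb6 : z ∉ B) (hg1 : dg G v ≤ 3) (hg2 : dg G x ≤ 4) (hg3 : dg G y ≤ 4) (hg4 : dg G A ≤ 4)
    (hg5 : dg G u ≤ 3) (hg6 : dg G z ≤ 3) : False := by
  refine SVW.Loc.cfalseW (nm := fun i => [v, x, y, A, u, z, w, c, u1, u2].getD i v) gS11a_adm gS11a_lchk gS11a_echk
    gS11a_ok h hF ?_ ?_ ?_ ?_ ?_ ?_
  · show ∀ e ∈ [(0, 1), (0, 2), (1, 2), (2, 3), (2, 6), (3, 6), (4, 8), (4, 9), (0, 5), (3, 4), (3, 7), (8, 9)], G.Adj _ _
    simp only [List.forall_mem_cons]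
    exact ⟨he1, he2, he3, he4, he5, he6, he7, he8, hw1.1, hw2.1, hw3.1, he9, by simp⟩
  · simp only [List.forall_mem_cons]
    exact ⟨hw1, hw2, hw3, by simp⟩
  · simp only [List.forall_mem_cons]
    exact ⟨hd1, hd2, hd3, by simp⟩
  · simp
  · simp only [List.forall_mem_cons]
    exact ⟨hc1, by simp⟩
  · have hl : Loc.hlist gS11a = [0, 1, 2, 3, 4, 5] := by decide
    rw [hl]
    simp only [List.forall_mem_cons]
    exact ⟨⟨hb1, hg1⟩, ⟨hb2, hg2⟩, ⟨hb3, hg3⟩, ⟨hb4, hg4⟩, ⟨hb5, hg5⟩, ⟨hb6, hg6⟩, by simp⟩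

/-- same, u of the type Thr -/
theorem gS11b_false (h : MinCE G B) (hF : Faces G F) {v x y A u z w c u1 u2 : V}
    (he1 : G.Adj v x) (he2 : G.Adj v y) (he3 : G.Adj x y) (he4 : G.Adj y A) (he5 : G.Adj y w)
    (he6 : G.Adj A w) (hw1 : WE G v z) (hw2 : WE G A u) (hw3 : WE G A c) (hw4 : WE G u u1)
    (hw5 : WE G u u2) (hd1 : v ≠ A) (hd2 : x ≠ A) (hd3 : A ≠ u1) (hd4 : A ≠ u2) (hd5 : u ≠ c)
    (hd6 : u1 ≠ u2) (hc1 : ¬ Corner F A u w) (hb1 : v ∉ B) (hb2 : x ∉ B) (hb3 : y ∉ B)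
    (hb4 : A ∉ B) (hb5 : u ∉ B) (hb6 : z ∉ B) (hg1 : dg G v ≤ 3) (hg2 : dg G x ≤ 4)
    (hg3 : dg G y ≤ 4) (hg4 : dg G A ≤ 4) (hg5 : dg G u ≤ 3) (hg6 : dg G z ≤ 3) : False := by
  refine SVW.Loc.cfalseW (nm := fun i => [v, x, y, A, u, z, w, c, u1, u2].getD i v) gS11b_adm gS11b_lchk gS11b_echk
    gS11b_ok h hF ?_ ?_ ?_ ?_ ?_ ?_
  · show ∀ e ∈ [(0, 1), (0, 2), (1, 2), (2, 3), (2, 6), (3, 6), (0, 5), (3, 4), (3, 7), (4, 8), (4, 9)], G.Adj _ _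
    simp only [List.forall_mem_cons]
    exact ⟨he1, he2, he3, he4, he5, he6, hw1.1, hw2.1, hw3.1, hw4.1, hw5.1, by simp⟩
  · simp only [List.forall_mem_cons]
    exact ⟨hw1, hw2, hw3, hw4, hw5, by simp⟩
  · simp only [List.forall_mem_cons]
    exact ⟨hd1, hd2, hd3, hd4, hd5, hd6, by simp⟩
  · simp
  · simp only [List.forall_mem_cons]
    exact ⟨hc1, by simp⟩
  · have hl : Loc.hlist gS11b = [0, 1, 2, 3, 4, 5] := by decide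
    rw [hl]
    simp only [List.forall_mem_cons]
    exact ⟨⟨hb1, hg1⟩, ⟨hb2, hg2⟩, ⟨hb3, hg3⟩, ⟨hb4, hg4⟩, ⟨hb5, hg5⟩, ⟨hb6, hg6⟩, by simp⟩

end Pool.Agent.Lib.SVW.LC
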