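import Pool.Agent.Lib.SVW.LfE
import Pool.Agent.Lib.SVW.S11Thm
import Pool.Agent.Lib.SVY.CodesB

/-!
# SVW.LfE3: the field s10 of `LF` for a vertex `u` of degree 3
-/

set_option autoImplicit false
set_option linter.unusedSectionVars false

namespace Pool.Agent.Lib.SVY.LfE

open Finset Pool.Agent.Lib.SVT Pool.Agent.Lib.SVX Pool.Agent.Lib.SVW.LC Pool.Agent.Lib.SVY.LC

variable {V : Type*} [Fintype V] [DecidableEq V] {G : SimpleGraph V} {B : Finset V}
variable {m : ℕ} {F : Fin m → Finset (Sym2 V)}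

theorem s10u (h : MinCE G B) (hF : Faces G F) : ∀ i x y A u, VE G B F i x y A → Npay G B A →
    s(A, u) ∈ F i → u ≠ y → u ∉ B → dg G u = 3 → False := by
  rintro i x y A u ⟨hi, hxy, hya, hne, fx, fy, hv⟩ hA hAu huy huB hud
  have exy : G.Adj x y := hF.sub i _ hxy
  have eya : G.Adj y A := hF.sub i _ hya
  have eAu : G.Adj A u := hF.sub i _ hAu
  have txy : TE G x y := (te_or_we exy).resolve_right (FF.no_weak h fx)
  have tya : TE G y A := (te_or_we eya).resolve_right (FF.no_weak h fy)
  obtain ⟨a1, a2⟩ := apx_adj txy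
  obtain ⟨b1, b2⟩ := apx_adj tya
  obtain ⟨hv1, z, hz, hz1⟩ := hv
  have dA : dg G A = 4 := hA.1.2.1
  have hvA : apx G x y ≠ A := by
    intro e
    refine nt_short h hF hi (v := y) (a := x) (b := A) (by rw [fy.2.1]; omega) hne.symm
      (by rw [Sym2.eq_swap]; exact hxy) hya ?_
    rw [← e]
    exact a1
  -- `u` is a weak neighbour of `A`
  have wAu : WE G A u := by
    rcases te_or_we eAu with h1 | h1
    · exfalso
      obtain ⟨p, q, hpq, hp, hq, hpq', hall⟩ := one_tri h hA.1.2.2
      have h2 : u = y ∨ u = apx G y A := by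
        have k1 := hall u h1
        have k2 := hall y tya.symm
        have k3 := hall (apx G y A) (apx_te tya).2
        have k4 := (apx_ne tya).1
        rcases k1 with k1 | k1 <;> rcases k2 with k2 | k2 <;> rcases k3 with k3 | k3
        · exact Or.inl (k1.trans k2.symm)
        · exact Or.inl (k1.trans k2.symm)
        · exact Or.inr (k1.trans k3.symm)
        · exact absurd (k3.trans k2.symm) k4
        · exact absurd (k3.trans k2.symm) k4
        · exact Or.inr (k1.trans k3.symm)
        · exact Or.inl (k1.trans k2.symm)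
        · exact Or.inl (k1.trans k2.symm)
      rcases h2 with h2 | h2
      · exact huy h2
      · refine nt_short h hF hi (v := A) (a := y) (b := u) (by omega) huy.symm
          (by rw [Sym2.eq_swap]; exact hya) hAu ?_
        rw [h2]
        exact b1
    · exact h1
  -- the other weak neighbour `c`
  obtain ⟨c, hc, wAc⟩ : ∃ c, u ≠ c ∧ WE G A c := by
    have h5 := card_wn h A
    have h6 : (wn G A).card = 2 := by
      have := hA.1.2.2
      omega
    obtain ⟨c1, c2, hc12, h7⟩ := card_eq_two.1 h6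
    by_cases h8 : u = c1
    · exact ⟨c2, by rw [h8]; exact hc12, mem_wn.1 (by rw [h7]; simp)⟩
    · exact ⟨c1, h8, mem_wn.1 (by rw [h7]; simp)⟩
  have hcor : ¬ Corner F A u (apx G y A) := by
    intro hcr
    exact CodesBAux.not_corner h hF hA.1 eya.symm b2 b1 wAu wAc hc (i := i)
      (by rw [Sym2.eq_swap]; exact hya) hAu (LinkAux.corner_symm hcr)
  have hA4 : A ∉ B := hA.1.1
  have hcase : tt G u = 0 ∨ tt G u = 1 := by
    have h5 := card_wn h u
    omega
  rcases hcase with h0 | h1
  · -- no triangle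
    have h5 := card_wn h u
    have h6 : ((wn G u).erase A).card = 2 := by
      rw [card_erase_of_mem (mem_wn.2 wAu.symm)]
      omega
    obtain ⟨u1, u2, hu12, h7⟩ := card_eq_two.1 h6
    have m1 : u1 ∈ (wn G u).erase A := by rw [h7]; simp
    have m2 : u2 ∈ (wn G u).erase A := by rw [h7]; simp
    rw [mem_erase] at m1 m2
    exact gS11b_false h hF a1.symm a2.symm exy eya b1 b2 hz wAu wAc (mem_wn.1 m1.2)
      (mem_wn.1 m2.2) hvA hne.symm m1.1.symm m2.1.symm hc hu12 hcor (one_le hv1).1 fx.1 fy.1 hA4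
      huB (one_le hz1).1 (one_le hv1).2 fx.2.1.le fy.2.1.le dA.le hud.le (one_le hz1).2
  · obtain ⟨u1, u2, hu12, g1, g2, g3, -⟩ := one_tri h h1
    exact gS11a_false h hF a1.symm a2.symm exy eya b1 b2 g1 g2 g3 hz wAu wAc hvA hne.symm hc
      hcor (one_le hv1).1 fx.1 fy.1 hA4 huB (one_le hz1).1 (one_le hv1).2 fx.2.1.le fy.2.1.le
      dA.le hud.le (one_le hz1).2

end Pool.Agent.Lib.SVY.LfE
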