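import Pool.Agent.Lib.SVW.CfgW
import Pool.Agent.Lib.SVY.LocB

/-!
# SVW.LocW: reducible local configurations, weak form

`Loc.cfalseW`: as `Loc.cfalse`; named fixed neighbours of a small terminal are not counted in `outs`.
-/

set_option autoImplicit false
set_option linter.unusedSectionVars false

namespace Pool.Agent.Lib.SVW

open Finset Pool.Agent.Lib.SVT Pool.Agent.Lib.SVX Pool.Agent.Lib.SVY

variable {V : Type*} [Fintype V] [DecidableEq V] {G : SimpleGraph V} {B : Finset V}

theorem outside {c : Cfg} {nm : ℕ → V}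
    (hinj : ∀ i j, i < c.N → j < c.N → nm i = nm j → i = j)
    (hedge : ∀ i j, i < c.N → j < c.N → c.adjE i j = true → G.Adj (nm i) (nm j))
    {i : ℕ} (hi : i < c.N) (hdeg : dg G (nm i) ≤ c.outs i + (nn c i).card)
    (hind : ∀ j, j < c.N → c.inH j = true → G.Adj (nm i) (nm j) → c.adjE i j = true) :
    ∃ O : Finset V, O.card ≤ c.outs i ∧
      (∀ v, G.Adj (nm i) v → v ∈ O ∨ ∃ j, j < c.N ∧ c.adjE i j = true ∧ v = nm j) ∧
      ∀ j, j < c.N → c.inH j = true → nm j ∉ O := by
  classical
  refine ⟨nb G univ (nm i) \ (nn c i).image nm, ?_, ?_, ?_⟩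
  · have h1 : (nn c i).image nm ⊆ nb G univ (nm i) := by
      intro v hv
      obtain ⟨j, hj, rfl⟩ := Finset.mem_image.1 hv
      obtain ⟨hj1, hj2⟩ := Finset.mem_filter.1 hj
      exact mem_nb.2 ⟨mem_univ _, hedge i j hi (Finset.mem_range.1 hj1) hj2⟩
    have h2 : ((nn c i).image nm).card = (nn c i).card := by
      refine Finset.card_image_of_injOn ?_
      intro a ha b hb hab
      exact hinj a b (Finset.mem_range.1 (Finset.mem_filter.1 (Finset.mem_coe.1 ha)).1)
        (Finset.mem_range.1 (Finset.mem_filter.1 (Finset.mem_coe.1 hb)).1) hab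
    rw [Finset.card_sdiff_of_subset h1, h2]
    unfold dg at hdeg
    omega
  · intro v hv
    by_cases hv' : v ∈ (nn c i).image nm
    · right
      obtain ⟨j, hj, rfl⟩ := Finset.mem_image.1 hv'
      obtain ⟨hj1, hj2⟩ := Finset.mem_filter.1 hj
      exact ⟨j, Finset.mem_range.1 hj1, hj2, rfl⟩
    · left
      exact Finset.mem_sdiff.2 ⟨mem_nb.2 ⟨mem_univ _, hv⟩, hv'⟩
  · intro j hj hjH hmem
    obtain ⟨h1, h2⟩ := Finset.mem_sdiff.1 hmem
    exact h2 (Finset.mem_image.2 ⟨j, Finset.mem_filter.2 ⟨Finset.mem_range.2 hj,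
      hind j hj hjH (mem_nb.1 h1).2⟩, rfl⟩)

namespace Loc

open Pool.Agent.Lib.SVY.Loc

/-- an occurrence of a small configuration; the excluded paths are a hypothesis -/
theorem instW {c : Cfg} {W D X : List (ℕ × ℕ)} {k : ℕ} {nm : ℕ → V} (hchk : lchk c W D X k = true)
    (h : Facts c W G nm) (hD : DS nm D) (hX : ∀ p ∈ X, ¬ G.Adj (nm p.1) (nm p.2))
    (hH : ∀ i, i < c.N → c.inH i = true → nm i ∉ B ∧ dg G (nm i) ≤ c.outs i + (nn c i).card)
    (hexc : ∀ i j l, c.isT i = true → c.isT j = true → i ≠ j → c.excl i j l = true →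
      ¬ OPath G {v | ∃ r, r < c.nc ∧ v = nm r} (nm i) (nm j) l) :
    InstW c G B nm := by
  unfold lchk at hchk
  rw [Bool.and_eq_true, List.all_eq_true, List.all_eq_true] at hchk
  obtain ⟨h1, h2⟩ := hchk
  have hs := DS.iter h k hD
  have hne : ∀ i j, j < i → i < c.N → nm j ≠ nm i := by
    intro i j hji hi
    have h3 := h1 i (List.mem_range.2 hi)
    rw [List.all_eq_true] at h3
    exact hs.ne (h3 j (List.mem_range.2 hji))
  have hinj : ∀ i j, i < c.N → j < c.N → nm i = nm j → i = j := by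
    intro i j hi hj hij
    rcases lt_trichotomy i j with hlt | heq | hlt
    · exact absurd hij (hne j i hlt hj)
    · exact heq
    · exact absurd hij.symm (hne i j hlt hi)
  have hind : ∀ i j, i < c.N → j < c.N → c.inH i = true → c.inH j = true →
      G.Adj (nm i) (nm j) → c.adjE i j = true := by
    intro i j hi hj hiH hjH hij
    have h3 := h2 i (List.mem_range.2 hi)
    rw [List.all_eq_true] at h3
    have h4 := h3 j (List.mem_range.2 hj)
    rw [Bool.or_eq_true, Bool.or_eq_true, Bool.or_eq_true] at h4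
    rcases h4 with ((h4 | h4) | h4) | h4
    · rw [hiH, hjH] at h4
      exact absurd h4 (by decide)
    · rw [decide_eq_true_eq] at h4
      subst h4
      exact absurd rfl hij.ne
    · exact h4
    · exact absurd hij (nadj_na h hs hX hi hj h4)
  have hc : ∀ r, r < c.nc → r < c.N := fun r hr => Nat.lt_of_lt_of_le hr (Nat.le_add_right _ _)
  have hcH : ∀ r, r < c.nc → c.inH r = true := by
    intro r hr
    unfold Cfg.inH
    rw [Bool.or_eq_true]
    exact Or.inl (decide_eq_true hr)
  have hTN : ∀ t, c.isT t = true → t < c.N := by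
    intro t ht
    unfold Cfg.isT at ht
    rw [Bool.and_eq_true, decide_eq_true_eq, decide_eq_true_eq] at ht
    exact ht.2
  have hTH : ∀ t, c.isT t = true → c.sm t = true → c.inH t = true := by
    intro t ht hs'
    unfold Cfg.inH
    rw [ht, hs']
    simp
  refine ⟨hinj, fun r hr => (hH r (hc r hr) (hcH r hr)).1, h.edge, ?_, ?_, hexc⟩
  · intro r hr
    exact outside hinj h.edge (hc r hr) (hH r (hc r hr) (hcH r hr)).2
      (fun j hj hjH hrj => hind r j (hc r hr) hj (hcH r hr) hjH hrj)
  · intro t ht hs'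
    exact ⟨(hH t (hTN t ht) (hTH t ht hs')).1, outside hinj h.edge (hTN t ht)
      (hH t (hTN t ht) (hTH t ht hs')).2
      (fun j hj hjH htj => hind t j (hTN t ht) hj (hTH t ht hs') hjH htj)⟩

/-- the degree bound which is needed -/
def dmaxW (c : Cfg) (i : ℕ) : ℕ :=
  c.outs i + ((List.range c.N).filter (fun j => c.adjE i j)).length

/-- a reducible small configuration -/
theorem cfalseW {m : ℕ} {F : Fin m → Finset (Sym2 V)}
    {c : Cfg} {par : ℕ → ℕ} {W D X : List (ℕ × ℕ)} {NC : List (ℕ × ℕ × ℕ)} {k : ℕ}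
    {nm : ℕ → V} (hadm : c.adm par = true) (hchk : lchk c W D X k = true)
    (hech : echk c W D X NC k = true) (hl : c.ListOK) (h : MinCE G B) (hF : Faces G F)
    (hE : ∀ e ∈ c.E ++ c.Bs, G.Adj (nm e.1) (nm e.2)) (hW : ∀ p ∈ W, WE G (nm p.1) (nm p.2))
    (hD : ∀ p ∈ D, nm p.1 ≠ nm p.2) (hX : ∀ p ∈ X, ¬ G.Adj (nm p.1) (nm p.2))
    (hNC : ∀ t ∈ NC, ¬ Corner F (nm t.1) (nm t.2.1) (nm t.2.2))
    (hH : ∀ i ∈ hlist c, nm i ∉ B ∧ dg G (nm i) ≤ dmaxW c i) : False := by
  have hedge : ∀ i j, i < c.N → j < c.N → c.adjE i j = true → G.Adj (nm i) (nm j) := by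
    intro i j _ _ hij
    unfold Cfg.adjE at hij
    simp only [Bool.or_eq_true, List.contains_iff_mem] at hij
    rcases hij with ((h1 | h1) | h1) | h1
    · exact hE (i, j) (List.mem_append_left _ h1)
    · exact (hE (j, i) (List.mem_append_left _ h1)).symm
    · exact hE (i, j) (List.mem_append_right _ h1)
    · exact (hE (j, i) (List.mem_append_right _ h1)).symm
  have hf : Facts c W G nm := ⟨h.good.c4, h.good.c5, hedge, hW⟩
  have hDS : DS nm D := hD
  have hcN : ∀ r, r < c.nc → r < c.N := fun r hr => Nat.lt_of_lt_of_le hr (Nat.le_add_right _ _)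
  have hcard : ∀ (p : ℕ → Bool), ((List.range c.N).filter p).length =
      ((Finset.range c.N).filter (fun j => p j = true)).card := by
    intro p
    rw [← List.toFinset_card_of_nodup (List.nodup_range.filter p)]
    congr 1
    ext a
    simp
  have hdeg : ∀ i, i < c.N → c.inH i = true →
      nm i ∉ B ∧ dg G (nm i) ≤ c.outs i + (nn c i).card := by
    intro i hi hiH
    have h1 := hH i (List.mem_filter.2 ⟨List.mem_range.2 hi, hiH⟩)
    have h2 := h1.2
    unfold dmaxW at h2
    rw [hcard] at h2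
    exact ⟨h1.1, h2⟩
  have hcH : ∀ r, r < c.nc → c.inH r = true := by
    intro r hr
    unfold Cfg.inH
    rw [Bool.or_eq_true]
    exact Or.inl (decide_eq_true hr)
  -- injectivity
  have hchk' := hchk
  unfold lchk at hchk'
  rw [Bool.and_eq_true, List.all_eq_true, List.all_eq_true] at hchk'
  have hs := DS.iter hf k hDS
  have hne : ∀ i j, j < i → i < c.N → nm j ≠ nm i := by
    intro i j hji hi
    have h3 := hchk'.1 i (List.mem_range.2 hi)
    rw [List.all_eq_true] at h3
    exact hs.ne (h3 j (List.mem_range.2 hji))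
  have hinj : ∀ i j, i < c.N → j < c.N → nm i = nm j → i = j := by
    intro i j hi hj hij
    rcases lt_trichotomy i j with hlt | heq | hlt
    · exact absurd hij (hne j i hlt hj)
    · exact heq
    · exact absurd hij.symm (hne i j hlt hi)
  have hdegc : ∀ r, r < c.nc → dg G (nm r) ≤ c.outs r + (nn c r).card :=
    fun r hr => (hdeg r (hcN r hr) (hcH r hr)).2
  refine cfg_falseW hadm hl h (instW hchk hf hDS hX hdeg ?_)
  intro i j l _ _ _ hex
  unfold echk at hech
  rw [List.all_eq_true] at hech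
  unfold Cfg.excl at hex
  rw [Bool.or_eq_true, List.contains_iff_mem, List.contains_iff_mem] at hex
  rcases hex with hex | hex
  · have h1 := hech _ hex
    rw [Bool.and_eq_true, Bool.and_eq_true, decide_eq_true_eq, decide_eq_true_eq] at h1
    exact ech1_exc h hF hf hs hX hdegc hinj hNC h1.1.1 h1.1.2 h1.2
  · have h1 := hech _ hex
    rw [Bool.and_eq_true, Bool.and_eq_true, decide_eq_true_eq, decide_eq_true_eq] at h1
    exact fun h' => ech1_exc h hF hf hs hX hdegc hinj hNC h1.1.1 h1.1.2 h1.2 (opathSymm h')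

end Loc

end Pool.Agent.Lib.SVW
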