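import Pool.Agent.Lib.SVW.LocW

/-!
# SVW.S11Data: local configurations

Generated (helper75).
-/

set_option autoImplicit false
set_option linter.unusedSectionVars false
set_option maxRecDepth 100000

namespace Pool.Agent.Lib.SVW.LC

open Pool.Agent.Lib.SVX Pool.Agent.Lib.SVY

/-- V-edge xy, A with weak neighbour u of the type One; names: 0=v 1=x 2=y 3=A 4=u 5=z 6=w 7=c 8=u1 9=u2 -/
def gS11a : Cfg where
  nc := 5
  nt := 5
  E := [(0, 1), (0, 2), (1, 2), (2, 3), (2, 6), (3, 6), (4, 8), (4, 9), (0, 5), (3, 4), (3, 7)]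
  Bs := [(8, 9)]
  outs := fun i => if i == 1 || i == 5 then 2 else 0
  sm := fun i => i == 5
  keep := []
  pi := fun i => if i = 3 then 6 else if i = 4 then 6 else i
  NE := [(8, 6), (9, 6)]
  al := [(8, 6, 1), (8, 6, 2), (8, 6, 3), (8, 6, 4), (9, 6, 1), (9, 6, 2), (9, 6, 3), (9, 6, 4), (8, 9, 2), (8, 9, 3)]

def gS11aP (i : ℕ) : ℕ := if i = 3 then 6 else if i = 4 then 3 else i

theorem gS11a_adm : gS11a.adm gS11aP = true := by decide

theorem gS11a_lchk : Loc.lchk gS11a [(0, 5), (3, 4), (3, 7)] [(0, 3), (1, 3), (4, 7)] [] 2 = true := by decide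

theorem gS11a_echk : Loc.echk gS11a [(0, 5), (3, 4), (3, 7)] [(0, 3), (1, 3), (4, 7)] [] [(3, 4, 6)] 2 = true := by decide

/-- same, u of the type Thr; names: 0=v 1=x 2=y 3=A 4=u 5=z 6=w 7=c 8=u1 9=u2 -/
def gS11b : Cfg where
  nc := 5
  nt := 5
  E := [(0, 1), (0, 2), (1, 2), (2, 3), (2, 6), (3, 6), (0, 5), (3, 4), (3, 7), (4, 8), (4, 9)]
  Bs := []
  outs := fun i => if i == 1 || i == 5 then 2 else 0
  sm := fun i => i == 5
  keep := []
  pi := fun i => if i = 3 then 6 else if i = 4 then 6 else i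
  NE := [(8, 6), (9, 6)]
  al := [(8, 6, 1), (8, 6, 2), (8, 6, 3), (8, 6, 4), (9, 6, 1), (9, 6, 2), (9, 6, 3), (9, 6, 4), (8, 9, 2), (8, 9, 3)]

def gS11bP (i : ℕ) : ℕ := if i = 3 then 6 else if i = 4 then 3 else i

theorem gS11b_adm : gS11b.adm gS11bP = true := by decide

theorem gS11b_lchk : Loc.lchk gS11b [(0, 5), (3, 4), (3, 7), (4, 8), (4, 9)] [(0, 3), (1, 3), (3, 8), (3, 9), (4, 7), (8, 9)] [] 2 = true := by decide

theorem gS11b_echk : Loc.echk gS11b [(0, 5), (3, 4), (3, 7), (4, 8), (4, 9)] [(0, 3), (1, 3), (3, 8), (3, 9), (4, 7), (8, 9)] [] [(3, 4, 6)] 2 = true := by decide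

end Pool.Agent.Lib.SVW.LC
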