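import Pool.Agent.Lib.SVX.ChkD
import Pool.Agent.Lib.SVW.S11Data

/-!
# SVW.S11Ok: `ListOK` of the configurations (kernel check)
-/

set_option autoImplicit false
set_option maxRecDepth 100000

namespace Pool.Agent.Lib.SVW.LC

open Pool.Agent.Lib.SVX

/-- all checks, one after the other -/
theorem s11_seq :
    (gS11a.ListOK) ∧
    (gS11b.ListOK) :=
  ⟨(Chk.ringD_cfgZ (a := 0) (b := 3)
  (l := [.par 3 1 [], .tr 2 0 ⟨1, true, [], []⟩, .par 3 5 [], .vf ⟨0, false, [], [(5, true, [])]⟩, .ed 0 10, .ed 10 3, .par 2 7 [], .par 2 8 [], .par 2 9 [8], .vf ⟨3, false, [7], [(4, false, [8, 9])]⟩])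
  (r := [.par 2 6 [], .tr 2 3 ⟨6, true, [], []⟩])
  (nodes := [(8, 2, []), (6, 2, [8]), (9, 2, [6])])
  (u0 := 2) (by decide +kernel)),
  (Chk.ringD_cfgZ (a := 0) (b := 4)
  (l := [.par 3 5 [], .vf ⟨0, false, [], [(5, true, [])]⟩, .par 3 1 [], .tr 0 2 ⟨1, true, [], []⟩, .par 2 6 [], .tr 2 3 ⟨6, true, [], []⟩, .par 2 7 [], .vf ⟨3, false, [7], []⟩, .ed 3 4])
  (r := [.ed 0 10, .ed 10 4, .par 2 8 [], .par 2 9 [], .vf ⟨4, false, [8, 9], []⟩])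
  (nodes := [(8, 2, []), (6, 2, [8]), (9, 2, [6])])
  (u0 := 0) (by decide +kernel))⟩

theorem gS11a_ok : gS11a.ListOK := s11_seq.1

theorem gS11b_ok : gS11b.ListOK := s11_seq.2

end Pool.Agent.Lib.SVW.LC
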