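import Pool.Agent.Lib.SVY.Rule
import Pool.Agent.Lib.SVY.Tri

/-!
# SVW.SpecB: meaning of the types of vertices
-/

set_option autoImplicit false
set_option linter.unusedSectionVars false

namespace Pool.Agent.Lib.SVY.SpecB

open Finset Pool.Agent.Lib.SVT Pool.Agent.Lib.SVX

variable {V : Type*} [Fintype V] [DecidableEq V] {G : SimpleGraph V} {B : Finset V}

theorem one_uniq (h : MinCE G B) {v a b : V} (hv : One G B v) (ha : WE G v a)
    (hb : WE G v b) : a = b := by
  have h1 := card_wn h v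
  have h2 : (wn G v).card = 1 := by
    have := hv.2.1
    have := hv.2.2
    omega
  obtain ⟨c, hc⟩ := card_eq_one.1 h2
  have ha' : a ∈ wn G v := mem_wn.2 ha
  have hb' : b ∈ wn G v := mem_wn.2 hb
  rw [hc, mem_singleton] at ha' hb'
  rw [ha', hb']

theorem big_lt {v : V} (h : Big G B v) : v ∈ B ∨ 5 ≤ dg G v := by
  rcases h with h | h
  · exact Or.inl h
  · exact Or.inr h.1

theorem not_big {v : V} (hB : v ∉ B) (hd : dg G v ≤ 4) : ¬ Big G B v := by
  intro h
  rcases big_lt h with h | h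
  · exact hB h
  · omega

theorem exc_not_big {v : V} (h : Exc G B v) : ¬ Big G B v := by
  intro h1
  rcases h1 with h1 | h1
  · rcases h with h | h
    · exact h.1 h1
    · exact h.1 h1
  · exact h1.2 h

theorem p1c_not_free (h : MinCE G B) {v : V} (hv : P1c G B v) : ¬ Free G B v := by
  intro hf
  have h1 := card_wn h v
  have h2 : (wn G v).Nonempty := by
    rw [← card_pos]
    have := hv.1.2.1
    have := hv.1.2.2
    omega
  obtain ⟨a, ha⟩ := h2
  exact hf.2 a (mem_wn.1 ha) (Or.inl (hv.2 a (mem_wn.1 ha)))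

theorem oneQ_not_oneP (h : MinCE G B) {v : V} (hv : OneQ G B v) : ¬ OneP G B v := by
  rintro ⟨h1, z, hz, hz1⟩
  obtain ⟨h2, y, hy, hy1⟩ := hv
  have h3 := one_uniq h h1 hz hy
  subst h3
  have := hz1.2.1
  have := hy1.1.2.1
  omega

theorem ty_X {v : V} : ty G B v = .X ↔ Big G B v := by
  classical
  unfold ty
  by_cases hb : Big G B v
  · simp [hb]
  · rw [if_neg hb]
    constructor
    · intro h
      split_ifs at h
    · intro h
      exact absurd h hb

theorem ty_f {v : V} : ty G B v = .f ↔ Free G B v := by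
  classical
  constructor
  · intro h
    unfold ty at h
    split_ifs at h with h1 h2
    exact h2
  · intro hf
    unfold ty
    rw [if_neg (not_big hf.1.1 hf.1.2.1.le), if_pos hf]

theorem ty_F {v : V} : ty G B v = .F ↔ FF G B v := by
  classical
  constructor
  · intro h
    unfold ty at h
    split_ifs at h with h1 h2 h3
    exact h3
  · intro hf
    have h2 : ¬ Free G B v := by
      intro h
      have := h.1.2.2
      have := hf.2.2
      omega
    unfold ty
    rw [if_neg (not_big hf.1 hf.2.1.le), if_neg h2, if_pos hf]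

/-- a `P1c` vertex is not `Free` -/
theorem ty_p (h : MinCE G B) {v : V} : ty G B v = .p ↔ P1c G B v := by
  classical
  constructor
  · intro h
    unfold ty at h
    split_ifs at h with h1 h2 h3 h4
    exact h4
  · intro hf
    have h3 : ¬ FF G B v := by
      intro h
      have := h.2.2
      have := hf.1.2.2
      omega
    unfold ty
    rw [if_neg (not_big hf.1.1 hf.1.2.1.le), if_neg (p1c_not_free h hf), if_neg h3, if_pos hf]

theorem ty_N {v : V} : ty G B v = .N ↔ Npay G B v := by
  classical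
  constructor
  · intro h
    unfold ty at h
    split_ifs at h with h1 h2 h3 h4 h5
    exact ⟨h5, h4, h2⟩
  · intro hf
    have h3 : ¬ FF G B v := by
      intro h
      have := h.2.2
      have := hf.1.2.2
      omega
    unfold ty
    rw [if_neg (not_big hf.1.1 hf.1.2.1.le), if_neg hf.2.2, if_neg h3, if_neg hf.2.1,
      if_pos hf.1]

theorem f12_facts {v : V} (hf : F12 G B v) : dg G v = 4 ∧ tt G v = 1 := ⟨hf.2.1, hf.2.2⟩

theorem ty_E {v : V} : ty G B v = .E ↔ F04 G B v := by
  classical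
  constructor
  · intro h
    unfold ty at h
    split_ifs at h with h1 h2 h3 h4 h5 h6
    exact h6
  · intro hf
    have h5 : ¬ F12 G B v := by
      intro h
      have := h.2.2
      have := hf.2.2
      omega
    have h3 : ¬ FF G B v := by
      intro h
      have := h.2.2
      have := hf.2.2
      omega
    unfold ty
    rw [if_neg (not_big hf.1 hf.2.1.le), if_neg (fun h => h5 h.1), if_neg h3,
      if_neg (fun h => h5 h.1), if_neg h5, if_pos hf]

/-- classes of vertices of degree 4 -/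
theorem not_four {v : V} (hd : dg G v ≠ 4) : ¬ Free G B v ∧ ¬ FF G B v ∧ ¬ P1c G B v ∧
    ¬ F12 G B v ∧ ¬ F04 G B v :=
  ⟨fun h => hd h.1.2.1, fun h => hd h.2.1, fun h => hd h.1.2.1, fun h => hd h.2.1,
    fun h => hd h.2.1⟩

theorem ty_G {v : V} : ty G B v = .G ↔ Ex2 G B v := by
  classical
  constructor
  · intro h
    unfold ty at h
    split_ifs at h with h1 h2 h3 h4 h5 h6 h7
    exact h7
  · intro hf
    obtain ⟨k1, k2, k3, k4, k5⟩ := not_four (G := G) (B := B) (v := v) (by
      have := hf.2.1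
      omega)
    unfold ty
    rw [if_neg (exc_not_big (Or.inl hf)), if_neg k1, if_neg k2, if_neg k3, if_neg k4, if_neg k5,
      if_pos hf]

theorem ty_K {v : V} : ty G B v = .K ↔ ExK G B v := by
  classical
  constructor
  · intro h
    unfold ty at h
    split_ifs at h with h1 h2 h3 h4 h5 h6 h7 h8
    exact h8
  · intro hf
    obtain ⟨k1, k2, k3, k4, k5⟩ := not_four (G := G) (B := B) (v := v) (by
      have := hf.2.1
      omega)
    have k6 : ¬ Ex2 G B v := by
      intro h
      have := h.2.2.1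
      have := hf.2.2.1
      omega
    unfold ty
    rw [if_neg (exc_not_big (Or.inr hf)), if_neg k1, if_neg k2, if_neg k3, if_neg k4, if_neg k5,
      if_neg k6, if_pos hf]

/-- classes of vertices of degree at least 4 -/
theorem of_three {v : V} (hB : v ∉ B) (hd : dg G v = 3) : ¬ Big G B v ∧ ¬ Free G B v ∧
    ¬ FF G B v ∧ ¬ P1c G B v ∧ ¬ F12 G B v ∧ ¬ F04 G B v ∧ ¬ Ex2 G B v ∧ ¬ ExK G B v := by
  obtain ⟨k1, k2, k3, k4, k5⟩ := not_four (G := G) (B := B) (v := v) (by omega)
  refine ⟨not_big hB (by omega), k1, k2, k3, k4, k5, fun h => ?_, fun h => ?_⟩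
  · have := h.2.1
    omega
  · have := h.2.1
    omega

theorem ty_a {v : V} : ty G B v = .a ↔ OneP G B v := by
  classical
  constructor
  · intro h
    unfold ty at h
    split_ifs at h with h1 h2 h3 h4 h5 h6 h7 h8 h9
    exact h9
  · intro hf
    obtain ⟨k0, k1, k2, k3, k4, k5, k6, k7⟩ := of_three (B := B) hf.1.1 hf.1.2.1
    unfold ty
    rw [if_neg k0, if_neg k1, if_neg k2, if_neg k3, if_neg k4, if_neg k5,
      if_neg k6, if_neg k7, if_pos hf]

theorem ty_b (h : MinCE G B) {v : V} : ty G B v = .b ↔ OneQ G B v := by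
  classical
  constructor
  · intro h
    unfold ty at h
    split_ifs at h with h1 h2 h3 h4 h5 h6 h7 h8 h9 h10
    exact h10
  · intro hf
    obtain ⟨k0, k1, k2, k3, k4, k5, k6, k7⟩ := of_three (B := B) hf.1.1 hf.1.2.1
    unfold ty
    rw [if_neg k0, if_neg k1, if_neg k2, if_neg k3, if_neg k4, if_neg k5,
      if_neg k6, if_neg k7, if_neg (oneQ_not_oneP h hf), if_pos hf]

theorem ty_c {v : V} : ty G B v = .c ↔ One G B v ∧ ¬ OneP G B v ∧ ¬ OneQ G B v := by
  classical
  constructor
  · intro h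
    unfold ty at h
    split_ifs at h with h1 h2 h3 h4 h5 h6 h7 h8 h9 h10 h11
    exact ⟨h11, h9, h10⟩
  · rintro ⟨hf, hp, hq⟩
    obtain ⟨k0, k1, k2, k3, k4, k5, k6, k7⟩ := of_three (B := B) hf.1 hf.2.1
    unfold ty
    rw [if_neg k0, if_neg k1, if_neg k2, if_neg k3, if_neg k4, if_neg k5,
      if_neg k6, if_neg k7, if_neg hp, if_neg hq, if_pos hf]

/-- vertices without triangles are not `One` -/
theorem thr_not {v : V} (hf : Thr G B v) : ¬ One G B v ∧ ¬ OneP G B v ∧ ¬ OneQ G B v := by
  have h1 : ¬ One G B v := by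
    intro h
    have := h.2.2
    have := hf.2.2
    omega
  exact ⟨h1, fun h => h1 h.1, fun h => h1 h.1⟩

theorem ty_s {v : V} : ty G B v = .s ↔ Star G B v := by
  classical
  constructor
  · intro h
    unfold ty at h
    split_ifs at h with h1 h2 h3 h4 h5 h6 h7 h8 h9 h10 h11 h12
    exact h12
  · intro hf
    obtain ⟨k0, k1, k2, k3, k4, k5, k6, k7⟩ := of_three (B := B) hf.1.1 hf.1.2.1
    obtain ⟨k8, k9, k10⟩ := thr_not hf.1
    unfold ty
    rw [if_neg k0, if_neg k1, if_neg k2, if_neg k3, if_neg k4, if_neg k5,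
      if_neg k6, if_neg k7, if_neg k9, if_neg k10, if_neg k8, if_pos hf]

/-- for vertices which are not isolated -/
theorem ty_z (h : MinCE G B) {v : V} (hv : ∃ u, G.Adj v u) :
    ty G B v = .z ↔ Thr G B v ∧ ¬ Star G B v := by
  classical
  constructor
  · intro hz
    unfold ty at hz
    split_ifs at hz with h1 h2 h3 h4 h5 h6 h7 h8 h9 h10 h11 h12
    have hB : v ∉ B := fun hb => h1 (Or.inl hb)
    have hd : dg G v ≤ 4 := by
      by_contra hc
      refine h1 (Or.inr ⟨by omega, ?_⟩)
      rintro (h13 | h13)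
      · exact h7 h13
      · exact h8 h13
    have h3' : 3 ≤ dg G v := deg_three h hB hv
    have hc := card_wn h v
    have hcase : dg G v = 3 ∨ dg G v = 4 := by omega
    refine ⟨?_, h12⟩
    rcases hcase with hd3 | hd4
    · have ht : tt G v = 0 ∨ tt G v = 1 := by omega
      rcases ht with ht | ht
      · exact ⟨hB, hd3, ht⟩
      · exact absurd ⟨hB, hd3, ht⟩ h11
    · exfalso
      have ht : tt G v = 0 ∨ tt G v = 1 ∨ tt G v = 2 := by omega
      rcases ht with ht | ht | ht
      · exact h6 ⟨hB, hd4, ht⟩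
      · exact h5 ⟨hB, hd4, ht⟩
      · exact h3 ⟨hB, hd4, ht⟩
  · rintro ⟨hf, hs⟩
    obtain ⟨k0, k1, k2, k3, k4, k5, k6, k7⟩ := of_three (B := B) hf.1 hf.2.1
    obtain ⟨k8, k9, k10⟩ := thr_not hf
    unfold ty
    rw [if_neg k0, if_neg k1, if_neg k2, if_neg k3, if_neg k4, if_neg k5,
      if_neg k6, if_neg k7, if_neg k9, if_neg k10, if_neg k8, if_neg hs]

theorem np_iff {v : V} : (ty G B v).np = true ↔ Np G B v := by
  unfold Np
  rw [← ty_X, ← ty_f]
  cases ty G B v <;> simp [Ty.np]

theorem ex_iff {v : V} : (ty G B v).ex = true ↔ Exc G B v := by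
  unfold Exc
  rw [← ty_G, ← ty_K]
  cases ty G B v <;> simp [Ty.ex]

theorem sm_iff {v : V} : (ty G B v).sm = true ↔ Sm G B v := by
  unfold Sm
  rw [← np_iff, ← ex_iff]
  unfold Ty.sm
  cases (ty G B v).np <;> cases (ty G B v).ex <;> simp

theorem dm_iff {v : V} : (ty G B v).dm = true ↔ Dm G B v := by
  have h1 : One G B v ↔ (ty G B v = .a ∨ ty G B v = .b ∨ ty G B v = .c) := by
    constructor
    · intro h1
      by_cases hp : OneP G B v
      · exact Or.inl (ty_a.2 hp)
      · by_cases hc : ty G B v = .b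
        · exact Or.inr (Or.inl hc)
        · right; right
          by_cases hq : OneQ G B v
          · exfalso
            apply hc
            classical
            obtain ⟨k0, k1, k2, k3, k4, k5, k6, k7⟩ := of_three (B := B) h1.1 h1.2.1
            unfold ty
            rw [if_neg k0, if_neg k1, if_neg k2, if_neg k3, if_neg k4, if_neg k5,
              if_neg k6, if_neg k7, if_neg hp, if_pos hq]
          · exact ty_c.2 ⟨h1, hp, hq⟩
    · rintro (h1 | h1 | h1)
      · exact (ty_a.1 h1).1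
      · classical
        unfold ty at h1
        split_ifs at h1 with g1 g2 g3 g4 g5 g6 g7 g8 g9 g10
        exact g10.1
      · exact (ty_c.1 h1).1
  unfold Dm
  rw [h1, ← ty_s]
  cases ty G B v <;> simp [Ty.dm]

theorem t3_iff (h : MinCE G B) {v : V} (hv : ∃ u, G.Adj v u) :
    (ty G B v).t3 = true ↔ v ∉ B ∧ dg G v = 3 := by
  have h1 : (ty G B v).t3 = true ↔ (ty G B v = .z ∨ (ty G B v).dm = true) := by
    cases ty G B v <;> simp [Ty.t3, Ty.dm]
  rw [h1, ty_z h hv, dm_iff]
  constructor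
  · rintro (h2 | h2 | h2)
    · exact ⟨h2.1.1, h2.1.2.1⟩
    · exact ⟨h2.1, h2.2.1⟩
    · exact ⟨h2.1.1, h2.1.2.1⟩
  · rintro ⟨hB, hd⟩
    have hc := card_wn h v
    have ht : tt G v = 0 ∨ tt G v = 1 := by omega
    rcases ht with ht | ht
    · by_cases hs : Star G B v
      · exact Or.inr (Or.inr hs)
      · exact Or.inl ⟨⟨hB, hd, ht⟩, hs⟩
    · exact Or.inr (Or.inl ⟨hB, hd, ht⟩)

/-- a vertex which is not small, not exceptional is big or free; classification of the small
vertices on a triangle edge -/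
theorem sm_te (h : MinCE G B) {v a : V} (hv : Sm G B v) (ha : TE G v a) :
    FF G B v ∨ P1c G B v ∨ Npay G B v ∨ One G B v := by
  obtain ⟨h1, h2⟩ := hv
  have hb : ¬ Big G B v := fun h3 => h1 (Or.inl h3)
  have hB : v ∉ B := fun h3 => hb (Or.inl h3)
  have hd : dg G v ≤ 4 := by
    by_contra hc
    exact hb (Or.inr ⟨by omega, h2⟩)
  have h3 : 3 ≤ dg G v := deg_three h hB ⟨a, ha.1⟩
  have hc := card_wn h v
  have ht : 1 ≤ tt G v := by
    have h4 := card_tn h v
    have h5 : 0 < (tn G v).card := card_pos.2 ⟨a, mem_tn.2 ha⟩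
    omega
  have hcase : (dg G v = 3 ∧ tt G v = 1) ∨ (dg G v = 4 ∧ tt G v = 1) ∨
      (dg G v = 4 ∧ tt G v = 2) := by omega
  rcases hcase with ⟨k1, k2⟩ | ⟨k1, k2⟩ | ⟨k1, k2⟩
  · exact Or.inr (Or.inr (Or.inr ⟨hB, k1, k2⟩))
  · by_cases hp : P1c G B v
    · exact Or.inr (Or.inl hp)
    · refine Or.inr (Or.inr (Or.inl ⟨⟨hB, k1, k2⟩, hp, fun hf => h1 (Or.inr hf)⟩))
  · exact Or.inl ⟨hB, k1, k2⟩

end Pool.Agent.Lib.SVY.SpecB
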